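import Pool.Agent.Lib.MP_ed661f_ag.S.Up.Key

/-!
The upper bound for the multipoint Seshadri constants of a surface in the projective space of
dimension three.
-/

set_option autoImplicit false

open MvPolynomial Filter
open scoped ENNReal Topology

namespace Pool.Agent.Lib.MP_ed661f_ag.S.Up

open Pool.Agent.Lib.MP_ed661f_ag.H

variable {N : ℕ}

/-- a linear form which does not vanish at finitely many vectors -/
theorem exists_linear_form {n : ℕ} (u : Fin n → Fin (N + 1) → ℂ) (hu : ∀ i, u i ≠ 0) :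
    ∃ l : Poly N, l.IsHomogeneous 1 ∧ ∀ i, eval (u i) l ≠ 0 := by
  classical
  set p : Fin n → Poly N := fun i => ∑ j, C (u i j) * X j with hp
  have hp0 : ∀ i, p i ≠ 0 := by
    intro i h
    apply hu i
    funext j
    have h1 := congrArg (eval (Pi.single j (1 : ℂ))) h
    simp only [hp, map_sum, map_mul, eval_C, eval_X, map_zero] at h1
    rw [Finset.sum_eq_single j] at h1
    · simpa using h1
    · intro k _ hk
      rw [Pi.single_eq_of_ne hk, mul_zero]
    · intro hj
      exact absurd (Finset.mem_univ j) hj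
  have hprod : ∏ i, p i ≠ 0 := Finset.prod_ne_zero_iff.2 fun i _ => hp0 i
  obtain ⟨c, hc⟩ : ∃ c, eval c (∏ i, p i) ≠ 0 := by
    by_contra hcon
    push Not at hcon
    exact hprod (MvPolynomial.funext fun x => by rw [hcon x, map_zero])
  rw [map_prod, Finset.prod_ne_zero_iff] at hc
  refine ⟨∑ j, C (c j) * X j, ?_, fun i => ?_⟩
  · refine IsHomogeneous.sum _ _ _ fun j _ => ?_
    exact (isHomogeneous_C_mul_X (c j) j)
  · have h1 := hc i (Finset.mem_univ i)
    have h2 : eval (u i) (∑ j, C (c j) * X j) = eval c (p i) := by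
      simp only [hp, map_sum, map_mul, eval_C, eval_X]
      exact Finset.sum_congr rfl fun j _ => mul_comm _ _
    rw [h2]
    exact h1

/-- the numbers in the counting argument -/
theorem exists_numbers {d E ε A : ℝ} (hd : 0 < d) (hE : 0 < E) (hε : 0 < ε) (hA : 0 ≤ A)
    (h : d < ε ^ 2 * E) : ∃ m w : ℕ, d ≤ m ∧
      E * (w : ℝ) ^ 2 / 2 + E * w + A < d * (m : ℝ) ^ 2 / 2 - d ^ 2 * m / 2 - d ^ 2 ∧
      d * m < ε * w * E := by
  set t : ℝ := d / (ε * E) with ht
  set r : ℝ := Real.sqrt (d / E) with hr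
  have hr2 : r ^ 2 = d / E := Real.sq_sqrt (by positivity)
  have hr2' : r ^ 2 * E = d := by
    rw [hr2]
    field_simp
  have ht0 : 0 < t := by positivity
  have htE : ε * t * E = d := by
    rw [ht]
    field_simp
  have htr : t < r := by
    rw [hr]
    apply Real.lt_sqrt_of_sq_lt
    rw [ht, div_pow, div_lt_div_iff₀ (by positivity) hE]
    nlinarith [mul_pos hd hE]
  set θ : ℝ := (t + r) / 2 with hθ
  have hθ0 : 0 < θ := by
    have : 0 ≤ r := Real.sqrt_nonneg _
    positivity
  have hθt : t < θ := by rw [hθ]; linarith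
  have hθr : θ < r := by rw [hθ]; linarith
  have h1 : E * θ ^ 2 < d := by
    rw [← hr2']
    nlinarith [mul_pos hE (sub_pos.2 hθr), mul_pos hE hθ0]
  have h2 : d < ε * θ * E := by
    rw [← htE]
    have : ε * E * t < ε * E * θ := mul_lt_mul_of_pos_left hθt (by positivity)
    linarith
  set a : ℝ := (d - E * θ ^ 2) / 2 with ha
  set b : ℝ := E * θ + d ^ 2 / 2 with hb
  set c : ℝ := A + d ^ 2 with hc
  have ha0 : 0 < a := by rw [ha]; linarith
  have hb0 : 0 < b := by positivity
  have hc0 : 0 < c := by positivity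
  set g : ℝ := ε * θ * E - d with hg
  have hg0 : 0 < g := by rw [hg]; linarith
  obtain ⟨m, hm⟩ := exists_nat_gt ((b + c) / a + ε * E / g + d + 1)
  have p1 : 0 < (b + c) / a := by positivity
  have p2 : 0 < ε * E / g := by positivity
  have hm1 : (b + c) / a < m := by linarith
  have hm2 : ε * E / g < m := by linarith
  have hm3 : 1 < (m : ℝ) := by linarith
  refine ⟨m, ⌊θ * m⌋₊, by linarith, ?_, ?_⟩
  · have hw : (⌊θ * m⌋₊ : ℝ) ≤ θ * m := Nat.floor_le (by positivity)
    have hw0 : (0 : ℝ) ≤ ⌊θ * m⌋₊ := Nat.cast_nonneg _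
    have h3 : E * (⌊θ * m⌋₊ : ℝ) ^ 2 / 2 + E * ⌊θ * m⌋₊ + A ≤
        E * (θ * m) ^ 2 / 2 + E * (θ * m) + A := by gcongr
    refine lt_of_le_of_lt h3 ?_
    rw [div_lt_iff₀ ha0] at hm1
    have h4 : (b + c) * m < a * (m : ℝ) ^ 2 := by nlinarith
    have h5 : b * m + c ≤ (b + c) * m := by nlinarith
    have h6 : a * (m : ℝ) ^ 2 = d * (m : ℝ) ^ 2 / 2 - E * (θ * m) ^ 2 / 2 := by
      rw [ha]; ring
    have h7 : b * m = E * (θ * m) + d ^ 2 * m / 2 := by
      rw [hb]; ring
    linarith
  · have hw := Nat.lt_floor_add_one (θ * (m : ℝ))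
    rw [div_lt_iff₀ hg0] at hm2
    have h3 : ε * E * (θ * m) < ε * E * (⌊θ * m⌋₊ + 1) :=
      mul_lt_mul_of_pos_left hw (by positivity)
    have h4 : (m : ℝ) * g = ε * E * (θ * m) - d * m := by rw [hg]; ring
    linarith

/-- **the upper bound**: the `n`-point Seshadri constant of an irreducible surface of degree `d` in
the projective space of dimension three is at most `√(d / n)` -/
theorem eps_le {d n : ℕ} (hn : 1 ≤ n) {F : Poly 3} (hF : F.IsHomogeneous d)
    (hirr : Irreducible F) :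
    eps (Ideal.span {F}) n ≤ ENNReal.ofReal (Real.sqrt (d / n)) := by
  have hd : 1 ≤ d := by
    by_contra hcon
    have hd0 : d = 0 := by omega
    rw [hd0] at hF
    have h1 := (totalDegree_zero_iff_isHomogeneous _).2 hF
    rw [totalDegree_eq_zero_iff_eq_C] at h1
    apply hirr.not_isUnit
    rw [h1]
    refine (isUnit_iff_ne_zero.2 ?_).map (C : ℂ →+* Poly 3)
    intro h2
    rw [h2, map_zero] at h1
    exact hirr.ne_zero h1
  unfold eps
  refine iSup_le fun x => iSup_le fun hinj => iSup_le fun hon => ?_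
  by_contra hcon
  rw [not_le] at hcon
  obtain ⟨ε', h1, h2⟩ := ENNReal.lt_iff_exists_nnreal_btwn.1 hcon
  set ε : ℝ := (ε' : ℝ) with hεdef
  have hεε : ENNReal.ofReal ε = ε' := ENNReal.ofReal_coe_nnreal
  rw [← hεε] at h1 h2
  have hs0 : 0 ≤ Real.sqrt (d / n) := Real.sqrt_nonneg _
  have h3 : Real.sqrt (d / n) < ε := (ENNReal.ofReal_lt_ofReal_iff_of_nonneg hs0).1 h1
  have hε : 0 < ε := lt_of_le_of_lt hs0 h3
  -- normalise the points
  obtain ⟨l, hl, hlx⟩ := exists_linear_form (fun i => (x i).rep) (fun i => (x i).rep_nonzero)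
  set c : Fin n → ℂ := fun i => (eval (x i).rep l)⁻¹ with hc
  have hc0 : ∀ i, c i ≠ 0 := fun i => inv_ne_zero (hlx i)
  set v : Fin n → Fin 4 → ℂ := fun i => c i • (x i).rep with hv
  have hlv : ∀ i, eval (v i) l = 1 := by
    intro i
    show eval (c i • (x i).rep) l = 1
    rw [eval_smul_linear hl]
    exact inv_mul_cancel₀ (hlx i)
  have hFv : ∀ i, eval (v i) F = 0 := by
    intro i
    show eval (c i • (x i).rep) F = 0
    rw [← eval_scaleHom, scaleHom_homogeneous (c i) hF, smul_eval,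
      hon i F (Ideal.mem_span_singleton_self F), mul_zero]
  choose e he1 he2 he3 using fun i => exists_order (v i) hirr.ne_zero (hFv i)
  -- the hypothesis on the curves
  have H : ∀ P, IsCurveOn (Ideal.span {F}) P → (∃ i, ∀ Q ∈ P, eval (v i) Q = 0) →
      ENNReal.ofReal ε * ∑ i, mult P (v i) ≤ deg P := by
    intro P hP hpt
    have h4 : ∀ i, mult P (v i) = mult P (x i).rep := fun i =>
      mult_smul hP.homogeneous _ (hc0 i)
    simp only [h4]
    have h5 : ∃ i, OnVar P (x i) := by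
      obtain ⟨i, hi⟩ := hpt
      refine ⟨i, fun Q hQ => ?_⟩
      have h6 := hi _ (scaleHom_mem hP.homogeneous (c i)⁻¹ hQ)
      rw [eval_scaleHom] at h6
      have h7 : (c i)⁻¹ • v i = (x i).rep := by
        show (c i)⁻¹ • c i • (x i).rep = (x i).rep
        rw [smul_smul, inv_mul_cancel₀ (hc0 i), one_smul]
      rwa [h7] at h6
    have h6 : seshadri (Ideal.span {F}) x ≤ deg P / ∑ i, mult P (x i).rep := by
      unfold seshadri
      exact iInf_le_of_le P (iInf_le_of_le hP (iInf_le_of_le h5 le_rfl))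
    exact ENNReal.mul_le_of_le_div (h2.le.trans h6)
  -- the numbers
  set E : ℝ := ∑ i, (e i : ℝ) with hE
  have hnE : (n : ℝ) ≤ E := by
    have : ∑ _i : Fin n, (1 : ℝ) ≤ ∑ i, (e i : ℝ) :=
      Finset.sum_le_sum fun i _ => by exact_mod_cast he1 i
    simpa using this
  have hn0 : (0 : ℝ) < n := by exact_mod_cast hn
  have hE0 : 0 < E := lt_of_lt_of_le hn0 hnE
  have hd0 : (0 : ℝ) < d := by exact_mod_cast hd
  have h4 : (d : ℝ) < ε ^ 2 * E := by
    have h5 : (d : ℝ) / n < ε ^ 2 := (Real.sqrt_lt' hε).1 h3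
    rw [div_lt_iff₀ hn0] at h5
    nlinarith [sq_nonneg ε]
  obtain ⟨m, w, hm1, hm2, hm3⟩ := exists_numbers (A := ∑ i, ((e i : ℝ) + 2) ^ 3) hd0 hE0 hε
    (Finset.sum_nonneg fun i _ => by positivity) h4
  have hdm : d ≤ m := by exact_mod_cast hm1
  obtain ⟨G, hG, hGF, hGv⟩ := exists_form_jets (J := Ideal.span {F}) (l := l) (v := v) (w := w)
    (m := m) (by
      have h5 : (∑ i, lam (Ideal.span {F}) l (v i) w : ℝ) < hilb (Ideal.span {F}) m := by
        refine lt_of_le_of_lt (Finset.sum_le_sum fun i _ =>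
          lam_hyp_le hl (hlv i) hF (he2 i) (he3 i) w) ?_
        refine lt_of_lt_of_le ?_ (hilb_hyp_ge hirr.ne_zero hF m hdm)
        refine lt_of_le_of_lt (le_of_eq ?_) hm2
        rw [Finset.sum_add_distrib, Finset.sum_add_distrib, ← Finset.sum_mul, ← Finset.sum_div,
          ← Finset.sum_mul]
      exact_mod_cast h5)
  have h5 := key hF hirr hG hGF hl hlv he2 he3 hGv hε H
  linarith

end Pool.Agent.Lib.MP_ed661f_ag.S.Up
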