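import Pool.Agent.Lib.MP_ed661f_ag.S.Up.Ord

/-!
Forms with prescribed jets on a hypersurface, and the growth of the rings of jets of a complete
intersection.
-/

set_option autoImplicit false

open MvPolynomial

namespace Pool.Agent.Lib.MP_ed661f_ag.S.Up

open Pool.Agent.Lib.MP_ed661f_ag.H

variable {N : ℕ}

/-- a lower bound for the rings of jets of the intersection with the hypersurface `G = 0` -/
theorem lam_le_sup_add {J : Ideal (Poly N)} {G l : Poly N} {v : Fin (N + 1) → ℂ} {w : ℕ}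
    (hG : G ∈ J ⊔ vecIdeal v ^ w ⊔ Ideal.span {l - 1}) (s : ℕ) :
    lam J l v s ≤ lam (J ⊔ Ideal.span {G}) l v s + lam J l v (s - w) := by
  unfold lam
  set A := J ⊔ vecIdeal v ^ s ⊔ Ideal.span {l - 1} with hA
  set A' := J ⊔ Ideal.span {G} ⊔ vecIdeal v ^ s ⊔ Ideal.span {l - 1} with hA'
  set A'' := J ⊔ vecIdeal v ^ (s - w) ⊔ Ideal.span {l - 1} with hA''
  have hAA' : A ≤ A' := sup_le_sup_right (sup_le_sup_right le_sup_left _) _
  have hf1 : Module.Finite ℂ (Poly N ⧸ A) :=
    finite_quot (v := v) (s := s) (le_sup_right.trans le_sup_left)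
  have hf2 : Module.Finite ℂ (Poly N ⧸ A'') :=
    finite_quot (v := v) (s := s - w) (le_sup_right.trans le_sup_left)
  have hmul : ∀ a ∈ A'', G * a ∈ A := by
    intro a ha
    obtain ⟨b, hb, c, hc, rfl⟩ := Submodule.mem_sup.1 ha
    obtain ⟨p, hp, m, hm, rfl⟩ := Submodule.mem_sup.1 hb
    obtain ⟨b', hb', c', hc', hG'⟩ := Submodule.mem_sup.1 hG
    obtain ⟨p', hp', m', hm', rfl⟩ := Submodule.mem_sup.1 hb'
    rw [← hG']
    have e1 : J ≤ A := le_sup_left.trans le_sup_left
    have e2 : vecIdeal v ^ s ≤ A := le_sup_right.trans le_sup_left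
    have e3 : Ideal.span {l - 1} ≤ A := le_sup_right
    have e4 : (p' + m' + c') * (p + m + c) = p' * (p + m + c) + (m' * p + (m' * m + m' * c)) +
        c' * (p + m + c) := by ring
    rw [e4]
    refine A.add_mem (A.add_mem ?_ (A.add_mem ?_ (A.add_mem ?_ ?_))) ?_
    · exact A.mul_mem_right _ (e1 hp')
    · exact A.mul_mem_left _ (e1 hp)
    · refine e2 (Ideal.pow_le_pow_right (show s ≤ w + (s - w) by omega) ?_)
      rw [pow_add]
      exact Ideal.mul_mem_mul hm' hm
    · exact A.mul_mem_left _ (e3 hc)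
    · exact A.mul_mem_right _ (e3 hc')
  let f0 : Poly N →ₗ[ℂ] (Poly N ⧸ A) :=
    (Ideal.Quotient.mkₐ ℂ A).toLinearMap.comp (LinearMap.mulLeft ℂ G)
  let f : (Poly N ⧸ A'') →ₗ[ℂ] (Poly N ⧸ A) :=
    (Submodule.liftQ (A''.restrictScalars ℂ) f0 (by
      intro a ha
      rw [LinearMap.mem_ker]
      exact Ideal.Quotient.eq_zero_iff_mem.2 (hmul a ha)))
  have hfapp : ∀ a, f (Ideal.Quotient.mk A'' a) = Ideal.Quotient.mk A (G * a) := fun a => rfl
  let g : (Poly N ⧸ A) →ₗ[ℂ] (Poly N ⧸ A') := (Ideal.Quotient.factorₐ ℂ hAA').toLinearMap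
  have hgapp : ∀ a, g (Ideal.Quotient.mk A a) = Ideal.Quotient.mk A' a := fun a => rfl
  have hgs : Function.Surjective g := Ideal.Quotient.factor_surjective hAA'
  have hker : LinearMap.ker g ≤ LinearMap.range f := by
    intro x hx
    obtain ⟨a, rfl⟩ := Ideal.Quotient.mk_surjective x
    rw [LinearMap.mem_ker, hgapp, Ideal.Quotient.eq_zero_iff_mem] at hx
    have hA3 : A' = A ⊔ Ideal.span {G} := by
      rw [hA', hA]
      ac_rfl
    rw [hA3] at hx
    obtain ⟨b, hb, c, hc, rfl⟩ := Submodule.mem_sup.1 hx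
    obtain ⟨d, rfl⟩ := Ideal.mem_span_singleton'.1 hc
    refine ⟨Ideal.Quotient.mk A'' d, ?_⟩
    rw [hfapp, map_add, Ideal.Quotient.eq_zero_iff_mem.2 hb, zero_add, mul_comm]
  have h1 := LinearMap.finrank_range_add_finrank_ker g
  rw [LinearMap.range_eq_top.2 hgs, finrank_top] at h1
  have h2 : Module.finrank ℂ (LinearMap.ker g) ≤ Module.finrank ℂ (LinearMap.range f) :=
    Submodule.finrank_mono hker
  have h3 : Module.finrank ℂ (LinearMap.range f) ≤ Module.finrank ℂ (Poly N ⧸ A'') :=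
    LinearMap.finrank_range_le f
  omega

/-- forms outside `J` with prescribed jets -/
theorem exists_form_jets {n : ℕ} {J : Ideal (Poly N)} {l : Poly N} {v : Fin n → Fin (N + 1) → ℂ}
    {w m : ℕ} (h : ∑ i, lam J l (v i) w < hilb J m) :
    ∃ G : Poly N, G.IsHomogeneous m ∧ G ∉ J ∧
      ∀ i, G ∈ J ⊔ vecIdeal (v i) ^ w ⊔ Ideal.span {l - 1} := by
  have hfin0 := finite_formsN (N := N) m
  set W : Submodule ℂ (Poly N ⧸ J) :=
    (homogeneousSubmodule (Fin (N + 1)) ℂ m).map (Ideal.Quotient.mkₐ ℂ J).toLinearMap with hW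
  have hfW : Module.Finite ℂ W := by
    rw [hW]
    infer_instance
  have hf : ∀ i, Module.Finite ℂ (Poly N ⧸ (J ⊔ vecIdeal (v i) ^ w ⊔ Ideal.span {l - 1})) :=
    fun i => finite_quot (v := v i) (s := w) (le_sup_right.trans le_sup_left)
  have hle : ∀ i, J ≤ J ⊔ vecIdeal (v i) ^ w ⊔ Ideal.span {l - 1} :=
    fun i => le_sup_left.trans le_sup_left
  let φ : W →ₗ[ℂ] (∀ i, Poly N ⧸ (J ⊔ vecIdeal (v i) ^ w ⊔ Ideal.span {l - 1})) :=
    LinearMap.pi fun i => (Ideal.Quotient.factorₐ ℂ (hle i)).toLinearMap.comp W.subtype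
  have h1 := LinearMap.finrank_range_add_finrank_ker φ
  have h2 : Module.finrank ℂ (LinearMap.range φ) ≤ ∑ i, lam J l (v i) w := by
    refine (Submodule.finrank_le _).trans ?_
    rw [Module.finrank_pi_fintype]
    rfl
  have h3 : 0 < Module.finrank ℂ (LinearMap.ker φ) := by
    have : Module.finrank ℂ W = hilb J m := rfl
    omega
  have h3' : LinearMap.ker φ ≠ ⊥ := by
    intro h
    rw [h, finrank_bot] at h3
    omega
  obtain ⟨⟨x, hx⟩, hxk, hx0⟩ := Submodule.exists_mem_ne_zero_of_ne_bot h3'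
  obtain ⟨G, hG, hGx⟩ := hx
  have hGx' : Ideal.Quotient.mk J G = x := hGx
  refine ⟨G, hG, ?_, ?_⟩
  · intro hGJ
    apply hx0
    apply Subtype.ext
    show x = 0
    rw [← hGx', Ideal.Quotient.eq_zero_iff_mem]
    exact hGJ
  · intro i
    have h4 := congrFun (LinearMap.mem_ker.1 hxk) i
    have h5 : Ideal.Quotient.factorₐ ℂ (hle i) x = 0 := h4
    rw [← hGx'] at h5
    have h6 : Ideal.Quotient.mk (J ⊔ vecIdeal (v i) ^ w ⊔ Ideal.span {l - 1}) G = 0 := h5
    rwa [Ideal.Quotient.eq_zero_iff_mem] at h6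

/-- the Hilbert function of a hypersurface -/
theorem hilb_span {F : Poly N} (hF0 : F ≠ 0) {d : ℕ} (hF : F.IsHomogeneous d) (j : ℕ) :
    hilb (Ideal.span {F}) (j + d) +
      Module.finrank ℂ (homogeneousSubmodule (Fin (N + 1)) ℂ j) =
      Module.finrank ℂ (homogeneousSubmodule (Fin (N + 1)) ℂ (j + d)) := by
  have hfin := finite_formsN (N := N) (j + d)
  have hfin' := finite_formsN (N := N) j
  set V := homogeneousSubmodule (Fin (N + 1)) ℂ (j + d) with hV
  set φ := (Ideal.Quotient.mkₐ ℂ (Ideal.span {F})).toLinearMap with hφ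
  have h1 := (φ.domRestrict V).finrank_range_add_finrank_ker
  have h2 : LinearMap.range (φ.domRestrict V) = V.map φ := LinearMap.range_domRestrict _ _
  have h3 : Module.finrank ℂ (LinearMap.range (φ.domRestrict V)) =
      hilb (Ideal.span {F}) (j + d) := by rw [h2]; rfl
  -- the kernel
  let g : homogeneousSubmodule (Fin (N + 1)) ℂ j →ₗ[ℂ] LinearMap.ker (φ.domRestrict V) :=
    LinearMap.codRestrict _ (LinearMap.codRestrict _
      ((LinearMap.mulRight ℂ F).domRestrict _) fun x => by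
        exact ((mem_homogeneousSubmodule _ _).1 x.2).mul hF) fun x => by
        rw [LinearMap.mem_ker]
        show Ideal.Quotient.mk (Ideal.span {F}) ((x : Poly N) * F) = 0
        rw [Ideal.Quotient.eq_zero_iff_mem]
        exact Ideal.mul_mem_left _ _ (Ideal.mem_span_singleton_self F)
  have hgapp : ∀ x, ((g x : V) : Poly N) = (x : Poly N) * F := fun x => rfl
  have hginj : Function.Injective g := by
    intro x y hxy
    apply Subtype.ext
    have h4 : (x : Poly N) * F = (y : Poly N) * F := by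
      rw [← hgapp, ← hgapp, hxy]
    exact mul_right_cancel₀ hF0 h4
  have hgsurj : Function.Surjective g := by
    rintro ⟨⟨a, ha⟩, hak⟩
    have h4 : Ideal.Quotient.mk (Ideal.span {F}) a = 0 := hak
    rw [Ideal.Quotient.eq_zero_iff_mem] at h4
    obtain ⟨c, hc⟩ := Ideal.mem_span_singleton'.1 h4
    refine ⟨⟨homogeneousComponent j c, homogeneousComponent_mem _ _⟩, ?_⟩
    apply Subtype.ext
    apply Subtype.ext
    rw [hgapp]
    show homogeneousComponent j c * F = a
    rw [← component_mul hF, hc, homogeneousComponent_of_mem ha, if_pos rfl]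
  have h5 := (LinearEquiv.ofBijective g ⟨hginj, hgsurj⟩).finrank_eq
  rw [h3, ← h5] at h1
  exact h1

theorem finrank_forms_four (k : ℕ) :
    6 * Module.finrank ℂ (homogeneousSubmodule (Fin 4) ℂ k) = (k + 1) * (k + 2) * (k + 3) := by
  rw [finrank_forms]
  have e1 : 4 + k - 1 = k + 3 := by omega
  rw [e1, Nat.choose_symm_add]
  have h2 : ((k + 3).choose 3 : ℚ) = ((k + 3 : ℕ) : ℚ) * ((k + 3 : ℕ) - 1) * ((k + 3 : ℕ) - 2) / 6 := by
    rw [Nat.cast_choose_eq_ascPochhammer_div]
    simp [ascPochhammer_succ_right, Nat.factorial]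
    ring
  have h3 : (6 * (k + 3).choose 3 : ℚ) = ((k + 1) * (k + 2) * (k + 3) : ℕ) := by
    rw [h2]
    push_cast
    ring
  exact_mod_cast h3

end Pool.Agent.Lib.MP_ed661f_ag.S.Up
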