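import Pool.Agent.Lib.MP_ed661f_ag.S.Up.Const

/-!
The Hilbert-Samuel limit for curves: the dimensions of the rings of jets in the affine piece
`l = 1` grow linearly, with the slope `mult P v`.
-/

set_option autoImplicit false
set_option synthInstance.maxHeartbeats 400000
set_option maxHeartbeats 4000000

open MvPolynomial Filter
open scoped ENNReal Topology

namespace Pool.Agent.Lib.MP_ed661f_ag.S.Up

open Pool.Agent.Lib.MP_ed661f_ag.H

variable {N : ℕ}

/-- modulo `l - 1` a form in the coordinates centred at `v` is a form of larger degree -/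
theorem aeval_xi_sub_mem {l : Poly N} {v : Fin (N + 1) → ℂ} (g : Poly N) (e : ℕ) :
    aeval (xi v) g - aeval (fun i => X i - C (v i) * l) g * l ^ e ∈ Ideal.span {l - 1} := by
  have hl : Ideal.Quotient.mk (Ideal.span {l - 1}) l = 1 := by
    have : Ideal.Quotient.mk (Ideal.span {l - 1}) (l - 1) = 0 :=
      Ideal.Quotient.eq_zero_iff_mem.2 (Ideal.subset_span rfl)
    rw [map_sub, map_one, sub_eq_zero] at this
    exact this
  rw [← Ideal.Quotient.eq_zero_iff_mem, map_sub, map_mul, map_pow, hl, one_pow, mul_one,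
    sub_eq_zero]
  have h1 : ∀ y : Fin (N + 1) → Poly N, Ideal.Quotient.mk (Ideal.span {l - 1}) (aeval y g) =
      aeval (fun i => Ideal.Quotient.mk (Ideal.span {l - 1}) (y i)) g := fun y =>
    mk_aeval _ y g
  rw [h1, h1]
  congr 1
  congr 1
  funext i
  simp only [xi, map_sub, map_mul, hl, mul_one]

/-- the forms of degree `t` represent all jets of order `t` in the affine piece `l = 1` -/
theorem exists_form_repr {l : Poly N} (hl : l.IsHomogeneous 1) (v : Fin (N + 1) → ℂ) (t : ℕ) :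
    ∀ j ≤ t + 1, ∀ f : Poly N, ∃ g : Poly N, g.IsHomogeneous t ∧
      f - g ∈ vecIdeal v ^ j ⊔ Ideal.span {l - 1} := by
  intro j
  induction j with
  | zero =>
    intro _ f
    refine ⟨0, isHomogeneous_zero _ _ _, ?_⟩
    rw [pow_zero, Ideal.one_eq_top]
    exact Ideal.mem_sup_left Submodule.mem_top
  | succ j ih =>
    intro hj f
    obtain ⟨g, hg, hfg⟩ := ih (by omega) f
    obtain ⟨h, hh, s, hs, hhs⟩ := Submodule.mem_sup.1 hfg
    obtain ⟨g', hg', hhg⟩ := exists_form v j h hh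
    have hlin : ∀ i, (X i - C (v i) * l : Poly N).IsHomogeneous 1 := fun i => by
      refine (isHomogeneous_X ℂ i).sub ?_
      have := (isHomogeneous_C (Fin (N + 1)) (v i)).mul hl
      rwa [zero_add] at this
    refine ⟨g + aeval (fun i => X i - C (v i) * l) g' * l ^ (t - j), ?_, ?_⟩
    · refine hg.add ?_
      have h1 := hg'.aeval (fun i => X i - C (v i) * l : Fin (N + 1) → Poly N) hlin
      have h2 := h1.mul (hl.pow (t - j))
      have h3 : 1 * j + 1 * (t - j) = t := by omega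
      rwa [h3] at h2
    · have h4 := aeval_xi_sub_mem (l := l) (v := v) g' (t - j)
      have : f - (g + aeval (fun i => X i - C (v i) * l) g' * l ^ (t - j)) =
          (h - aeval (xi v) g') + (s + (aeval (xi v) g' -
            aeval (fun i => X i - C (v i) * l) g' * l ^ (t - j))) := by
        have h5 : f - g = h + s := hhs.symm
        linear_combination h5
      rw [this]
      exact Ideal.add_mem _ (Ideal.mem_sup_left hhg)
        (Ideal.mem_sup_right (Ideal.add_mem _ hs h4))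

theorem lam_succ_le_hilb (P : Ideal (Poly N)) {l : Poly N} (hl : l.IsHomogeneous 1)
    (v : Fin (N + 1) → ℂ) (t : ℕ) : lam P l v (t + 1) ≤ hilb P t := by
  rw [lam, hilb]
  have hle : P ≤ P ⊔ vecIdeal v ^ (t + 1) ⊔ Ideal.span {l - 1} := le_sup_left.trans le_sup_left
  let f : ((homogeneousSubmodule (Fin (N + 1)) ℂ t).map
      (Ideal.Quotient.mkₐ ℂ P).toLinearMap) →ₗ[ℂ]
      (Poly N ⧸ (P ⊔ vecIdeal v ^ (t + 1) ⊔ Ideal.span {l - 1})) :=
    (Ideal.Quotient.factorₐ ℂ hle).toLinearMap.comp (Submodule.subtype _)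
  apply LinearMap.finrank_le_finrank_of_surjective (f := f)
  intro x
  obtain ⟨F, rfl⟩ := Ideal.Quotient.mk_surjective x
  obtain ⟨g, hg, hFg⟩ := exists_form_repr hl v t (t + 1) le_rfl F
  refine ⟨⟨Ideal.Quotient.mk P g, ⟨g, hg, rfl⟩⟩, ?_⟩
  change Ideal.Quotient.mk _ g = Ideal.Quotient.mk _ F
  rw [eq_comm, Ideal.Quotient.eq, sup_assoc]
  exact Ideal.mem_sup_right hFg

theorem lam_eq (P : Ideal (Poly N)) (l : Poly N) (v : Fin (N + 1) → ℂ) (t : ℕ) :
    lam P l v t = Module.finrank ℂ (Poly N ⧸ ((P ⊔ Ideal.span {l - 1}) ⊔ vecIdeal v ^ t)) := by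
  rw [lam, sup_right_comm]

theorem lam_zero (P : Ideal (Poly N)) (l : Poly N) (v : Fin (N + 1) → ℂ) : lam P l v 0 = 0 := by
  rw [lam]
  have h : P ⊔ vecIdeal v ^ 0 ⊔ Ideal.span {l - 1} = ⊤ := by
    rw [pow_zero, Ideal.one_eq_top, sup_top_eq, top_sup_eq]
  rw [h]
  have : Subsingleton (Poly N ⧸ (⊤ : Ideal (Poly N))) :=
    Ideal.Quotient.subsingleton_iff.2 rfl
  rw [Module.finrank_zero_of_subsingleton]

theorem lam_eq_sum (P : Ideal (Poly N)) (l : Poly N) (v : Fin (N + 1) → ℂ) (t : ℕ) :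
    lam P l v t = ∑ k ∈ Finset.range t, hilb (tcone (P ⊔ Ideal.span {l - 1}) v) k := by
  induction t with
  | zero => rw [lam_zero, Finset.sum_range_zero]
  | succ t ih =>
    rw [Finset.sum_range_succ, ← ih, lam_eq, lam_eq, finrank_jets_succ]

/-- the Hilbert function of a curve grows at most linearly -/
theorem hilb_curve_le {P : Ideal (Poly N)} (hP : P.IsPrime) (hh : Homog P)
    (hd : ringKrullDim (Poly N ⧸ P) = 2) : ∃ C : ℕ, ∀ k, hilb P k ≤ C * k + C := by
  obtain ⟨y, h1, h2, h3⟩ := exists_noether (J := P) hP.ne_top hh (r := 2)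
    (by rw [hd]; norm_num)
  obtain ⟨d, e, a, q, b, -, he, -, hq, hqb, hF⟩ := exists_basis hP hh h1 h2 h3
  refine ⟨d * (b + 1), fun k => ?_⟩
  have h4 := hilb_le hP hh (by norm_num) h1 h2 he hq hqb hF k
  rw [Finset.sum_const, Finset.card_univ, Fintype.card_fin, smul_eq_mul,
    finrank_forms_two] at h4
  refine h4.trans ?_
  nlinarith [Nat.zero_le (d * b * k)]

/-- **the Hilbert-Samuel function of a curve is eventually linear** -/
theorem lam_eventually_linear {P : Ideal (Poly N)} (hP : P.IsPrime) (hh : Homog P)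
    (hd : ringKrullDim (Poly N ⧸ P) = 2) {l : Poly N} (hl : l.IsHomogeneous 1)
    (v : Fin (N + 1) → ℂ) :
    ∃ e C : ℕ, ∀ t, lam P l v t ≤ e * t + C ∧ e * t ≤ lam P l v t + C := by
  obtain ⟨C, hC⟩ := hilb_curve_le hP hh hd
  obtain ⟨e, t1, he⟩ := hilb_eventually_const (T := tcone (P ⊔ Ideal.span {l - 1}) v)
    (homog_tcone _ _) (C := C) (by
      intro t
      rw [← lam_eq_sum]
      rcases Nat.eq_zero_or_pos t with rfl | ht
      · rw [lam_zero]; exact Nat.zero_le _
      · obtain ⟨t, rfl⟩ : ∃ t', t = t' + 1 := ⟨t - 1, by omega⟩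
        refine (lam_succ_le_hilb P hl v t).trans ((hC t).trans ?_)
        nlinarith)
  have hstep : ∀ j, lam P l v (t1 + j) = lam P l v t1 + e * j := by
    intro j
    induction j with
    | zero => simp
    | succ j ih =>
      have h1 := lam_eq_sum P l v (t1 + j + 1)
      rw [Finset.sum_range_succ, ← lam_eq_sum, he (t1 + j) (by omega), ih] at h1
      rw [← Nat.add_assoc, h1]
      ring
  refine ⟨e, lam P l v t1 + e * t1, fun t => ?_⟩
  rcases le_total t1 t with ht | ht
  · obtain ⟨j, rfl⟩ := Nat.exists_eq_add_of_le ht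
    rw [hstep]
    constructor <;> nlinarith [Nat.zero_le (e * t1), Nat.zero_le (lam P l v t1)]
  · have h1 : lam P l v t ≤ lam P l v t1 := lam_mono ht
    constructor <;> nlinarith [Nat.zero_le (e * t), Nat.zero_le (e * t1),
      Nat.mul_le_mul_left e ht, Nat.zero_le (lam P l v t)]

theorem mult_eq_of_linear {P : Ideal (Poly N)} {l : Poly N} {v : Fin (N + 1) → ℂ} {e C : ℕ}
    (h : ∀ t, lam P l v t ≤ e * t + C ∧ e * t ≤ lam P l v t + C)
    (hU : ∀ s, jetDim P v s = ∑ t ∈ Finset.range s, lam P l v (t + 1)) :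
    mult P v = e := by
  have h1 : ∀ s : ℕ, 2 * jetDim P v s ≤ e * (s * (s + 1)) + 2 * C * s := by
    intro s
    rw [hU]
    induction s with
    | zero => simp
    | succ s ih =>
      rw [Finset.sum_range_succ]
      have := (h (s + 1)).1
      nlinarith
  have h2 : ∀ s : ℕ, e * (s * (s + 1)) ≤ 2 * jetDim P v s + 2 * C * s := by
    intro s
    rw [hU]
    induction s with
    | zero => simp
    | succ s ih =>
      rw [Finset.sum_range_succ]
      have := (h (s + 1)).2
      nlinarith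
  have hcast : ∀ s : ℕ, 1 ≤ s → 2 * (jetDim P v s : ℝ≥0∞) / (s : ℝ≥0∞) ^ 2 =
      ENNReal.ofReal ((2 * jetDim P v s : ℝ) / (s : ℝ) ^ 2) := by
    intro s hs
    rw [ENNReal.ofReal_div_of_pos (by positivity)]
    congr 1
    · rw [ENNReal.ofReal_mul (by norm_num), ENNReal.ofReal_natCast]; norm_num
    · rw [ENNReal.ofReal_pow (by positivity), ENNReal.ofReal_natCast]
  have hinv : Tendsto (fun s : ℕ => (1 : ℝ) / (s : ℝ)) atTop (𝓝 0) :=
    tendsto_one_div_atTop_nhds_zero_nat
  apply le_antisymm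
  · have hg : Tendsto (fun s : ℕ => (e : ℝ) + ((e : ℝ) + 2 * C) * (1 / (s : ℝ))) atTop
        (𝓝 ((e : ℝ) + ((e : ℝ) + 2 * C) * 0)) := tendsto_const_nhds.add (tendsto_const_nhds.mul hinv)
    have h3 := liminf_le_ofReal
      (u := fun s : ℕ => 2 * (jetDim P v s : ℝ≥0∞) / (s : ℝ≥0∞) ^ 2) ?_ hg
    · rw [mul_zero, add_zero, ENNReal.ofReal_natCast] at h3
      exact h3
    · filter_upwards [eventually_ge_atTop 1] with s hs
      rw [hcast s hs]
      apply ENNReal.ofReal_le_ofReal
      have hs0 : (0 : ℝ) < s := by exact_mod_cast hs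
      rw [div_le_iff₀ (by positivity)]
      have h4 : (2 * jetDim P v s : ℝ) ≤ e * (s * (s + 1)) + 2 * C * s := by exact_mod_cast h1 s
      refine h4.trans (le_of_eq ?_)
      field_simp
      ring
  · have hg : Tendsto (fun s : ℕ => (e : ℝ) + (-(2 * C : ℝ)) * (1 / (s : ℝ))) atTop
        (𝓝 ((e : ℝ) + (-(2 * C : ℝ)) * 0)) := tendsto_const_nhds.add (tendsto_const_nhds.mul hinv)
    have h3 := ofReal_le_liminf
      (u := fun s : ℕ => 2 * (jetDim P v s : ℝ≥0∞) / (s : ℝ≥0∞) ^ 2) ?_ hg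
    · rw [mul_zero, add_zero, ENNReal.ofReal_natCast] at h3
      exact h3
    · filter_upwards [eventually_ge_atTop 1] with s hs
      rw [hcast s hs]
      apply ENNReal.ofReal_le_ofReal
      have hs0 : (0 : ℝ) < s := by exact_mod_cast hs
      rw [le_div_iff₀ (by positivity)]
      have h4 : (e * (s * (s + 1)) : ℝ) ≤ 2 * jetDim P v s + 2 * C * s := by exact_mod_cast h2 s
      have h5 : ((e : ℝ) + (-(2 * C : ℝ)) * (1 / (s : ℝ))) * (s : ℝ) ^ 2 =
          e * (s : ℝ) ^ 2 - 2 * C * s := by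
        field_simp
        ring
      rw [h5]
      have h6 : (0 : ℝ) ≤ (e : ℝ) * s := by positivity
      nlinarith

/-- **(U3)** for a curve `P` the function `lam P l v` is linear up to a bounded error, with slope
`mult P v` -/
theorem exists_mult_linear {P : Ideal (Poly N)} (hP : P.IsPrime) (hh : Homog P)
    (hd : ringKrullDim (Poly N ⧸ P) = 2) {l : Poly N} (hl : l.IsHomogeneous 1)
    {v : Fin (N + 1) → ℂ}
    (hU : ∀ s, jetDim P v s = ∑ t ∈ Finset.range s, lam P l v (t + 1)) :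
    ∃ e C : ℕ, mult P v = e ∧ ∀ t, lam P l v t ≤ e * t + C ∧ e * t ≤ lam P l v t + C := by
  obtain ⟨e, C, h⟩ := lam_eventually_linear hP hh hd hl v
  exact ⟨e, C, mult_eq_of_linear h hU, h⟩

theorem exists_mult {P : Ideal (Poly N)} (hP : P.IsPrime) (hh : Homog P)
    (hd : ringKrullDim (Poly N ⧸ P) = 2) {l : Poly N} (hl : l.IsHomogeneous 1)
    {v : Fin (N + 1) → ℂ}
    (hU : ∀ s, jetDim P v s = ∑ t ∈ Finset.range s, lam P l v (t + 1)) :
    Tendsto (fun t : ℕ => (lam P l v t : ℝ≥0∞) / t) atTop (𝓝 (mult P v)) := by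
  obtain ⟨e, C, hm, h⟩ := exists_mult_linear hP hh hd hl hU
  rw [hm]
  have hinv : Tendsto (fun s : ℕ => (1 : ℝ) / (s : ℝ)) atTop (𝓝 0) :=
    tendsto_one_div_atTop_nhds_zero_nat
  have h1 : Tendsto (fun t : ℕ => (lam P l v t : ℝ) / t) atTop (𝓝 (e : ℝ)) := by
    have hup : Tendsto (fun s : ℕ => (e : ℝ) + (C : ℝ) * (1 / (s : ℝ))) atTop (𝓝 (e : ℝ)) := by
      have := (tendsto_const_nhds (x := (e : ℝ)) (f := atTop (α := ℕ))).add
        ((tendsto_const_nhds (x := (C : ℝ))).mul hinv)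
      rwa [mul_zero, add_zero] at this
    have hlo : Tendsto (fun s : ℕ => (e : ℝ) - (C : ℝ) * (1 / (s : ℝ))) atTop (𝓝 (e : ℝ)) := by
      have := (tendsto_const_nhds (x := (e : ℝ)) (f := atTop (α := ℕ))).sub
        ((tendsto_const_nhds (x := (C : ℝ))).mul hinv)
      rwa [mul_zero, sub_zero] at this
    refine tendsto_of_tendsto_of_tendsto_of_le_of_le' hlo hup ?_ ?_
    · filter_upwards [eventually_ge_atTop 1] with t ht
      have ht0 : (0 : ℝ) < t := by exact_mod_cast ht
      rw [le_div_iff₀ ht0]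
      have h4 : (e * t : ℝ) ≤ lam P l v t + C := by exact_mod_cast (h t).2
      have h5 : ((e : ℝ) - (C : ℝ) * (1 / (t : ℝ))) * t = e * t - C := by field_simp
      rw [h5]
      linarith
    · filter_upwards [eventually_ge_atTop 1] with t ht
      have ht0 : (0 : ℝ) < t := by exact_mod_cast ht
      rw [div_le_iff₀ ht0]
      have h4 : (lam P l v t : ℝ) ≤ e * t + C := by exact_mod_cast (h t).1
      have h5 : ((e : ℝ) + (C : ℝ) * (1 / (t : ℝ))) * t = e * t + C := by field_simp
      rw [h5]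
      linarith
  have h2 := ENNReal.tendsto_ofReal h1
  rw [ENNReal.ofReal_natCast] at h2
  refine h2.congr' ?_
  filter_upwards [eventually_ge_atTop 1] with t ht
  rw [cast_div_eq ht]

end Pool.Agent.Lib.MP_ed661f_ag.S.Up
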