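import Pool.Agent.Lib.MP_ed661f_ag.S.Up.Exact
import Pool.Agent.Lib.MP_ed661f_ag.H.Affine

/-!
Every point of a surface has positive multiplicity: infinitely many curves on the surface pass
through it.
-/

set_option autoImplicit false

open MvPolynomial

namespace Pool.Agent.Lib.MP_ed661f_ag.S.Up

open Pool.Agent.Lib.MP_ed661f_ag.H

variable {N : ℕ}

/-! ### curves through a point have positive multiplicity -/

theorem le_vecIdeal {P : Ideal (Poly N)} {v : Fin (N + 1) → ℂ} (h : ∀ F ∈ P, eval v F = 0) :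
    P ≤ vecIdeal v := fun F hF => by
  rw [vecIdeal, RingHom.mem_ker]
  exact h F hF

theorem lam_succ_gt {P : Ideal (Poly N)} (hP : P.IsPrime) (hh : Homog P) {l : Poly N}
    (hl : l.IsHomogeneous 1) {v : Fin (N + 1) → ℂ} (hlv : eval v l = 1)
    (hPv : ∀ F ∈ P, eval v F = 0) {g : Poly N} {k : ℕ} (hg : g.IsHomogeneous k)
    (hgv : eval v g = 0) (hgP : g ∉ P) (s : ℕ) : lam P l v s < lam P l v (s + 1) := by
  have hlP : l ∉ P := fun h => by
    have := hPv l h
    rw [hlv] at this
    exact one_ne_zero this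
  by_contra hcon
  push Not at hcon
  set M := vecIdeal v with hM
  set Q : Ideal (Poly N) := P ⊔ Ideal.span {l - 1} with hQ
  have hQp : Q.IsPrime := affine_isPrime hP hh hl hlP
  have hQM : Q ≤ M := by
    refine sup_le (le_vecIdeal hPv) ?_
    rw [Ideal.span_singleton_le_iff_mem, hM, vecIdeal, RingHom.mem_ker, map_sub, hlv, map_one,
      sub_self]
  -- the inclusion of the powers
  have h1 : M ^ s ≤ Q ⊔ M ^ (s + 1) := by
    have hle : P ⊔ M ^ (s + 1) ⊔ Ideal.span {l - 1} ≤ P ⊔ M ^ s ⊔ Ideal.span {l - 1} :=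
      sup_le_sup_right (sup_le_sup_left (Ideal.pow_le_pow_right (Nat.le_succ s)) P) _
    have hf1 : Module.Finite ℂ (Poly N ⧸ (P ⊔ M ^ (s + 1) ⊔ Ideal.span {l - 1})) :=
      finite_quot (v := v) (s := s + 1) (le_sup_right.trans le_sup_left)
    have hf2 : Module.Finite ℂ (Poly N ⧸ (P ⊔ M ^ s ⊔ Ideal.span {l - 1})) :=
      finite_quot (v := v) (s := s) (le_sup_right.trans le_sup_left)
    let f := (Ideal.Quotient.factorₐ ℂ hle).toLinearMap
    have hfs : Function.Surjective f := Ideal.Quotient.factor_surjective hle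
    have h2 := LinearMap.finrank_range_add_finrank_ker f
    rw [LinearMap.range_eq_top.2 hfs, finrank_top] at h2
    have hcon' : Module.finrank ℂ (Poly N ⧸ (P ⊔ M ^ (s + 1) ⊔ Ideal.span {l - 1})) ≤
        Module.finrank ℂ (Poly N ⧸ (P ⊔ M ^ s ⊔ Ideal.span {l - 1})) := hcon
    have h3 : Module.finrank ℂ (LinearMap.ker f) = 0 := by omega
    have h4 : LinearMap.ker f = ⊥ := Submodule.finrank_eq_zero.1 h3
    intro G hG
    have h5 : Ideal.Quotient.mk (P ⊔ M ^ (s + 1) ⊔ Ideal.span {l - 1}) G ∈ LinearMap.ker f := by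
      rw [LinearMap.mem_ker]
      show Ideal.Quotient.mk (P ⊔ M ^ s ⊔ Ideal.span {l - 1}) G = 0
      rw [Ideal.Quotient.eq_zero_iff_mem]
      exact Ideal.mem_sup_left (Ideal.mem_sup_right hG)
    rw [h4, Submodule.mem_bot, Ideal.Quotient.eq_zero_iff_mem] at h5
    rw [hQ, sup_right_comm]
    exact h5
  -- Nakayama
  let W : Submodule (Poly N) (Poly N ⧸ Q) := Submodule.map (Submodule.mkQ Q) (M ^ s)
  have hfg : W.FG := IsNoetherian.noetherian W
  have hW : W ≤ M • W := by
    rintro _ ⟨G, hG, rfl⟩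
    obtain ⟨q, hq, m, hm, hqm⟩ := Submodule.mem_sup.1 (h1 hG)
    have h2 : Submodule.mkQ Q G = Submodule.mkQ Q m := by
      rw [← sub_eq_zero, ← map_sub]
      have h3 : G - m = q := by rw [← hqm]; ring
      rw [h3]
      exact (Submodule.Quotient.mk_eq_zero Q).2 hq
    rw [h2]
    have h3 : M • W = Submodule.map (Submodule.mkQ Q) (M * M ^ s) := by
      show M • Submodule.map (Submodule.mkQ Q) (M ^ s) = _
      rw [← Submodule.map_smul'', smul_eq_mul]
    rw [h3]
    refine ⟨m, ?_, rfl⟩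
    rw [← pow_succ']
    exact hm
  obtain ⟨r, hr, hr0⟩ := Submodule.exists_sub_one_mem_and_smul_eq_zero_of_fg_of_le_smul M W hfg hW
  have h2 : g ^ s ∈ M ^ s := Ideal.pow_mem_pow (by rw [hM, vecIdeal, RingHom.mem_ker]; exact hgv) s
  have h3 := hr0 _ ⟨g ^ s, h2, rfl⟩
  have h4 : r * g ^ s ∈ Q := by
    have : Submodule.mkQ Q (r * g ^ s) = 0 := h3
    exact (Submodule.Quotient.mk_eq_zero Q).1 this
  rcases hQp.mem_or_mem h4 with h5 | h5
  · have h6 : (1 : Poly N) ∈ M := by
      have : (1 : Poly N) = r - (r - 1) := by ring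
      rw [this]
      exact Ideal.sub_mem _ (hQM h5) hr
    rw [hM, vecIdeal, RingHom.mem_ker, map_one] at h6
    exact one_ne_zero h6
  · exact hgP (affine_mem hP hh hl hlP hg (hQp.mem_of_pow_mem _ h5))

theorem le_lam {P : Ideal (Poly N)} (hP : P.IsPrime) (hh : Homog P) {l : Poly N}
    (hl : l.IsHomogeneous 1) {v : Fin (N + 1) → ℂ} (hlv : eval v l = 1)
    (hPv : ∀ F ∈ P, eval v F = 0) {g : Poly N} {k : ℕ} (hg : g.IsHomogeneous k)
    (hgv : eval v g = 0) (hgP : g ∉ P) (s : ℕ) : s ≤ lam P l v s := by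
  induction s with
  | zero => exact Nat.zero_le _
  | succ s ih =>
    have := lam_succ_gt hP hh hl hlv hPv hg hgv hgP s
    omega

/-! ### intersections of ideals -/

theorem lam_inf {P Q : Ideal (Poly N)} (l : Poly N) (v : Fin (N + 1) → ℂ) (s : ℕ) :
    lam P l v s + lam Q l v s ≤ lam (P ⊓ Q) l v s + lam (Q ⊔ P) l v s := by
  unfold lam
  set K := vecIdeal v ^ s with hK
  set A0 := P ⊓ Q ⊔ K ⊔ Ideal.span {l - 1} with hA0
  set A1 := P ⊔ K ⊔ Ideal.span {l - 1} with hA1
  set A2 := Q ⊔ K ⊔ Ideal.span {l - 1} with hA2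
  set A3 := Q ⊔ P ⊔ K ⊔ Ideal.span {l - 1} with hA3
  have h01 : A0 ≤ A1 := sup_le_sup_right (sup_le_sup_right inf_le_left _) _
  have h02 : A0 ≤ A2 := sup_le_sup_right (sup_le_sup_right inf_le_right _) _
  have h13 : A1 ≤ A3 := sup_le_sup_right (sup_le_sup_right le_sup_right _) _
  have h23 : A2 ≤ A3 := sup_le_sup_right (sup_le_sup_right le_sup_left _) _
  have hf0 : Module.Finite ℂ (Poly N ⧸ A0) :=
    finite_quot (v := v) (s := s) (le_sup_right.trans le_sup_left)
  have hf1 : Module.Finite ℂ (Poly N ⧸ A1) :=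
    finite_quot (v := v) (s := s) (le_sup_right.trans le_sup_left)
  have hf2 : Module.Finite ℂ (Poly N ⧸ A2) :=
    finite_quot (v := v) (s := s) (le_sup_right.trans le_sup_left)
  have hf3 : Module.Finite ℂ (Poly N ⧸ A3) :=
    finite_quot (v := v) (s := s) (le_sup_right.trans le_sup_left)
  let φ : (Poly N ⧸ A0) →ₗ[ℂ] (Poly N ⧸ A1) × (Poly N ⧸ A2) :=
    (Ideal.Quotient.factorₐ ℂ h01).toLinearMap.prod (Ideal.Quotient.factorₐ ℂ h02).toLinearMap
  let ψ : (Poly N ⧸ A1) × (Poly N ⧸ A2) →ₗ[ℂ] (Poly N ⧸ A3) :=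
    (Ideal.Quotient.factorₐ ℂ h13).toLinearMap.comp (LinearMap.fst ℂ _ _) -
      (Ideal.Quotient.factorₐ ℂ h23).toLinearMap.comp (LinearMap.snd ℂ _ _)
  have hker : LinearMap.ker ψ ≤ LinearMap.range φ := by
    rintro ⟨x, y⟩ hxy
    obtain ⟨a, rfl⟩ := Ideal.Quotient.mk_surjective x
    obtain ⟨b, rfl⟩ := Ideal.Quotient.mk_surjective y
    have h1 : Ideal.Quotient.mk A3 a - Ideal.Quotient.mk A3 b = 0 := hxy
    rw [← map_sub, Ideal.Quotient.eq_zero_iff_mem] at h1
    have h2 : A3 = P ⊔ A2 := by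
      rw [hA3, hA2]
      ac_rfl
    rw [h2] at h1
    obtain ⟨p, hp, q, hq, hpq⟩ := Submodule.mem_sup.1 h1
    refine ⟨Ideal.Quotient.mk A0 (a - p), ?_⟩
    refine Prod.ext ?_ ?_
    · show Ideal.Quotient.mk A1 (a - p) = Ideal.Quotient.mk A1 a
      rw [Ideal.Quotient.eq]
      have : a - p - a = -p := by ring
      rw [this]
      exact neg_mem ((le_sup_left.trans le_sup_left : P ≤ A1) hp)
    · show Ideal.Quotient.mk A2 (a - p) = Ideal.Quotient.mk A2 b
      rw [Ideal.Quotient.eq]
      have : a - p - b = q := by linear_combination (-1 : Poly N) * hpq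
      rw [this]
      exact hq
  have h1 := LinearMap.finrank_range_add_finrank_ker ψ
  rw [Module.finrank_prod] at h1
  have h2 : Module.finrank ℂ (LinearMap.ker ψ) ≤ Module.finrank ℂ (LinearMap.range φ) :=
    Submodule.finrank_mono hker
  have h3 : Module.finrank ℂ (LinearMap.range φ) ≤ Module.finrank ℂ (Poly N ⧸ A0) :=
    LinearMap.finrank_range_le φ
  have h4 : Module.finrank ℂ (LinearMap.range ψ) ≤ Module.finrank ℂ (Poly N ⧸ A3) :=
    Submodule.finrank_le _
  omega

/-! ### the homogeneous core -/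

/-- the polynomials whose homogeneous components are in `J` -/
noncomputable def core (J : Ideal (Poly N)) : Ideal (Poly N) where
  carrier := {F | ∀ k, homogeneousComponent k F ∈ J}
  add_mem' := by
    intro a b ha hb k
    rw [map_add]
    exact J.add_mem (ha k) (hb k)
  zero_mem' := by
    intro k
    rw [map_zero]
    exact J.zero_mem
  smul_mem' := by
    intro p F hF k
    rw [smul_eq_mul, hc_mul']
    refine J.sum_mem fun i _ => ?_
    split_ifs with h
    · exact J.mul_mem_left _ (hF _)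
    · exact J.zero_mem

theorem mem_core {J : Ideal (Poly N)} {F : Poly N} :
    F ∈ core J ↔ ∀ k, homogeneousComponent k F ∈ J := Iff.rfl

theorem mem_core_form {J : Ideal (Poly N)} {F : Poly N} {k : ℕ} (hF : F.IsHomogeneous k) :
    F ∈ core J ↔ F ∈ J := by
  rw [mem_core]
  constructor
  · intro h
    have := h k
    rwa [homogeneousComponent_of_mem hF, if_pos rfl] at this
  · intro h j
    rw [homogeneousComponent_of_mem hF]
    split_ifs
    · exact h
    · exact J.zero_mem

theorem homog_core (J : Ideal (Poly N)) : Homog (core J) := by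
  intro F hF k
  rw [mem_core_form (homogeneousComponent_isHomogeneous k F)]
  exact hF k

theorem core_le (J : Ideal (Poly N)) : core J ≤ J := by
  intro F hF
  rw [← sum_homogeneousComponent F]
  exact J.sum_mem fun i _ => hF i

theorem core_prime {J : Ideal (Poly N)} (hJ : J.IsPrime) : (core J).IsPrime := by
  refine prime_of_forms (homog_core J) ?_ ?_
  · intro h
    exact hJ.ne_top (top_le_iff.1 (h ▸ core_le J))
  · intro a b i j ha hb hab
    rw [mem_core_form ha, mem_core_form hb]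
    exact hJ.mem_or_mem (core_le J hab)

/-! ### linear forms in three variables -/

/-- the linear form with coefficients `a` -/
noncomputable def lf (a : Fin 3 → ℂ) : MvPolynomial (Fin 3) ℂ := ∑ i, C (a i) * X i

theorem lf_hom (a : Fin 3 → ℂ) : (lf a).IsHomogeneous 1 :=
  IsHomogeneous.sum _ _ _ fun i _ => isHomogeneous_C_mul_X (a i) i

theorem eval_lf (a p : Fin 3 → ℂ) : eval p (lf a) = ∑ i, a i * p i := by
  simp [lf]

theorem coeff_lf (a : Fin 3 → ℂ) (i : Fin 3) : (lf a).coeff (Finsupp.single i 1) = a i := by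
  classical
  have h : ∀ j : Fin 3, (C (a j) * X j : MvPolynomial (Fin 3) ℂ).coeff (Finsupp.single i 1) =
      if j = i then a j else 0 := by
    intro j
    rw [coeff_C_mul, coeff_X]
    by_cases hj : j = i
    · rw [hj]
      simp
    · rw [if_neg hj, if_neg, mul_zero]
      intro h
      exact hj (Finsupp.single_left_injective one_ne_zero h)
  rw [lf, coeff_sum, Finset.sum_congr rfl fun j _ => h j]
  simp

theorem lf_ne {a : Fin 3 → ℂ} (ha : a ≠ 0) : lf a ≠ 0 := by
  intro h
  apply ha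
  funext i
  rw [← coeff_lf a i, h, coeff_zero]
  rfl

theorem lf_prime {a : Fin 3 → ℂ} (ha : a ≠ 0) : Prime (lf a) := by
  refine Irreducible.prime (irreducible_of_totalDegree_eq_one ?_ ?_)
  · exact (lf_hom a).totalDegree (lf_ne ha)
  · intro x hx
    refine isUnit_iff_ne_zero.2 fun h0 => lf_ne ha ?_
    ext i
    have := hx i
    rw [h0, zero_dvd_iff] at this
    rw [this, coeff_zero]

theorem lf_dvd {a b : Fin 3 → ℂ} (hb : b ≠ 0) (h : lf a ∣ lf b) : ∃ c : ℂ, b = c • a := by
  obtain ⟨q, hq⟩ := h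
  have hb' := lf_ne hb
  have ha' : lf a ≠ 0 := fun h0 => hb' (by rw [hq, h0, zero_mul])
  have hq' : q ≠ 0 := fun h0 => hb' (by rw [hq, h0, mul_zero])
  have h1 : q.totalDegree = 0 := by
    have h2 := totalDegree_mul_of_isDomain ha' hq'
    rw [← hq, (lf_hom b).totalDegree hb', (lf_hom a).totalDegree ha'] at h2
    omega
  rw [totalDegree_eq_zero_iff_eq_C] at h1
  refine ⟨q.coeff 0, ?_⟩
  funext i
  rw [← coeff_lf b i, hq, h1, mul_comm, coeff_C_mul, coeff_lf, coeff_C, if_pos rfl]
  rfl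

/-- two independent linear forms which vanish at `p` -/
theorem exists_pair (p : Fin 3 → ℂ) : ∃ a b : Fin 3 → ℂ, LinearIndependent ℂ ![a, b] ∧
    ∑ i, a i * p i = 0 ∧ ∑ i, b i * p i = 0 := by
  let f : (Fin 3 → ℂ) →ₗ[ℂ] ℂ :=
    { toFun := fun a => ∑ i, a i * p i
      map_add' := fun a b => by
        rw [← Finset.sum_add_distrib]
        exact Finset.sum_congr rfl fun i _ => add_mul _ _ _
      map_smul' := fun t a => by
        rw [RingHom.id_apply, smul_eq_mul, Finset.mul_sum]
        exact Finset.sum_congr rfl fun i _ => mul_assoc _ _ _ }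
  have h1 := LinearMap.finrank_range_add_finrank_ker f
  have h2 : Module.finrank ℂ (LinearMap.range f) ≤ 1 := by
    have := Submodule.finrank_le (LinearMap.range f)
    rwa [Module.finrank_self] at this
  have h3 : 1 < Module.finrank ℂ (LinearMap.ker f) := by
    rw [Module.finrank_fin_fun] at h1
    omega
  have h4 : Nontrivial (LinearMap.ker f) := Module.nontrivial_of_finrank_pos (R := ℂ) (by omega)
  obtain ⟨x, hx⟩ := exists_ne (0 : LinearMap.ker f)
  obtain ⟨y, hy⟩ := exists_linearIndependent_pair_of_one_lt_finrank h3 hx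
  refine ⟨x, y, ?_, x.2, y.2⟩
  rw [LinearIndependent.pair_iff] at hy ⊢
  intro s t hst
  exact hy s t (Subtype.ext hst)

/-! ### curves through a point -/

/-- going down -/
theorem exists_curve {I : Ideal (Poly N)} (hI : IsSurface I) {y : Fin 3 → Poly N}
    (hy : ∀ i, (y i).IsHomogeneous 1) (hinj : Function.Injective (proj I y))
    (hfin : (proj I y).toRingHom.Finite) {v : Fin (N + 1) → ℂ} (hIv : ∀ F ∈ I, eval v F = 0)
    {a : Fin 3 → ℂ} (ha : a ≠ 0) (hav : ∑ i, a i * eval v (y i) = 0) :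
    ∃ P : Ideal (Poly N), P.IsPrime ∧ Homog P ∧ I ≤ P ∧ (∀ F ∈ P, eval v F = 0) ∧
      ∀ (g : MvPolynomial (Fin 3) ℂ) (k : ℕ), g.IsHomogeneous k →
        (aeval y g ∈ P ↔ lf a ∣ g) := by
  classical
  have hp := hI.prime
  have hh : Homog I := hI.homogeneous
  let _ : Algebra (MvPolynomial (Fin 3) ℂ) (Poly N ⧸ I) := (proj I y).toRingHom.toAlgebra
  have hmap : ∀ g, algebraMap (MvPolynomial (Fin 3) ℂ) (Poly N ⧸ I) g =
      Ideal.Quotient.mk I (aeval y g) := fun g => proj_eq I y g
  have hdom : IsDomain (Poly N ⧸ I) := Ideal.Quotient.isDomain I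
  have hfaith : FaithfulSMul (MvPolynomial (Fin 3) ℂ) (Poly N ⧸ I) :=
    (faithfulSMul_iff_algebraMap_injective _ _).2 hinj
  have hfin' : Module.Finite (MvPolynomial (Fin 3) ℂ) (Poly N ⧸ I) := hfin
  have hint : Algebra.IsIntegral (MvPolynomial (Fin 3) ℂ) (Poly N ⧸ I) := inferInstance
  -- the maximal ideal of the vector
  have hle : I ≤ vecIdeal v := le_vecIdeal hIv
  let ev : (Poly N ⧸ I) →+* ℂ := Ideal.Quotient.lift I (eval v) fun F hF => hIv F hF
  have hev : ∀ F, ev (Ideal.Quotient.mk I F) = eval v F := fun F => rfl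
  let Q : Ideal (Poly N ⧸ I) := RingHom.ker ev
  have hQ : Q.IsPrime := RingHom.ker_isPrime ev
  let p : Ideal (MvPolynomial (Fin 3) ℂ) := Ideal.span {lf a}
  have hpp : p.IsPrime := (Ideal.span_singleton_prime (lf_ne ha)).2 (lf_prime ha)
  have hev' : ∀ g : MvPolynomial (Fin 3) ℂ, eval v (aeval y g) = eval (fun i => eval v (y i)) g := by
    intro g
    rw [aeval_def, eval₂_eq, map_sum, eval_eq]
    refine Finset.sum_congr rfl fun d _ => ?_
    rw [map_mul, map_prod]
    congr 1
    · exact eval_C _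
    · exact Finset.prod_congr rfl fun i _ => map_pow _ _ _
  have hpQ : p ≤ Q.under (MvPolynomial (Fin 3) ℂ) := by
    rw [Ideal.span_singleton_le_iff_mem]
    show ev (algebraMap _ _ (lf a)) = 0
    rw [hmap, hev, hev', eval_lf]
    exact hav
  have hqp : (Q.under (MvPolynomial (Fin 3) ℂ)).IsPrime := inferInstance
  have hlies : Q.LiesOver (Q.under (MvPolynomial (Fin 3) ℂ)) := ⟨rfl⟩
  obtain ⟨P', hP'Q, hP'p, hP'o⟩ := Ideal.exists_ideal_le_liesOver_of_le (p := p) Q hpQ
  set J : Ideal (Poly N) := P'.comap (Ideal.Quotient.mk I) with hJ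
  have hJp : J.IsPrime := Ideal.comap_isPrime _ _
  have hIJ : I ≤ J := by
    intro F hF
    show Ideal.Quotient.mk I F ∈ P'
    rw [Ideal.Quotient.eq_zero_iff_mem.2 hF]
    exact P'.zero_mem
  refine ⟨core J, core_prime hJp, homog_core J, fun F hF k => hIJ (hh F hF k), ?_, ?_⟩
  · intro F hF
    have h1 : Ideal.Quotient.mk I F ∈ Q := hP'Q (core_le J hF)
    exact h1
  · intro g k hg
    rw [mem_core_form (aeval_hom hy hg)]
    have h1 : g ∈ p ↔ algebraMap (MvPolynomial (Fin 3) ℂ) (Poly N ⧸ I) g ∈ P' := by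
      rw [hP'o.over]
      rfl
    rw [hmap] at h1
    show Ideal.Quotient.mk I (aeval y g) ∈ P' ↔ _
    rw [← h1, Ideal.mem_span_singleton]

/-- the rings of jets at a point of a surface grow faster than linearly -/
theorem lam_slope {I : Ideal (Poly N)} (hI : IsSurface I) {l : Poly N} (hl : l.IsHomogeneous 1)
    {v : Fin (N + 1) → ℂ} (hlv : eval v l = 1) (hIv : ∀ F ∈ I, eval v F = 0) (m : ℕ) :
    ∃ C : ℕ, ∀ s, m * s ≤ lam I l v s + C := by
  classical
  have hp := hI.prime
  have hh : Homog I := hI.homogeneous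
  obtain ⟨y, hy, hinj, hfin⟩ := exists_noether (r := 3) hp.ne_top hh (by
    rw [hI.dim]; norm_num)
  obtain ⟨a, b, hab, ha, hb⟩ := exists_pair fun i => eval v (y i)
  have hne : ∀ c : ℂ, a + c • b ≠ 0 := by
    intro c h
    have h1 := LinearIndependent.pair_iff.1 hab 1 c (by rw [one_smul]; exact h)
    exact one_ne_zero h1.1
  have hnd : ∀ c c' : ℂ, c ≠ c' → ¬ lf (a + c • b) ∣ lf (a + c' • b) := by
    intro c c' hcc' h
    obtain ⟨t, ht⟩ := lf_dvd (hne c') h
    have h1 := LinearIndependent.pair_iff.1 hab (1 - t) (c' - t * c) (by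
      have h2 : (1 - t) • a + (c' - t * c) • b = (a + c' • b) - t • (a + c • b) := by
        module
      rw [h2, ← ht, sub_self])
    have h3 : t = 1 := by linear_combination -h1.1
    rw [h3] at h1
    exact hcc' (by linear_combination -h1.2)
  have hzero : ∀ c : ℂ, ∑ i, (a + c • b) i * eval v (y i) = 0 := by
    intro c
    have h1 : ∑ i, (a + c • b) i * eval v (y i) =
        ∑ i, a i * eval v (y i) + c * ∑ i, b i * eval v (y i) := by
      rw [Finset.mul_sum, ← Finset.sum_add_distrib]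
      refine Finset.sum_congr rfl fun i _ => ?_
      simp only [Pi.add_apply, Pi.smul_apply, smul_eq_mul]
      ring
    rw [h1, ha, hb, mul_zero, add_zero]
  choose P hPp hPh hIP hPv hPm using fun c : ℂ => exists_curve hI hy hinj hfin hIv (hne c) (hzero c)
  set X' : ℂ → Poly N := fun c => aeval y (lf (a + c • b)) with hX'
  have hXh : ∀ c, (X' c).IsHomogeneous 1 := fun c => aeval_hom hy (lf_hom _)
  have hXm : ∀ c c', X' c ∈ P c' ↔ c = c' := by
    intro c c'
    rw [hX', hPm c' _ 1 (lf_hom _)]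
    constructor
    · intro h
      by_contra hcc'
      exact hnd c' c (Ne.symm hcc') h
    · rintro rfl
      exact dvd_rfl
  have hXv : ∀ c, eval v (X' c) = 0 := fun c => hPv c _ ((hXm c c).2 rfl)
  -- the curves have positive multiplicity
  have h1 : ∀ (c : ℂ) (s : ℕ), s ≤ lam (P c) l v s := by
    intro c s
    refine le_lam (hPp c) (hPh c) hl hlv (hPv c) (hXh (c + 1)) (hXv (c + 1)) ?_ s
    rw [hXm]
    intro h
    exact one_ne_zero (by linear_combination h : (1 : ℂ) = 0)
  -- linear growth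
  obtain ⟨A0, hA0⟩ := surf_growth hI
  have h2 : ∀ c, ∃ C : ℕ, ∀ k, hilb (P c) k ≤ C * (k + 1) := by
    intro c
    obtain ⟨d, A, hd1, hd, -⟩ := surf_growth hI
    have hX0 : X' c ∉ I := by
      intro h
      have h3 : proj I y (lf (a + c • b)) = 0 := by
        rw [proj_eq]
        exact Ideal.Quotient.eq_zero_iff_mem.2 h
      exact lf_ne (hne c) (hinj (by rw [h3, map_zero]))
    obtain ⟨⟨C, hC⟩, -⟩ := inter_growth hI hd (hXh c) hX0
    refine ⟨C, fun k => le_trans (hilb_anti ?_ k) (hC k)⟩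
    refine sup_le (hIP c) ?_
    rw [Ideal.span_singleton_le_iff_mem]
    exact (hXm c c).2 rfl
  -- intersections
  set J : ℕ → Ideal (Poly N) := fun m => Finset.inf (Finset.range m) fun i => P (i : ℂ) with hJ
  have h3 : ∀ m : ℕ, ∃ C : ℕ, ∀ s, m * s ≤ lam (J m) l v s + C := by
    intro m
    induction m with
    | zero => exact ⟨0, fun s => by simp⟩
    | succ m ih =>
      obtain ⟨C, hC⟩ := ih
      obtain ⟨C1, hC1⟩ := h2 (m : ℂ)
      set A : Poly N := ∏ i ∈ Finset.range m, X' (i : ℂ) with hA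
      have hAh : A.IsHomogeneous (∑ i ∈ Finset.range m, 1) :=
        IsHomogeneous.prod _ _ _ fun i _ => hXh _
      have hAP : A ∉ P (m : ℂ) := by
        intro h
        obtain ⟨i, hi, hiP⟩ := (hPp (m : ℂ)).prod_mem_iff.1 h
        rw [hXm] at hiP
        have h4 : i = m := by exact_mod_cast hiP
        rw [h4] at hi
        exact absurd (Finset.mem_range.1 hi) (lt_irrefl m)
      have hAJ : A ∈ J m := by
        rw [← Ideal.span_singleton_le_iff_mem]
        refine Finset.le_inf fun i hi => ?_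
        rw [Ideal.span_singleton_le_iff_mem]
        exact Ideal.mem_of_dvd _ (Finset.dvd_prod_of_mem _ hi) ((hXm _ _).2 rfl)
      have h4 := T.exists_bound (hPp (m : ℂ)) (c := C1) (c2 := C1)
        (fun k => (hC1 k).trans (le_of_eq (by ring))) hAh hAP hl hlv
      refine ⟨C + C1 * (∑ i ∈ Finset.range m, 1), fun s => ?_⟩
      have h5 : J (m + 1) = J m ⊓ P (m : ℂ) := by
        rw [hJ]
        simp only
        rw [Finset.range_add_one, Finset.inf_insert, inf_comm]
      have h6 := lam_inf (P := J m) (Q := P (m : ℂ)) l v s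
      have h7 : lam (P (m : ℂ) ⊔ J m) l v s ≤ lam (P (m : ℂ) ⊔ Ideal.span {A}) l v s := by
        have hf : Module.Finite ℂ (Poly N ⧸ (P (m : ℂ) ⊔ Ideal.span {A} ⊔ vecIdeal v ^ s ⊔
            Ideal.span {l - 1})) :=
          finite_quot (v := v) (s := s) (le_sup_right.trans le_sup_left)
        refine slice_finrank_anti (sup_le_sup_right (sup_le_sup_right (sup_le_sup_left ?_ _) _) _)
        rwa [Ideal.span_singleton_le_iff_mem]
      have h8 := h4 s
      have h9 := hC s
      have h10 := h1 (m : ℂ) s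
      rw [h5]
      nlinarith
  obtain ⟨C, hC⟩ := h3 m
  refine ⟨C, fun s => (hC s).trans ?_⟩
  have h4 : I ≤ J m := Finset.le_inf fun i _ => hIP _
  have hf : Module.Finite ℂ (Poly N ⧸ (I ⊔ vecIdeal v ^ s ⊔ Ideal.span {l - 1})) :=
    finite_quot (v := v) (s := s) (le_sup_right.trans le_sup_left)
  have h5 : lam (J m) l v s ≤ lam I l v s :=
    slice_finrank_anti (sup_le_sup_right (sup_le_sup_right h4 _) _)
  omega

/-- **every point of a surface has a positive multiplicity** -/
theorem exists_HS_pos {I : Ideal (Poly N)} (hI : IsSurface I) {l : Poly N}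
    (hl : l.IsHomogeneous 1) {v : Fin (N + 1) → ℂ} (hlv : eval v l = 1)
    (hIv : ∀ F ∈ I, eval v F = 0) : ∃ e : ℕ, 1 ≤ e ∧ HS I l v e := by
  obtain ⟨e, C, he, hC⟩ := exists_HS hI hl hlv
  refine ⟨e, ?_, he⟩
  by_contra hcon
  have he0 : e = 0 := by omega
  rw [he0] at hC
  obtain ⟨C', hC'⟩ := lam_slope hI hl hlv hIv (C + 1)
  have h1 := hC (C' + 1)
  have h2 := hC' (C' + 1)
  nlinarith

end Pool.Agent.Lib.MP_ed661f_ag.S.Up
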