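import Pool.Agent.Lib.MP_ed661f_ag.H.Slice
import Pool.Agent.Lib.MP_ed661f_ag.H.Krull
import Pool.Agent.Lib.MP_ed661f_ag.H.Basis
import Pool.Agent.Lib.MP_ed661f_ag.H.Growth
import Pool.Agent.Lib.MP_ed661f_ag.H.Degrees

/-!
The tangent cone at a vector, and the growth of the dimensions of the rings of jets.
-/

set_option autoImplicit false

open MvPolynomial Filter
open scoped ENNReal

namespace Pool.Agent.Lib.MP_ed661f_ag.S.Up

open Pool.Agent.Lib.MP_ed661f_ag.H

variable {N : ℕ}

/-- the coordinates centred at `v` -/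
noncomputable def xi (v : Fin (N + 1) → ℂ) : Fin (N + 1) → Poly N := fun i => X i - C (v i)

theorem xi_mem (v : Fin (N + 1) → ℂ) (i : Fin (N + 1)) : xi v i ∈ vecIdeal v := by
  rw [vecIdeal, RingHom.mem_ker]
  simp [xi]

theorem sub_mem (v : Fin (N + 1) → ℂ) (f : Poly N) : f - C (eval v f) ∈ vecIdeal v := by
  rw [vecIdeal, RingHom.mem_ker]
  simp

theorem aeval_xi_mem (v : Fin (N + 1) → ℂ) {g : Poly N} {k : ℕ} (hg : g.IsHomogeneous k) :
    aeval (xi v) g ∈ vecIdeal v ^ k := by
  rw [g.as_sum, map_sum]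
  refine Ideal.sum_mem _ fun d hd => ?_
  rw [aeval_monomial]
  refine Ideal.mul_mem_left _ _ ?_
  have hdeg : d.degree = k := by
    by_contra hne
    rw [mem_support_iff] at hd
    exact hd (hg.coeff_eq_zero hne)
  rw [Finsupp.prod]
  have h1 : ∏ i ∈ d.support, xi v i ^ d i ∈ ∏ i ∈ d.support, vecIdeal v ^ d i :=
    Ideal.prod_mem_prod fun i _ => Ideal.pow_mem_pow (xi_mem v i) _
  rw [Finset.prod_pow_eq_pow_sum] at h1
  have h2 : ∑ i ∈ d.support, d i = k := by rw [← hdeg, Finsupp.degree]; rfl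
  rwa [h2] at h1

theorem sub_mem_span (v : Fin (N + 1) → ℂ) (f : Poly N) :
    f - C (eval v f) ∈ Ideal.span (Set.range (xi v)) := by
  induction f using MvPolynomial.induction_on with
  | C a => simp
  | add p q hp hq =>
    have : p + q - C (eval v (p + q)) = (p - C (eval v p)) + (q - C (eval v q)) := by
      simp only [map_add]; ring
    rw [this]
    exact Ideal.add_mem _ hp hq
  | mul_X p i hp =>
    have : p * X i - C (eval v (p * X i)) = X i * (p - C (eval v p)) + C (eval v p) * xi v i := by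
      simp only [map_mul, eval_X, xi]; ring
    rw [this]
    exact Ideal.add_mem _ (Ideal.mul_mem_left _ _ hp)
      (Ideal.mul_mem_left _ _ (Ideal.subset_span ⟨i, rfl⟩))

theorem vecIdeal_eq (v : Fin (N + 1) → ℂ) : vecIdeal v = Ideal.span (Set.range (xi v)) := by
  apply le_antisymm
  · intro f hf
    have h := sub_mem_span v f
    have h0 : eval v f = 0 := hf
    rwa [h0, map_zero, sub_zero] at h
  · rw [Ideal.span_le]
    rintro _ ⟨i, rfl⟩
    exact xi_mem v i

theorem exists_linear (v : Fin (N + 1) → ℂ) {b : Poly N} (hb : b ∈ vecIdeal v) :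
    ∃ g : Poly N, g.IsHomogeneous 1 ∧ b - aeval (xi v) g ∈ vecIdeal v ^ 2 := by
  rw [vecIdeal_eq] at hb
  induction hb using Submodule.span_induction with
  | mem x hx =>
    obtain ⟨i, rfl⟩ := hx
    refine ⟨X i, isHomogeneous_X ℂ i, ?_⟩
    simp
  | zero => exact ⟨0, isHomogeneous_zero _ _ _, by simp⟩
  | add x y _ _ hx hy =>
    obtain ⟨g, hg, hx⟩ := hx
    obtain ⟨g', hg', hy⟩ := hy
    refine ⟨g + g', hg.add hg', ?_⟩
    have : x + y - aeval (xi v) (g + g') = (x - aeval (xi v) g) + (y - aeval (xi v) g') := by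
      rw [map_add]; ring
    rw [this]
    exact Ideal.add_mem _ hx hy
  | smul p x _ hx =>
    obtain ⟨g, hg, hx⟩ := hx
    refine ⟨C (eval v p) * g, ?_, ?_⟩
    · have := (isHomogeneous_C (Fin (N + 1)) (eval v p)).mul hg
      rwa [zero_add] at this
    · have : p • x - aeval (xi v) (C (eval v p) * g) =
          (p - C (eval v p)) * aeval (xi v) g + p * (x - aeval (xi v) g) := by
        rw [map_mul, smul_eq_mul, algHom_C, algebraMap_eq]; ring
      rw [this]
      refine Ideal.add_mem _ ?_ (Ideal.mul_mem_left _ _ hx)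
      rw [pow_two]
      refine Ideal.mul_mem_mul (sub_mem v p) ?_
      have := aeval_xi_mem v hg
      rwa [pow_one] at this

theorem exists_form (v : Fin (N + 1) → ℂ) (k : ℕ) : ∀ f ∈ vecIdeal v ^ k,
    ∃ g : Poly N, g.IsHomogeneous k ∧ f - aeval (xi v) g ∈ vecIdeal v ^ (k + 1) := by
  induction k with
  | zero =>
    intro f _
    refine ⟨C (eval v f), isHomogeneous_C _ _, ?_⟩
    rw [algHom_C, algebraMap_eq, zero_add, pow_one]
    exact sub_mem v f
  | succ k ih =>
    intro f hf
    rw [pow_succ] at hf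
    refine Submodule.mul_induction_on hf ?_ ?_
    · intro a ha b hb
      obtain ⟨g, hg, hga⟩ := ih a ha
      obtain ⟨g', hg', hgb⟩ := exists_linear v hb
      refine ⟨g * g', hg.mul hg', ?_⟩
      have : a * b - aeval (xi v) (g * g') =
          aeval (xi v) g * (b - aeval (xi v) g') + (a - aeval (xi v) g) * b := by
        rw [map_mul]; ring
      rw [this]
      refine Ideal.add_mem _ ?_ ?_
      · have h1 := Ideal.mul_mem_mul (aeval_xi_mem v hg) hgb
        rwa [← pow_add] at h1
      · have h1 := Ideal.mul_mem_mul hga hb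
        rwa [← pow_succ] at h1
    · rintro x y ⟨g, hg, hx⟩ ⟨g', hg', hy⟩
      refine ⟨g + g', hg.add hg', ?_⟩
      have : x + y - aeval (xi v) (g + g') = (x - aeval (xi v) g) + (y - aeval (xi v) g') := by
        rw [map_add]; ring
      rw [this]
      exact Ideal.add_mem _ hx hy

/-- homogeneous components of a product -/
theorem hc_mul' (p F : Poly N) (k : ℕ) : homogeneousComponent k (p * F) =
    ∑ i ∈ Finset.range (p.totalDegree + 1), if i ≤ k then
      homogeneousComponent i p * homogeneousComponent (k - i) F else 0 := by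
  conv_lhs => rw [← sum_homogeneousComponent p, Finset.sum_mul, map_sum]
  refine Finset.sum_congr rfl fun i _ => ?_
  rw [mul_comm, hc_mul F _ (homogeneousComponent_isHomogeneous i p) k]
  split_ifs with h
  · rw [mul_comm]
  · rfl

/-- the ideal of the tangent cone at `v` of the scheme with ideal `A`, in the coordinates centred
at `v` -/
noncomputable def tcone (A : Ideal (Poly N)) (v : Fin (N + 1) → ℂ) : Ideal (Poly N) where
  carrier := {F | ∀ k, aeval (xi v) (homogeneousComponent k F) ∈ A ⊔ vecIdeal v ^ (k + 1)}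
  add_mem' := by
    intro a b ha hb k
    rw [map_add, map_add]
    exact Ideal.add_mem _ (ha k) (hb k)
  zero_mem' := by
    intro k
    rw [map_zero, map_zero]
    exact Ideal.zero_mem _
  smul_mem' := by
    intro p F hF k
    rw [smul_eq_mul, hc_mul', map_sum]
    refine Ideal.sum_mem _ fun i _ => ?_
    split_ifs with h
    · rw [map_mul]
      obtain ⟨a, ha, m, hm, he⟩ := Submodule.mem_sup.1 (hF (k - i))
      rw [← he, mul_add]
      refine Ideal.add_mem _ (Ideal.mul_mem_left _ _ (Ideal.mem_sup_left ha))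
        (Ideal.mem_sup_right ?_)
      have h1 := Ideal.mul_mem_mul
        (aeval_xi_mem v (homogeneousComponent_isHomogeneous i p)) hm
      rw [← pow_add] at h1
      have h2 : i + (k - i + 1) = k + 1 := by omega
      rwa [h2] at h1
    · rw [map_zero]
      exact Ideal.zero_mem _

theorem mem_tcone {A : Ideal (Poly N)} {v : Fin (N + 1) → ℂ} {F : Poly N} :
    F ∈ tcone A v ↔
      ∀ k, aeval (xi v) (homogeneousComponent k F) ∈ A ⊔ vecIdeal v ^ (k + 1) := Iff.rfl

theorem mem_tcone_hom {A : Ideal (Poly N)} {v : Fin (N + 1) → ℂ} {F : Poly N} {k : ℕ}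
    (hF : F.IsHomogeneous k) : F ∈ tcone A v ↔ aeval (xi v) F ∈ A ⊔ vecIdeal v ^ (k + 1) := by
  rw [mem_tcone]
  constructor
  · intro h
    have := h k
    rwa [homogeneousComponent_of_mem hF, if_pos rfl] at this
  · intro h j
    rw [homogeneousComponent_of_mem hF]
    split_ifs with hj
    · rwa [hj]
    · rw [map_zero]; exact Ideal.zero_mem _

theorem homog_tcone (A : Ideal (Poly N)) (v : Fin (N + 1) → ℂ) : Homog (tcone A v) := by
  intro F hF k
  rw [mem_tcone_hom (homogeneousComponent_isHomogeneous k F)]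
  exact hF k

/-- the Hilbert function of the tangent cone -/
theorem finrank_jets_succ (A : Ideal (Poly N)) (v : Fin (N + 1) → ℂ) (k : ℕ) :
    Module.finrank ℂ (Poly N ⧸ (A ⊔ vecIdeal v ^ (k + 1))) =
      Module.finrank ℂ (Poly N ⧸ (A ⊔ vecIdeal v ^ k)) + hilb (tcone A v) k := by
  have hf1 : Module.Finite ℂ (Poly N ⧸ (A ⊔ vecIdeal v ^ (k + 1))) :=
    finite_quot (v := v) (s := k + 1) le_sup_right
  have hf2 : Module.Finite ℂ (Poly N ⧸ (A ⊔ vecIdeal v ^ k)) :=
    finite_quot (v := v) (s := k) le_sup_right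
  have hle : A ⊔ vecIdeal v ^ (k + 1) ≤ A ⊔ vecIdeal v ^ k :=
    sup_le_sup_left (Ideal.pow_le_pow_right (Nat.le_succ k)) A
  let g : (Poly N ⧸ (A ⊔ vecIdeal v ^ (k + 1))) →ₗ[ℂ] (Poly N ⧸ (A ⊔ vecIdeal v ^ k)) :=
    (Ideal.Quotient.factorₐ ℂ hle).toLinearMap
  have hgapp : ∀ a, g (Ideal.Quotient.mk _ a) = Ideal.Quotient.mk _ a := fun a => rfl
  have hgs : Function.Surjective g := Ideal.Quotient.factor_surjective hle
  let φ : homogeneousSubmodule (Fin (N + 1)) ℂ k →ₗ[ℂ]
      (Poly N ⧸ (A ⊔ vecIdeal v ^ (k + 1))) :=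
    ((Ideal.Quotient.mkₐ ℂ (A ⊔ vecIdeal v ^ (k + 1))).toLinearMap.comp
      (aeval (xi v) : Poly N →ₐ[ℂ] Poly N).toLinearMap).comp (Submodule.subtype _)
  have hφ : ∀ a, φ a = Ideal.Quotient.mk _ (aeval (xi v) a.1) := fun a => rfl
  let ψ : homogeneousSubmodule (Fin (N + 1)) ℂ k →ₗ[ℂ] (Poly N ⧸ tcone A v) :=
    (Ideal.Quotient.mkₐ ℂ (tcone A v)).toLinearMap.comp (Submodule.subtype _)
  have hψ : ∀ a, ψ a = Ideal.Quotient.mk _ a.1 := fun a => rfl
  have hker : LinearMap.ker φ = LinearMap.ker ψ := by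
    ext a
    rw [LinearMap.mem_ker, LinearMap.mem_ker, hφ, hψ, Ideal.Quotient.eq_zero_iff_mem,
      Ideal.Quotient.eq_zero_iff_mem]
    exact (mem_tcone_hom a.2).symm
  have hrange : LinearMap.range ψ = (homogeneousSubmodule (Fin (N + 1)) ℂ k).map
      (Ideal.Quotient.mkₐ ℂ (tcone A v)).toLinearMap := by
    rw [LinearMap.range_comp, Submodule.range_subtype]
  have h1 := LinearMap.finrank_range_add_finrank_ker g
  rw [LinearMap.range_eq_top.2 hgs, finrank_top] at h1
  have hkerg : LinearMap.ker g = LinearMap.range φ := by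
    apply le_antisymm
    · intro x hx
      obtain ⟨f, rfl⟩ := Ideal.Quotient.mk_surjective x
      rw [LinearMap.mem_ker, hgapp, Ideal.Quotient.eq_zero_iff_mem] at hx
      obtain ⟨a, ha, m, hm, rfl⟩ := Submodule.mem_sup.1 hx
      obtain ⟨g', hg', h⟩ := exists_form v k m hm
      refine ⟨⟨g', hg'⟩, ?_⟩
      rw [hφ, Ideal.Quotient.eq]
      have : aeval (xi v) g' - (a + m) = -a + -(m - aeval (xi v) g') := by ring
      rw [this]
      exact Ideal.add_mem _ (neg_mem (Ideal.mem_sup_left ha)) (neg_mem (Ideal.mem_sup_right h))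
    · rintro _ ⟨a, rfl⟩
      rw [LinearMap.mem_ker, hφ, hgapp, Ideal.Quotient.eq_zero_iff_mem]
      exact Ideal.mem_sup_right (aeval_xi_mem v a.2)
  have h2 := LinearMap.finrank_range_add_finrank_ker φ
  have h3 := LinearMap.finrank_range_add_finrank_ker ψ
  rw [hker] at h2
  rw [hkerg] at h1
  have h4 : hilb (tcone A v) k = Module.finrank ℂ (LinearMap.range ψ) := by
    rw [hrange, hilb]
  rw [h4]
  omega

end Pool.Agent.Lib.MP_ed661f_ag.S.Up
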