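import Pool.Agent.Lib.MP_ed661f_ag.S.Up.Cone

/-!
A homogeneous ideal whose Hilbert function is bounded on average has an eventually constant
Hilbert function.
-/

set_option autoImplicit false
set_option synthInstance.maxHeartbeats 400000
set_option maxHeartbeats 4000000

open MvPolynomial Filter
open scoped ENNReal

namespace Pool.Agent.Lib.MP_ed661f_ag.S.Up

open Pool.Agent.Lib.MP_ed661f_ag.H

variable {N : ℕ}

theorem homog_sup_span {T : Ideal (Poly N)} (hT : Homog T) {r : ℕ} {y : Fin r → Poly N}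
    (hy : ∀ i, (y i).IsHomogeneous 1) : Homog (T ⊔ Ideal.span (Set.range y)) := by
  have hspan : ∀ b ∈ Ideal.span (Set.range y), ∀ k,
      homogeneousComponent k b ∈ Ideal.span (Set.range y) := by
    intro b hb
    induction hb using Submodule.span_induction with
    | mem x hx =>
      obtain ⟨i, rfl⟩ := hx
      intro k
      rw [homogeneousComponent_of_mem (hy i)]
      split_ifs
      · exact Ideal.subset_span ⟨i, rfl⟩
      · exact Ideal.zero_mem _
    | zero => intro k; rw [map_zero]; exact Ideal.zero_mem _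
    | add x y _ _ hx hy => intro k; rw [map_add]; exact Ideal.add_mem _ (hx k) (hy k)
    | smul p x _ hx =>
      intro k
      rw [smul_eq_mul, hc_mul']
      refine Ideal.sum_mem _ fun i _ => ?_
      split_ifs
      · exact Ideal.mul_mem_left _ _ (hx _)
      · exact Ideal.zero_mem _
  intro F hF k
  obtain ⟨a, ha, b, hb, rfl⟩ := Submodule.mem_sup.1 hF
  rw [map_add]
  exact Ideal.add_mem _ (Ideal.mem_sup_left (hT a ha k)) (Ideal.mem_sup_right (hspan b hb k))

theorem aeval_sub_mem {r : ℕ} (y : Fin r → Poly N) (c : MvPolynomial (Fin r) ℂ) :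
    aeval y c - C (MvPolynomial.constantCoeff c) ∈ Ideal.span (Set.range y) := by
  induction c using MvPolynomial.induction_on with
  | C a => simp
  | add p q hp hq =>
    have : aeval y (p + q) - C (constantCoeff (p + q)) =
        (aeval y p - C (constantCoeff p)) + (aeval y q - C (constantCoeff q)) := by
      simp only [map_add]; ring
    rw [this]
    exact Ideal.add_mem _ hp hq
  | mul_X p i hp =>
    have : aeval y (p * X i) - C (constantCoeff (p * X i)) = aeval y p * y i := by
      simp
    rw [this]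
    exact Ideal.mul_mem_left _ _ (Ideal.subset_span ⟨i, rfl⟩)

theorem exists_gen {T : Ideal (Poly N)} (hT : Homog T) {r : ℕ} {y : Fin r → Poly N}
    (hy : ∀ i, (y i).IsHomogeneous 1) (hfin : (proj T y).toRingHom.Finite) :
    ∃ t0 : ℕ, ∀ k, t0 < k → ∀ g : Poly N, g.IsHomogeneous k →
      g ∈ T ⊔ Ideal.span (Set.range y) := by
  classical
  let inst : Module (MvPolynomial (Fin r) ℂ) (Poly N ⧸ T) :=
    @Algebra.toModule _ _ _ _ (proj T y).toRingHom.toAlgebra
  have hf : Module.Finite (MvPolynomial (Fin r) ℂ) (Poly N ⧸ T) := hfin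
  have hsm : ∀ (c : MvPolynomial (Fin r) ℂ) (x : Poly N ⧸ T), c • x = proj T y c * x :=
    fun c x => rfl
  obtain ⟨s, hs⟩ := hf.fg_top
  choose E hE using (Ideal.Quotient.mk_surjective (I := T))
  refine ⟨s.sup fun x => (E x).totalDegree, fun k hk g hg => ?_⟩
  set t0 := s.sup fun x => (E x).totalDegree with ht0
  have key : ∀ x : Poly N ⧸ T, ∃ e w : Poly N, e.totalDegree ≤ t0 ∧
      w ∈ T ⊔ Ideal.span (Set.range y) ∧ x = Ideal.Quotient.mk T (e + w) := by
    intro x
    have hx : x ∈ Submodule.span (MvPolynomial (Fin r) ℂ) (s : Set (Poly N ⧸ T)) :=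
      hs ▸ Submodule.mem_top
    induction hx using Submodule.span_induction with
    | mem x hx =>
      refine ⟨E x, 0, ?_, Ideal.zero_mem _, by rw [add_zero, hE]⟩
      exact Finset.le_sup (f := fun x => (E x).totalDegree) hx
    | zero => exact ⟨0, 0, by simp, Ideal.zero_mem _, by simp⟩
    | add a b _ _ ha hb =>
      obtain ⟨e, w, h1, h2, rfl⟩ := ha
      obtain ⟨e', w', h1', h2', rfl⟩ := hb
      refine ⟨e + e', w + w', (totalDegree_add _ _).trans (max_le h1 h1'),
        Ideal.add_mem _ h2 h2', ?_⟩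
      rw [← map_add]
      congr 1
      ring
    | smul c a _ ha =>
      obtain ⟨e, w, h1, h2, rfl⟩ := ha
      refine ⟨C (constantCoeff c) * e, (aeval y c - C (constantCoeff c)) * e + aeval y c * w,
        ?_, ?_, ?_⟩
      · refine (totalDegree_mul _ _).trans ?_
        rw [totalDegree_C, zero_add]
        exact h1
      · refine Ideal.add_mem _ (Ideal.mem_sup_right ?_) (Ideal.mul_mem_left _ _ h2)
        exact Ideal.mul_mem_right _ _ (aeval_sub_mem y c)
      · rw [hsm]
        have : proj T y c = Ideal.Quotient.mk T (aeval y c) := by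
          exact (mk_aeval T y c).symm
        rw [this, ← map_mul]
        congr 1
        ring
  obtain ⟨e, w, h1, h2, h3⟩ := key (Ideal.Quotient.mk T g)
  rw [Ideal.Quotient.eq] at h3
  have h4 : g - e ∈ T ⊔ Ideal.span (Set.range y) := by
    have : g - e = (g - (e + w)) + w := by ring
    rw [this]
    exact Ideal.add_mem _ (Ideal.mem_sup_left h3) h2
  have h5 := homog_sup_span hT hy _ h4 k
  rw [map_sub, homogeneousComponent_of_mem hg, if_pos rfl,
    homogeneousComponent_eq_zero k e (lt_of_le_of_lt h1 hk), sub_zero] at h5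
  exact h5

theorem hilb_zero_of {T : Ideal (Poly N)} {k : ℕ} (h : ∀ g : Poly N, g.IsHomogeneous k → g ∈ T) :
    hilb T k = 0 := by
  rw [hilb]
  have : (homogeneousSubmodule (Fin (N + 1)) ℂ k).map (Ideal.Quotient.mkₐ ℂ T).toLinearMap = ⊥ := by
    rw [eq_bot_iff]
    rintro _ ⟨g, hg, rfl⟩
    rw [Submodule.mem_bot]
    exact Ideal.Quotient.eq_zero_iff_mem.2 (h g hg)
  rw [this, finrank_bot]

theorem finite_forms_map (T : Ideal (Poly N)) (k : ℕ) :
    Module.Finite ℂ ((homogeneousSubmodule (Fin (N + 1)) ℂ k).map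
      (Ideal.Quotient.mkₐ ℂ T).toLinearMap) := inferInstance

theorem hilb_succ_le {T : Ideal (Poly N)} (hT : Homog T) {y : Fin 1 → Poly N}
    (hy : ∀ i, (y i).IsHomogeneous 1) {k : ℕ}
    (h : ∀ g : Poly N, g.IsHomogeneous (k + 1) → g ∈ T ⊔ Ideal.span (Set.range y)) :
    hilb T (k + 1) ≤ hilb T k := by
  rw [hilb, hilb]
  set W := (homogeneousSubmodule (Fin (N + 1)) ℂ k).map (Ideal.Quotient.mkₐ ℂ T).toLinearMap
  have hle : (homogeneousSubmodule (Fin (N + 1)) ℂ (k + 1)).map
      (Ideal.Quotient.mkₐ ℂ T).toLinearMap ≤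
        W.map (LinearMap.mulLeft ℂ (Ideal.Quotient.mk T (y 0))) := by
    rintro _ ⟨g, hg, rfl⟩
    obtain ⟨a, ha, b, hb, hab⟩ := Submodule.mem_sup.1 (h g hg)
    have hr : Set.range y = {y 0} := by
      ext z
      simp only [Set.mem_range, Set.mem_singleton_iff]
      constructor
      · rintro ⟨i, rfl⟩; rw [Subsingleton.elim i 0]
      · rintro rfl; exact ⟨0, rfl⟩
    rw [hr] at hb
    obtain ⟨c, rfl⟩ := Ideal.mem_span_singleton'.1 hb
    refine ⟨Ideal.Quotient.mk T (homogeneousComponent k c),
      ⟨_, homogeneousComponent_isHomogeneous k c, rfl⟩, ?_⟩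
    have h1 : g = homogeneousComponent (k + 1) a + homogeneousComponent k c * y 0 := by
      have h2 := congrArg (homogeneousComponent (k + 1)) hab
      rw [map_add, hc_mul c _ (hy 0) (k + 1), if_pos (by omega), Nat.add_sub_cancel,
        homogeneousComponent_of_mem hg, if_pos rfl] at h2
      exact h2.symm
    change Ideal.Quotient.mk T (y 0) * Ideal.Quotient.mk T (homogeneousComponent k c) =
      Ideal.Quotient.mk T g
    rw [h1, map_add, Ideal.Quotient.eq_zero_iff_mem.2 (hT a ha (k + 1)), zero_add, map_mul,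
      mul_comm]
  exact (Submodule.finrank_mono hle).trans (Submodule.finrank_map_le _ _)

theorem eventually_const_of_le {u : ℕ → ℕ} {t0 : ℕ} (h : ∀ k, t0 ≤ k → u (k + 1) ≤ u k) :
    ∃ e t1, ∀ k, t1 ≤ k → u k = e := by
  classical
  have hex : ∃ e, ∃ k, t0 ≤ k ∧ u k = e := ⟨u t0, t0, le_rfl, rfl⟩
  obtain ⟨k1, hk1, hk1'⟩ := Nat.find_spec hex
  refine ⟨Nat.find hex, k1, fun k hk => ?_⟩
  have hmono : ∀ j, u (k1 + j) ≤ u k1 := by
    intro j
    induction j with
    | zero => exact le_rfl
    | succ j ih => exact (h (k1 + j) (by omega)).trans ih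
  apply le_antisymm
  · have := hmono (k - k1)
    rw [Nat.add_sub_cancel' hk, hk1'] at this
    exact this
  · exact Nat.find_min' hex ⟨k, by omega, rfl⟩

theorem hilb_eventually_const {T : Ideal (Poly N)} (hT : Homog T) {C : ℕ}
    (hC : ∀ t, ∑ k ∈ Finset.range t, hilb T k ≤ C * t + C) :
    ∃ e t1 : ℕ, ∀ k, t1 ≤ k → hilb T k = e := by
  by_cases htop : T = ⊤
  · refine ⟨0, 0, fun k _ => hilb_zero_of fun g _ => ?_⟩
    rw [htop]; exact Submodule.mem_top
  obtain ⟨r, y, h1, h2, h3⟩ := exists_noether_aux htop hT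
  have hr : r ≤ 1 := by
    by_contra hr
    have hlow : ∀ k, k + 1 ≤ hilb T k := by
      intro k
      refine le_trans ?_ (le_hilb h1 h2 k)
      rw [finrank_forms]
      calc k + 1 = (k + 1).choose k := (Nat.choose_succ_self_right k).symm
        _ ≤ (r + k - 1).choose k := Nat.choose_le_choose k (by omega)
    have h4 : ∀ t, t * (t + 1) ≤ 2 * ∑ k ∈ Finset.range t, hilb T k := by
      intro t
      induction t with
      | zero => simp
      | succ t ih =>
        rw [Finset.sum_range_succ]
        have := hlow t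
        nlinarith
    have h5 := h4 (2 * C + 2)
    have h6 := hC (2 * C + 2)
    nlinarith
  obtain ⟨t0, ht0⟩ := exists_gen hT h1 h3
  interval_cases r
  · refine ⟨0, t0 + 1, fun k hk => hilb_zero_of fun g hg => ?_⟩
    have := ht0 k (by omega) g hg
    rwa [Set.range_eq_empty, Ideal.span_empty, sup_bot_eq] at this
  · refine eventually_const_of_le (t0 := t0) fun k hk => ?_
    exact hilb_succ_le hT h1 fun g hg => ht0 (k + 1) (by omega) g hg

end Pool.Agent.Lib.MP_ed661f_ag.S.Up
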