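import Pool.Agent.Lib.MP_ed661f_ag.H.Slice
import Pool.Agent.Lib.MP_ed661f_ag.H.HilbMul
import Pool.Agent.Lib.MP_ed661f_ag.H.QDefs

/-!
Devissage: an inequality between the growth of the rings of jets and the growth of the Hilbert
function which holds for homogeneous prime ideals holds for all homogeneous ideals.
-/

set_option autoImplicit false

open MvPolynomial

namespace Pool.Agent.Lib.MP_ed661f_ag.S.Up

open Pool.Agent.Lib.MP_ed661f_ag.H

variable {N : ℕ}

theorem component_mul {a y : Poly N} {δ : ℕ} (hy : y.IsHomogeneous δ) (k : ℕ) :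
    homogeneousComponent (k + δ) (a * y) = homogeneousComponent k a * y := by
  have h1 : a * y = ∑ j ∈ Finset.range (a.totalDegree + 1), homogeneousComponent j a * y := by
    rw [← Finset.sum_mul, sum_homogeneousComponent]
  have h2 : ∀ j, homogeneousComponent (k + δ) (homogeneousComponent j a * y) =
      if k = j then homogeneousComponent k a * y else 0 := by
    intro j
    rw [homogeneousComponent_of_mem ((homogeneousComponent_isHomogeneous j a).mul hy)]
    by_cases hkj : k = j
    · rw [if_pos hkj, if_pos (by rw [hkj]), hkj]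
    · rw [if_neg hkj, if_neg (by omega)]
  rw [h1, map_sum, Finset.sum_congr rfl fun j _ => h2 j, Finset.sum_ite_eq]
  split_ifs with h
  · rfl
  · rw [Finset.mem_range, not_lt] at h
    rw [homogeneousComponent_eq_zero _ _ (by omega), zero_mul]

theorem component_mul_lt {a y : Poly N} {δ : ℕ} (hy : y.IsHomogeneous δ) {k : ℕ} (hk : k < δ) :
    homogeneousComponent k (a * y) = 0 := by
  have h1 : a * y = ∑ j ∈ Finset.range (a.totalDegree + 1), homogeneousComponent j a * y := by
    rw [← Finset.sum_mul, sum_homogeneousComponent]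
  rw [h1, map_sum]
  refine Finset.sum_eq_zero fun j _ => ?_
  rw [homogeneousComponent_of_mem ((homogeneousComponent_isHomogeneous j a).mul hy),
    if_neg (by omega)]

/-- the inequality between the growth of the rings of jets and of the Hilbert function -/
def WD {ι : Type*} [Fintype ι] (r : ι → ℝ) (lm : ι → ℕ → ℕ) (h : ℕ → ℕ) : Prop :=
  ∀ ε : ℝ, 0 < ε → ∃ (M : ι → ℝ) (D C : ℝ), ∑ i, r i * M i ≤ D + ε ∧
    (∀ i s, (lm i s : ℝ) ≤ M i * s + C) ∧ ∀ k, D * k - C ≤ h k

theorem WD.of_bounded {ι : Type*} [Fintype ι] {r : ι → ℝ} {lm : ι → ℕ → ℕ} {h : ℕ → ℕ}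
    (hb : ∀ i, ∃ c, ∀ s, lm i s ≤ c) : WD r lm h := by
  intro ε hε
  choose c hc using hb
  refine ⟨fun _ => 0, 0, ∑ i, (c i : ℝ), ?_, ?_, ?_⟩
  · simp only [mul_zero, Finset.sum_const_zero, zero_add]
    exact hε.le
  · intro i s
    rw [zero_mul, zero_add]
    calc (lm i s : ℝ) ≤ c i := by exact_mod_cast hc i s
      _ ≤ ∑ i, (c i : ℝ) := Finset.single_le_sum (f := fun i => (c i : ℝ))
          (fun i _ => Nat.cast_nonneg _) (Finset.mem_univ i)
  · intro k
    have : (0 : ℝ) ≤ ∑ i, (c i : ℝ) := Finset.sum_nonneg fun i _ => Nat.cast_nonneg _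
    have h2 : (0 : ℝ) ≤ h k := Nat.cast_nonneg _
    linarith

/-- the inequality adds up in short exact sequences -/
theorem WD.add {ι : Type*} [Fintype ι] {r : ι → ℝ} {lm lm' lm'' : ι → ℕ → ℕ} {h h' h'' : ℕ → ℕ}
    {δ : ℕ} (h1 : WD r lm' h') (h2 : WD r lm'' h'')
    (hl : ∀ i s, lm i s ≤ lm' i s + lm'' i s) (hh1 : ∀ k, h' k ≤ h k)
    (hh : ∀ k, h' (k + δ) + h'' k ≤ h (k + δ)) : WD r lm h := by
  intro ε hε
  obtain ⟨M', D', C', a1, a2, a3⟩ := h1 (ε / 2) (by linarith)
  obtain ⟨M'', D'', C'', b1, b2, b3⟩ := h2 (ε / 2) (by linarith)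
  set B : ℝ := |C'| + |C''| + |D''| * δ with hB
  have hB1 : 0 ≤ |D''| * (δ : ℝ) := by positivity
  refine ⟨fun i => M' i + M'' i, D' + D'', B, ?_, ?_, ?_⟩
  · simp only [mul_add, Finset.sum_add_distrib]
    linarith
  · intro i s
    have e1 : (lm i s : ℝ) ≤ lm' i s + lm'' i s := by exact_mod_cast hl i s
    have e2 := a2 i s
    have e3 := b2 i s
    have e4 := le_abs_self C'
    have e5 := le_abs_self C''
    rw [add_mul]
    linarith
  · intro k
    have e4 := le_abs_self C'
    have e5 := le_abs_self C''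
    rcases le_total δ k with hk | hk
    · obtain ⟨j, rfl⟩ := Nat.exists_eq_add_of_le' hk
      have e1 : (h' (j + δ) : ℝ) + h'' j ≤ h (j + δ) := by exact_mod_cast hh j
      have e2 := a3 (j + δ)
      have e3 := b3 j
      have e6 : D'' * (δ : ℝ) ≤ |D''| * δ := by
        gcongr
        exact le_abs_self _
      push_cast at e2 ⊢
      rw [add_mul D' D'', mul_add D'' (j : ℝ)]
      linarith
    · have e1 : (h' k : ℝ) ≤ h k := by exact_mod_cast hh1 k
      have e2 := a3 k
      have e6 : D'' * (k : ℝ) ≤ |D''| * δ := by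
        calc D'' * (k : ℝ) ≤ |D''| * k := by gcongr; exact le_abs_self _
          _ ≤ |D''| * δ := by
            have : (k : ℝ) ≤ δ := by exact_mod_cast hk
            gcongr
      have e7 := abs_nonneg C''
      rw [add_mul]
      linarith

/-- the elements which multiply `y` into `J` -/
noncomputable def col (J : Ideal (Poly N)) (y : Poly N) : Ideal (Poly N) :=
  Submodule.comap (LinearMap.toSpanSingleton (Poly N) (Poly N) y) J

theorem mem_col {J : Ideal (Poly N)} {y a : Poly N} : a ∈ col J y ↔ a * y ∈ J := Iff.rfl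

theorem le_col (J : Ideal (Poly N)) (y : Poly N) : J ≤ col J y := fun _ ha =>
  J.mul_mem_right _ ha

theorem homog_col {J : Ideal (Poly N)} (hJ : Homog J) {y : Poly N} {δ : ℕ}
    (hy : y.IsHomogeneous δ) : Homog (col J y) := by
  intro a ha k
  rw [mem_col, ← component_mul hy]
  exact hJ _ ha _

theorem homog_sup_single {J : Ideal (Poly N)} (hJ : Homog J) {y : Poly N} {δ : ℕ}
    (hy : y.IsHomogeneous δ) : Homog (J ⊔ Ideal.span {y}) := by
  intro a ha k
  obtain ⟨b, hb, c, hc, rfl⟩ := Submodule.mem_sup.1 ha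
  obtain ⟨d, rfl⟩ := Ideal.mem_span_singleton'.1 hc
  rw [map_add]
  refine Submodule.add_mem_sup (hJ b hb k) ?_
  rcases lt_or_ge k δ with hk | hk
  · rw [component_mul_lt hy hk]
    exact Ideal.zero_mem _
  · obtain ⟨j, rfl⟩ := Nat.exists_eq_add_of_le' hk
    rw [component_mul hy]
    exact Ideal.mul_mem_left _ _ (Ideal.mem_span_singleton_self y)

/-- a homogeneous proper ideal is prime if it satisfies the condition for forms -/
theorem prime_of_forms {J : Ideal (Poly N)} (hJ : Homog J) (hne : J ≠ ⊤)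
    (h : ∀ (a b : Poly N) (i j : ℕ), a.IsHomogeneous i → b.IsHomogeneous j → a * b ∈ J →
      a ∈ J ∨ b ∈ J) : J.IsPrime := by
  let _ : GradedAlgebra (homogeneousSubmodule (Fin (N + 1)) ℂ) := MvPolynomial.gradedAlgebra
  have hhom : J.IsHomogeneous (homogeneousSubmodule (Fin (N + 1)) ℂ) := by
    intro i a ha
    have h1 := decomposition.decompose'_apply a i
    have h2 := hJ a ha i
    rw [← h1] at h2
    exact h2
  refine hhom.isPrime_of_homogeneous_mem_or_mem hne ?_
  rintro a b ⟨i, ha⟩ ⟨j, hb⟩ hab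
  exact h a b i j ha hb hab

/-- there is a form outside a proper ideal whose colon ideal is prime -/
theorem exists_prime_col {J : Ideal (Poly N)} (hJ : Homog J) (hne : J ≠ ⊤) :
    ∃ (y : Poly N) (δ : ℕ), y.IsHomogeneous δ ∧ y ∉ J ∧ (col J y).IsPrime := by
  let S : Set (Ideal (Poly N)) :=
    {q | ∃ (y : Poly N) (δ : ℕ), y.IsHomogeneous δ ∧ y ∉ J ∧ q = col J y}
  have hS : S.Nonempty := by
    refine ⟨col J 1, 1, 0, isHomogeneous_one _ _, ?_, rfl⟩
    rwa [← Ideal.ne_top_iff_one]
  obtain ⟨q, ⟨y, δ, hy, hyJ, rfl⟩, hmax⟩ :=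
    set_has_maximal_iff_noetherian.2 (inferInstance : IsNoetherian (Poly N) (Poly N)) S hS
  refine ⟨y, δ, hy, hyJ, ?_⟩
  refine prime_of_forms (homog_col hJ hy) ?_ ?_
  · rw [Ideal.ne_top_iff_one, mem_col, one_mul]
    exact hyJ
  · intro a b i j ha hb hab
    by_contra hcon
    push Not at hcon
    obtain ⟨h1, h2⟩ := hcon
    -- the form `b y`
    have h3 : col J y ≤ col J (b * y) := by
      intro c hc
      rw [mem_col] at hc ⊢
      have : c * (b * y) = b * (c * y) := by ring
      rw [this]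
      exact J.mul_mem_left _ hc
    have h4 : a ∈ col J (b * y) := by
      rw [mem_col, ← mul_assoc]
      exact hab
    have h5 : col J y < col J (b * y) := lt_of_le_of_ne h3 fun he => h1 (he ▸ h4)
    exact hmax _ ⟨b * y, j + δ, hb.mul hy, h2, rfl⟩ h5

theorem lam_le_add {J : Ideal (Poly N)} {y : Poly N} {l : Poly N} {v : Fin (N + 1) → ℂ} (s : ℕ) :
    lam J l v s ≤ lam (J ⊔ Ideal.span {y}) l v s + lam (col J y) l v s := by
  unfold lam
  set K := vecIdeal v ^ s with hK
  set A := J ⊔ K ⊔ Ideal.span {l - 1} with hA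
  set A' := J ⊔ Ideal.span {y} ⊔ K ⊔ Ideal.span {l - 1} with hA'
  set A'' := col J y ⊔ K ⊔ Ideal.span {l - 1} with hA''
  have hAA' : A ≤ A' := sup_le_sup_right (sup_le_sup_right le_sup_left _) _
  have hf1 : Module.Finite ℂ (Poly N ⧸ A) :=
    finite_quot (v := v) (s := s) (le_sup_right.trans le_sup_left)
  have hf2 : Module.Finite ℂ (Poly N ⧸ A'') :=
    finite_quot (v := v) (s := s) (le_sup_right.trans le_sup_left)
  have hf3 : Module.Finite ℂ (Poly N ⧸ A') :=
    finite_quot (v := v) (s := s) (le_sup_right.trans le_sup_left)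
  have hmul : ∀ a ∈ A'', y * a ∈ A := by
    intro a ha
    obtain ⟨b, hb, c, hc, rfl⟩ := Submodule.mem_sup.1 ha
    obtain ⟨p, hp, m, hm, rfl⟩ := Submodule.mem_sup.1 hb
    rw [mul_add, mul_add]
    refine A.add_mem (A.add_mem ?_ ?_) ?_
    · refine (le_sup_left.trans le_sup_left : J ≤ A) ?_
      rw [mul_comm]
      exact mem_col.1 hp
    · exact A.mul_mem_left _ ((le_sup_right.trans le_sup_left : K ≤ A) hm)
    · exact A.mul_mem_left _ ((le_sup_right : Ideal.span {l - 1} ≤ A) hc)
  let f0 : Poly N →ₗ[ℂ] (Poly N ⧸ A) :=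
    (Ideal.Quotient.mkₐ ℂ A).toLinearMap.comp (LinearMap.mulLeft ℂ y)
  let f : (Poly N ⧸ A'') →ₗ[ℂ] (Poly N ⧸ A) :=
    (Submodule.liftQ (A''.restrictScalars ℂ) f0 (by
      intro a ha
      rw [LinearMap.mem_ker]
      exact Ideal.Quotient.eq_zero_iff_mem.2 (hmul a ha)))
  have hfapp : ∀ a, f (Ideal.Quotient.mk A'' a) = Ideal.Quotient.mk A (y * a) := fun a => rfl
  let g : (Poly N ⧸ A) →ₗ[ℂ] (Poly N ⧸ A') := (Ideal.Quotient.factorₐ ℂ hAA').toLinearMap
  have hgapp : ∀ a, g (Ideal.Quotient.mk A a) = Ideal.Quotient.mk A' a := fun a => rfl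
  have hgs : Function.Surjective g := Ideal.Quotient.factor_surjective hAA'
  have hker : LinearMap.ker g ≤ LinearMap.range f := by
    intro x hx
    obtain ⟨a, rfl⟩ := Ideal.Quotient.mk_surjective x
    rw [LinearMap.mem_ker, hgapp, Ideal.Quotient.eq_zero_iff_mem] at hx
    have hA3 : A' = A ⊔ Ideal.span {y} := by
      rw [hA', hA]
      ac_rfl
    rw [hA3] at hx
    obtain ⟨b, hb, c, hc, rfl⟩ := Submodule.mem_sup.1 hx
    obtain ⟨d, rfl⟩ := Ideal.mem_span_singleton'.1 hc
    refine ⟨Ideal.Quotient.mk A'' d, ?_⟩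
    rw [hfapp, map_add, Ideal.Quotient.eq_zero_iff_mem.2 hb, zero_add, mul_comm]
  have h1 := LinearMap.finrank_range_add_finrank_ker g
  rw [LinearMap.range_eq_top.2 hgs, finrank_top] at h1
  have h2 : Module.finrank ℂ (LinearMap.ker g) ≤ Module.finrank ℂ (LinearMap.range f) :=
    Submodule.finrank_mono hker
  have h3 : Module.finrank ℂ (LinearMap.range f) ≤ Module.finrank ℂ (Poly N ⧸ A'') :=
    LinearMap.finrank_range_le f
  omega

/-- the classes of the forms of degree `k` -/
private noncomputable def W (J : Ideal (Poly N)) (k : ℕ) : Submodule ℂ (Poly N ⧸ J) :=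
  (homogeneousSubmodule (Fin (N + 1)) ℂ k).map (Ideal.Quotient.mkₐ ℂ J).toLinearMap

private theorem finite_W (J : Ideal (Poly N)) (k : ℕ) : Module.Finite ℂ (W J k) := by
  have := finite_formsN (N := N) k
  unfold W
  infer_instance

private theorem map_W {J J' : Ideal (Poly N)} (h : J ≤ J') (k : ℕ) :
    (W J k).map (Ideal.Quotient.factorₐ ℂ h).toLinearMap = W J' k := by
  unfold W
  rw [← Submodule.map_comp]
  rfl

theorem hilb_add_le {J : Ideal (Poly N)} {y : Poly N} {δ : ℕ} (hy : y.IsHomogeneous δ) (k : ℕ) :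
    hilb (J ⊔ Ideal.span {y}) (k + δ) + hilb (col J y) k ≤ hilb J (k + δ) := by
  have hle : J ≤ J ⊔ Ideal.span {y} := le_sup_left
  set π := (Ideal.Quotient.factorₐ ℂ hle).toLinearMap with hπ
  have hfin := finite_W J (k + δ)
  have hfin' := finite_W (col J y) k
  have h1 := (π.domRestrict (W J (k + δ))).finrank_range_add_finrank_ker
  have h2 : LinearMap.range (π.domRestrict (W J (k + δ))) = W (J ⊔ Ideal.span {y}) (k + δ) := by
    rw [LinearMap.range_domRestrict, hπ, map_W hle]
  -- multiplication by `y`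
  let f0 : Poly N →ₗ[ℂ] (Poly N ⧸ J) :=
    (Ideal.Quotient.mkₐ ℂ J).toLinearMap.comp (LinearMap.mulLeft ℂ y)
  let f : (Poly N ⧸ col J y) →ₗ[ℂ] (Poly N ⧸ J) :=
    (Submodule.liftQ ((col J y).restrictScalars ℂ) f0 (by
      intro a ha
      rw [LinearMap.mem_ker]
      refine Ideal.Quotient.eq_zero_iff_mem.2 ?_
      show y * a ∈ J
      rw [mul_comm]
      exact mem_col.1 ha))
  have hfapp : ∀ a, f (Ideal.Quotient.mk (col J y) a) = Ideal.Quotient.mk J (y * a) := fun a => rfl
  have hfinj : Function.Injective f := by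
    rw [← LinearMap.ker_eq_bot, eq_bot_iff]
    intro x hx
    obtain ⟨a, rfl⟩ := Ideal.Quotient.mk_surjective x
    rw [LinearMap.mem_ker, hfapp, Ideal.Quotient.eq_zero_iff_mem] at hx
    rw [Submodule.mem_bot, Ideal.Quotient.eq_zero_iff_mem, mem_col, mul_comm]
    exact hx
  have hfW : ∀ x ∈ W (col J y) k, f x ∈ W J (k + δ) := by
    rintro x ⟨G, hG, rfl⟩
    refine ⟨y * G, ?_, rfl⟩
    have := hy.mul ((mem_homogeneousSubmodule _ _).1 hG)
    rw [add_comm δ k] at this
    exact this
  have hker : ∀ x : Poly N ⧸ col J y, π (f x) = 0 := by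
    intro x
    obtain ⟨G, rfl⟩ := Ideal.Quotient.mk_surjective x
    rw [hfapp]
    show Ideal.Quotient.mk (J ⊔ Ideal.span {y}) (y * G) = 0
    rw [Ideal.Quotient.eq_zero_iff_mem]
    exact Ideal.mul_mem_right _ _ (Ideal.mem_sup_right (Ideal.mem_span_singleton_self y))
  let g : W (col J y) k →ₗ[ℂ] LinearMap.ker (π.domRestrict (W J (k + δ))) :=
    LinearMap.codRestrict _ (LinearMap.codRestrict _ (f.domRestrict _) fun x => hfW x x.2)
      fun x => hker x
  have hg : Function.Injective g := by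
    intro x x' hxx'
    have h3 : f x = f x' := congrArg (fun z : LinearMap.ker (π.domRestrict (W J (k + δ))) =>
      ((z : W J (k + δ)) : Poly N ⧸ J)) hxx'
    exact Subtype.ext (hfinj h3)
  have h3 := LinearMap.finrank_le_finrank_of_injective hg
  have e1 : hilb (col J y) k = Module.finrank ℂ (W (col J y) k) := rfl
  have e2 : hilb J (k + δ) = Module.finrank ℂ (W J (k + δ)) := rfl
  have e3 : hilb (J ⊔ Ideal.span {y}) (k + δ) =
    Module.finrank ℂ (W (J ⊔ Ideal.span {y}) (k + δ)) := rfl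
  rw [h2] at h1
  omega

/-- **devissage** -/
theorem devissage {n : ℕ} {r : Fin n → ℝ} {l : Poly N} {v : Fin n → Fin (N + 1) → ℂ}
    {A : Ideal (Poly N)}
    (h : ∀ P : Ideal (Poly N), P.IsPrime → Homog P → A ≤ P → WD r (fun i => lam P l (v i)) (hilb P))
    (J : Ideal (Poly N)) (hJ : Homog J) (hA : A ≤ J) : WD r (fun i => lam J l (v i)) (hilb J) := by
  induction J using IsNoetherian.induction with
  | hgt J ih =>
    rcases eq_or_ne J ⊤ with rfl | hne
    · refine WD.of_bounded fun i => ⟨0, fun s => ?_⟩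
      unfold lam
      have h1 : (⊤ : Ideal (Poly N)) ⊔ vecIdeal (v i) ^ s ⊔ Ideal.span {l - 1} = ⊤ := by simp
      rw [h1]
      have : Subsingleton (Poly N ⧸ (⊤ : Ideal (Poly N))) := Ideal.Quotient.subsingleton_iff.2 rfl
      rw [Module.finrank_zero_of_subsingleton]
    · obtain ⟨y, δ, hy, hyJ, hp⟩ := exists_prime_col hJ hne
      have h1 := h (col J y) hp (homog_col hJ hy) (hA.trans (le_col J y))
      have hlt : J < J ⊔ Ideal.span {y} := by
        refine lt_of_le_of_ne le_sup_left fun he => hyJ ?_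
        rw [he]
        exact Ideal.mem_sup_right (Ideal.mem_span_singleton_self y)
      have h2 := ih _ hlt (homog_sup_single hJ hy) (hA.trans le_sup_left)
      exact WD.add h2 h1 (fun i s => lam_le_add s) (fun k => hilb_anti le_sup_left k)
        (fun k => hilb_add_le hy k)

end Pool.Agent.Lib.MP_ed661f_ag.S.Up
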