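import Pool.Agent.Lib.MP_ed661f_ag.S.Up.NefSq
import Pool.Agent.Lib.MP_ed661f_ag.T.CurveDeg

/-!
The Hilbert function of the tangent cone of a surface is linear up to a bounded error.
-/

set_option autoImplicit false

open MvPolynomial

namespace Pool.Agent.Lib.MP_ed661f_ag.S.Up

open Pool.Agent.Lib.MP_ed661f_ag.H

variable {N : ℕ}

theorem hilb_le_add {J : Ideal (Poly N)} (hJ : Homog J) {y : Poly N} {δ : ℕ}
    (hy : y.IsHomogeneous δ) (k : ℕ) :
    hilb J (k + δ) ≤ hilb (J ⊔ Ideal.span {y}) (k + δ) + hilb (col J y) k := by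
  have hle : J ≤ J ⊔ Ideal.span {y} := le_sup_left
  set W1 : Submodule ℂ (Poly N ⧸ J) :=
    (homogeneousSubmodule (Fin (N + 1)) ℂ (k + δ)).map (Ideal.Quotient.mkₐ ℂ J).toLinearMap with hW1
  set W2 : Submodule ℂ (Poly N ⧸ (J ⊔ Ideal.span {y})) :=
    (homogeneousSubmodule (Fin (N + 1)) ℂ (k + δ)).map
      (Ideal.Quotient.mkₐ ℂ (J ⊔ Ideal.span {y})).toLinearMap with hW2
  set W3 : Submodule ℂ (Poly N ⧸ col J y) :=
    (homogeneousSubmodule (Fin (N + 1)) ℂ k).map (Ideal.Quotient.mkₐ ℂ (col J y)).toLinearMap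
    with hW3
  have hfin0 := finite_formsN (N := N) (k + δ)
  have hfin0' := finite_formsN (N := N) k
  have hfin : Module.Finite ℂ W1 := by rw [hW1]; infer_instance
  have hfin2 : Module.Finite ℂ W2 := by rw [hW2]; infer_instance
  have hfin3 : Module.Finite ℂ W3 := by rw [hW3]; infer_instance
  set π := (Ideal.Quotient.factorₐ ℂ hle).toLinearMap with hπ
  have hπW : W1.map π = W2 := by
    rw [hW1, hW2, ← Submodule.map_comp]
    rfl
  have h1 := (π.domRestrict W1).finrank_range_add_finrank_ker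
  have h2 : LinearMap.range (π.domRestrict W1) = W2 := by
    rw [LinearMap.range_domRestrict, hπW]
  -- multiplication by `y`
  let f0 : Poly N →ₗ[ℂ] (Poly N ⧸ J) :=
    (Ideal.Quotient.mkₐ ℂ J).toLinearMap.comp (LinearMap.mulLeft ℂ y)
  let f : (Poly N ⧸ col J y) →ₗ[ℂ] (Poly N ⧸ J) :=
    (Submodule.liftQ ((col J y).restrictScalars ℂ) f0 (by
      intro a ha
      rw [LinearMap.mem_ker]
      refine Ideal.Quotient.eq_zero_iff_mem.2 ?_
      show y * a ∈ J
      rw [mul_comm]
      exact mem_col.1 ha))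
  have hfapp : ∀ a, f (Ideal.Quotient.mk (col J y) a) = Ideal.Quotient.mk J (y * a) := fun a => rfl
  have hfW : ∀ x ∈ W3, f x ∈ W1 := by
    rintro x ⟨G, hG, rfl⟩
    refine ⟨y * G, ?_, rfl⟩
    have := hy.mul ((mem_homogeneousSubmodule _ _).1 hG)
    rw [add_comm δ k] at this
    exact this
  let g : W3 →ₗ[ℂ] W1 := LinearMap.codRestrict _ (f.domRestrict _) fun x => hfW x x.2
  have hker : LinearMap.ker (π.domRestrict W1) ≤ LinearMap.range g := by
    rintro ⟨x, G, hG, rfl⟩ hx
    have h3 : Ideal.Quotient.mk (J ⊔ Ideal.span {y}) G = 0 := hx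
    rw [Ideal.Quotient.eq_zero_iff_mem] at h3
    obtain ⟨b, hb, c, hc, hbc⟩ := Submodule.mem_sup.1 h3
    obtain ⟨c, rfl⟩ := Ideal.mem_span_singleton'.1 hc
    have hGk : homogeneousComponent (k + δ) G = G := by
      rw [homogeneousComponent_of_mem hG, if_pos rfl]
    have h4 : G = homogeneousComponent (k + δ) b + homogeneousComponent k c * y := by
      rw [← component_mul hy, ← map_add, hbc, hGk]
    refine ⟨⟨Ideal.Quotient.mk _ (homogeneousComponent k c),
      ⟨_, homogeneousComponent_isHomogeneous k c, rfl⟩⟩, ?_⟩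
    apply Subtype.ext
    show Ideal.Quotient.mk J (y * homogeneousComponent k c) = Ideal.Quotient.mk J G
    rw [eq_comm, Ideal.Quotient.eq]
    have h5 : G - y * homogeneousComponent k c = homogeneousComponent (k + δ) b := by
      linear_combination h4
    rw [h5]
    exact hJ b hb _
  have h3 : Module.finrank ℂ (LinearMap.ker (π.domRestrict W1)) ≤
      Module.finrank ℂ (LinearMap.range g) := Submodule.finrank_mono hker
  have h4 : Module.finrank ℂ (LinearMap.range g) ≤ Module.finrank ℂ W3 :=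
    LinearMap.finrank_range_le g
  have e1 : hilb (col J y) k = Module.finrank ℂ W3 := rfl
  have e2 : hilb J (k + δ) = Module.finrank ℂ W1 := rfl
  have e3 : hilb (J ⊔ Ideal.span {y}) (k + δ) = Module.finrank ℂ W2 := rfl
  rw [h2] at h1
  omega

/-- linear growth with slope `e`, up to a bounded error -/
def Lin (h : ℕ → ℕ) (e : ℕ) : Prop := ∃ C : ℕ, ∀ k, h k ≤ e * k + C ∧ e * k ≤ h k + C

theorem Lin.add {h h' h'' : ℕ → ℕ} {e' e'' δ : ℕ} (h1 : Lin h' e') (h2 : Lin h'' e'')
    (hh : ∀ k, h (k + δ) = h' (k + δ) + h'' k) : Lin h (e' + e'') := by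
  obtain ⟨C', hC'⟩ := h1
  obtain ⟨C'', hC''⟩ := h2
  refine ⟨C' + C'' + (e' + e'') * δ + ∑ k ∈ Finset.range δ, h k, fun k => ?_⟩
  rcases lt_or_ge k δ with hk | hk
  · have h3 : h k ≤ ∑ k ∈ Finset.range δ, h k :=
      Finset.single_le_sum (f := h) (fun _ _ => Nat.zero_le _) (Finset.mem_range.2 hk)
    have h4 : (e' + e'') * k ≤ (e' + e'') * δ := Nat.mul_le_mul_left _ hk.le
    constructor <;> omega
  · obtain ⟨j, rfl⟩ := Nat.exists_eq_add_of_le' hk
    have h3 := hh j
    obtain ⟨h4, h4'⟩ := hC' (j + δ)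
    obtain ⟨h5, h5'⟩ := hC'' j
    have h6 : (e' + e'') * (j + δ) = e' * (j + δ) + e'' * j + e'' * δ := by ring
    have h7 : (e' + e'') * δ = e' * δ + e'' * δ := by ring
    have h8 : 0 ≤ ∑ k ∈ Finset.range δ, h k := Nat.zero_le _
    rw [h3, h6, h7]
    constructor <;> omega

/-- homogeneous primes of at most quadratic growth on average -/
theorem prime_lin {P : Ideal (Poly N)} (hP : P.IsPrime) (hh : Homog P) {C : ℕ}
    (hC : ∀ t, ∑ k ∈ Finset.range t, hilb P k ≤ C * (t + 1) ^ 2) : ∃ e, Lin (hilb P) e := by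
  obtain ⟨r, y, h1, h2, h3⟩ := exists_noether_aux hP.ne_top hh
  have hr : r ≤ 2 := by
    by_contra hcon
    have h4 : ∀ k, (k + 1) * (k + 2) ≤ 2 * hilb P k := by
      intro k
      have h5 := le_hilb h1 h2 k
      have h7 : Module.finrank ℂ (homogeneousSubmodule (Fin 3) ℂ k) ≤
          Module.finrank ℂ (homogeneousSubmodule (Fin r) ℂ k) := by
        rw [finrank_forms, finrank_forms]
        exact Nat.choose_le_choose _ (by omega)
      have h8 := finrank_forms_three k
      omega
    have h5 : ∀ t, t * (t + 1) * (t + 2) ≤ 6 * ∑ k ∈ Finset.range t, hilb P k := by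
      intro t
      induction t with
      | zero => simp
      | succ t ih =>
        rw [Finset.sum_range_succ]
        have := h4 t
        nlinarith
    have h6 := h5 (6 * C + 1)
    have h7 := hC (6 * C + 1)
    nlinarith
  interval_cases r
  · -- a finite-dimensional quotient ring
    have h5 : ((proj P y).toRingHom.comp (MvPolynomial.C : ℂ →+* MvPolynomial (Fin 0) ℂ)).Finite :=
      h3.comp (RingHom.Finite.of_surjective _ (C_surjective _))
    have h6 : (proj P y).toRingHom.comp (MvPolynomial.C : ℂ →+* MvPolynomial (Fin 0) ℂ) =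
        algebraMap ℂ (Poly N ⧸ P) := by
      ext c
      exact (proj P y).commutes c
    rw [h6] at h5
    have h7 : Module.Finite ℂ (Poly N ⧸ P) := RingHom.finite_algebraMap.1 h5
    refine ⟨0, Module.finrank ℂ (Poly N ⧸ P), fun k => ?_⟩
    rw [zero_mul, zero_add]
    exact ⟨Submodule.finrank_le _, Nat.zero_le _⟩
  · obtain ⟨d, e, a, q, b, -, he, -, hq, hqb, hF⟩ := exists_basis hP hh h1 h2 h3
    refine ⟨0, d, fun k => ?_⟩
    rw [zero_mul, zero_add]
    refine ⟨?_, Nat.zero_le _⟩
    have h5 := hilb_le hP hh le_rfl h1 h2 he hq hqb hF k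
    refine h5.trans (le_of_eq ?_)
    rw [Finset.sum_const, Finset.card_univ, Fintype.card_fin, finrank_forms]
    simp
  · obtain ⟨d, e, a, q, b, -, he, hind, hq, hqb, hF⟩ := exists_basis hP hh h1 h2 h3
    set A : ℕ := Finset.univ.sup a with hA
    have hAl : ∀ l, a l ≤ A := fun l => Finset.le_sup (Finset.mem_univ l)
    refine ⟨d, d * (b + 1) + d * A, fun k => ⟨?_, ?_⟩⟩
    · have h5 := hilb_le hP hh (by norm_num) h1 h2 he hq hqb hF k
      rw [Finset.sum_const, Finset.card_univ, Fintype.card_fin, smul_eq_mul,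
        finrank_forms_two] at h5
      nlinarith [Nat.zero_le (d * A)]
    · rcases lt_or_ge k A with hk | hk
      · have h5 : d * k ≤ d * A := Nat.mul_le_mul_left _ hk.le
        nlinarith [Nat.zero_le (d * (b + 1)), Nat.zero_le (hilb P k)]
      · have h5 := T.sum_le_hilb' h1 he hind (k := k) fun l => (hAl l).trans hk
        have h6 : d * (k - A) ≤ hilb P k := by
          refine le_trans ?_ h5
          calc d * (k - A) = ∑ _l : Fin d, (k - A) := by simp
            _ ≤ _ := by
              refine Finset.sum_le_sum fun l _ => ?_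
              rw [finrank_forms_two]
              have := hAl l
              omega
        obtain ⟨j, rfl⟩ := Nat.exists_eq_add_of_le' hk
        rw [Nat.add_sub_cancel] at h6
        nlinarith [Nat.zero_le (d * (b + 1))]

/-- homogeneous ideals of at most quadratic growth on average have linear growth -/
theorem exists_lin {T : Ideal (Poly N)} {C : ℕ}
    (hC : ∀ t, ∑ k ∈ Finset.range t, hilb T k ≤ C * (t + 1) ^ 2) (J : Ideal (Poly N))
    (hJ : Homog J) (hTJ : T ≤ J) : ∃ e, Lin (hilb J) e := by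
  induction J using IsNoetherian.induction with
  | hgt J ih =>
    rcases eq_or_ne J ⊤ with rfl | hne
    · refine ⟨0, 0, fun k => ?_⟩
      rw [hilb_zero_of fun g _ => Submodule.mem_top]
      simp
    · obtain ⟨y, δ, hy, hyJ, hp⟩ := exists_prime_col hJ hne
      have hT' : T ≤ col J y := hTJ.trans (le_col J y)
      obtain ⟨e'', h1⟩ := prime_lin hp (homog_col hJ hy) (C := C) fun t =>
        (Finset.sum_le_sum fun k _ => hilb_anti hT' k).trans (hC t)
      have hlt : J < J ⊔ Ideal.span {y} := by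
        refine lt_of_le_of_ne le_sup_left fun he => hyJ ?_
        rw [he]
        exact Ideal.mem_sup_right (Ideal.mem_span_singleton_self y)
      obtain ⟨e', h2⟩ := ih _ hlt (homog_sup_single hJ hy) (hTJ.trans le_sup_left)
      exact ⟨e' + e'', h2.add h1 fun k => le_antisymm (hilb_le_add hJ hy k) (hilb_add_le hy k)⟩

/-- every point of a surface has a multiplicity, possibly zero -/
theorem exists_HS {I : Ideal (Poly N)} (hI : IsSurface I) {l : Poly N} (hl : l.IsHomogeneous 1)
    {v : Fin (N + 1) → ℂ} (hlv : eval v l = 1) : ∃ e C : ℕ, HS I l v e ∧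
      ∀ s, lam I l v s ≤ e * s ^ 2 + C * s := by
  obtain ⟨d, A, hd1, -, hup, -⟩ := surf_growth hI
  set T := tcone (I ⊔ Ideal.span {l - 1}) v with hT
  have hlam := lam_eq_sum I l v
  have hC : ∀ t, ∑ k ∈ Finset.range t, hilb T k ≤ d * (A + 1) ^ 2 * (t + 1) ^ 2 := by
    intro t
    rw [← hlam t]
    have h1 := lam_succ_le_hilb I hl v t
    have h2 := hup t
    have h3 : 2 * hilb I t ≤ d * (t + A) ^ 2 := by exact_mod_cast h2
    have h4 : lam I l v t ≤ lam I l v (t + 1) := lam_mono (Nat.le_succ t)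
    have h5 : (t + A) ^ 2 ≤ (A + 1) ^ 2 * (t + 1) ^ 2 := by
      rw [← mul_pow]
      exact Nat.pow_le_pow_left (by nlinarith [Nat.zero_le (A * t)]) 2
    have h6 : d * (t + A) ^ 2 ≤ d * ((A + 1) ^ 2 * (t + 1) ^ 2) := Nat.mul_le_mul_left d h5
    nlinarith
  obtain ⟨e, C, h⟩ := exists_lin hC T (homog_tcone _ _) le_rfl
  have hupper : ∀ s, 2 * lam I l v s ≤ e * s ^ 2 + 2 * C * s := by
    intro s
    rw [hlam]
    induction s with
    | zero => simp
    | succ s ih =>
      rw [Finset.sum_range_succ]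
      have := (h s).1
      nlinarith
  refine ⟨e, C, ⟨hlv, ⟨C, Nat.cast_nonneg _, fun w => ?_⟩, fun w => ?_⟩, fun s => ?_⟩
  · have h1 : (2 * lam I l v w : ℝ) ≤ e * (w : ℝ) ^ 2 + 2 * C * w := by exact_mod_cast hupper w
    have h2 : (0 : ℝ) ≤ C := Nat.cast_nonneg _
    nlinarith
  · refine ⟨(e : ℝ) * w ^ 2 + C * w, fun s => ?_⟩
    have he0 : (0 : ℝ) ≤ e := Nat.cast_nonneg _
    have hC0 : (0 : ℝ) ≤ C := Nat.cast_nonneg _
    have hw0 : (0 : ℝ) ≤ w := Nat.cast_nonneg _
    rcases lt_or_ge s w with hs | hs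
    · have h1 : (lam I l v (s - w) : ℝ) ≤ lam I l v s := by
        exact_mod_cast lam_mono (Nat.sub_le s w)
      have h2 : (s : ℝ) ≤ w := by exact_mod_cast hs.le
      have h3 : (e : ℝ) * w * s ≤ e * w * w := by gcongr
      have h4 : 0 ≤ (C : ℝ) * w := by positivity
      nlinarith
    · obtain ⟨j, rfl⟩ := Nat.exists_eq_add_of_le' hs
      rw [Nat.add_sub_cancel]
      have h1 : ∀ i : ℕ, (e : ℝ) * j * i - C * i ≤ lam I l v (j + i) - lam I l v j := by
        intro i
        induction i with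
        | zero => simp
        | succ i ih =>
          have h2 : lam I l v (j + (i + 1)) = lam I l v (j + i) + hilb T (j + i) := by
            rw [hlam, hlam, ← add_assoc, Finset.sum_range_succ]
          have h3 : (e * (j + i) : ℝ) ≤ hilb T (j + i) + C := by exact_mod_cast (h (j + i)).2
          rw [h2]
          push_cast
          have h4 : 0 ≤ (e : ℝ) * i := by positivity
          linarith
      have h2 := h1 w
      push_cast
      nlinarith
  · have := hupper s
    nlinarith [Nat.zero_le (e * s ^ 2)]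

end Pool.Agent.Lib.MP_ed661f_ag.S.Up
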