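import Pool.Agent.Lib.MP_ed661f_ag.S.Up.Dev

/-!
The jets of a cone: `jetDim P v r` is the sum of the dimensions of the rings of jets of the curve.
-/

set_option autoImplicit false

open MvPolynomial

namespace Pool.Agent.Lib.MP_ed661f_ag.S.Up

open Pool.Agent.Lib.MP_ed661f_ag.H

variable {N : ℕ}

/-- multiplication of all the variables by `1 + T` -/
noncomputable def tw : Poly N →ₐ[ℂ] Polynomial (Poly N) :=
  aeval fun j => (1 + Polynomial.X) * Polynomial.C (X j)

theorem tw_hom {F : Poly N} {k : ℕ} (hF : F.IsHomogeneous k) :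
    tw F = (1 + Polynomial.X) ^ k * Polynomial.C F := by
  have h1 : ∀ (d : Fin (N + 1) →₀ ℕ) (c : ℂ), tw (monomial d c : Poly N) =
      (1 + Polynomial.X) ^ d.degree * Polynomial.C (monomial d c) := by
    intro d c
    unfold tw
    rw [aeval_monomial, Finsupp.prod]
    simp only [mul_pow]
    rw [Finset.prod_mul_distrib, Finset.prod_pow_eq_pow_sum]
    have e1 : (monomial d c : Poly N) = C c * ∏ i ∈ d.support, X i ^ d i := by
      rw [monomial_eq, Finsupp.prod]
    rw [e1, map_mul, map_prod]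
    simp only [map_pow]
    have e2 : algebraMap ℂ (Polynomial (Poly N)) c = Polynomial.C (C c) := rfl
    rw [e2]
    have e3 : ∑ i ∈ d.support, d i = d.degree := rfl
    rw [e3]
    ring
  conv_lhs => rw [F.as_sum]
  conv_rhs => rw [F.as_sum]
  rw [map_sum, map_sum, Finset.mul_sum]
  refine Finset.sum_congr rfl fun d hd => ?_
  have h2 := hF (mem_support_iff.1 hd)
  rw [h1]
  have h3 : d.degree = k := by
    rw [Finsupp.degree_eq_weight_one]
    exact h2
  rw [h3]

/-- the coefficients of `tw F` -/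
theorem coeff_tw (F : Poly N) (j : ℕ) : (tw F).coeff j =
    ∑ k ∈ Finset.range (F.totalDegree + 1), (k.choose j : ℂ) • homogeneousComponent k F := by
  conv_lhs => rw [← sum_homogeneousComponent F]
  rw [map_sum, Polynomial.finsetSum_coeff]
  refine Finset.sum_congr rfl fun k _ => ?_
  rw [tw_hom (homogeneousComponent_isHomogeneous k F), Polynomial.coeff_mul_C,
    Polynomial.coeff_one_add_X_pow, Algebra.smul_def]
  simp

theorem coeff_tw_mem {P : Ideal (Poly N)} (hP : Homog P) {F : Poly N} (hF : F ∈ P) (j : ℕ) :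
    (tw F).coeff j ∈ P := by
  rw [coeff_tw]
  refine P.sum_mem fun k _ => ?_
  rw [Algebra.smul_def]
  exact P.mul_mem_left _ (hP F hF k)

theorem coeff_tw_zero (F : Poly N) : (tw F).coeff 0 = F := by
  rw [coeff_tw]
  simp only [Nat.choose_zero_right, Nat.cast_one, one_smul]
  exact sum_homogeneousComponent F

theorem tw_sub_one {l : Poly N} (hl : l.IsHomogeneous 1) :
    tw (l - 1) = Polynomial.X + (1 + Polynomial.X) * Polynomial.C (l - 1) := by
  rw [map_sub, map_one, tw_hom hl, pow_one, map_sub, map_one]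
  ring

/-- the ideals which define the rings of jets -/
private noncomputable def KK (P : Ideal (Poly N)) (l : Poly N) (v : Fin (N + 1) → ℂ) (s : ℕ) :
    Ideal (Poly N) := P ⊔ vecIdeal v ^ s ⊔ Ideal.span {l - 1}

private theorem KK_anti {P : Ideal (Poly N)} {l : Poly N} {v : Fin (N + 1) → ℂ} {s t : ℕ}
    (h : s ≤ t) : KK P l v t ≤ KK P l v s :=
  sup_le_sup_right (sup_le_sup_left (Ideal.pow_le_pow_right h) _) _

private theorem KK_mul {P : Ideal (Poly N)} {l : Poly N} {v : Fin (N + 1) → ℂ} {s t : ℕ}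
    {a b : Poly N} (ha : a ∈ KK P l v s) (hb : b ∈ KK P l v t) : a * b ∈ KK P l v (s + t) := by
  obtain ⟨a1, h1, a2, h2, rfl⟩ := Submodule.mem_sup.1 ha
  obtain ⟨a3, h3, a4, h4, rfl⟩ := Submodule.mem_sup.1 h1
  obtain ⟨b1, g1, b2, g2, rfl⟩ := Submodule.mem_sup.1 hb
  obtain ⟨b3, g3, b4, g4, rfl⟩ := Submodule.mem_sup.1 g1
  have e1 : P ≤ KK P l v (s + t) := le_sup_left.trans le_sup_left
  have e2 : vecIdeal v ^ (s + t) ≤ KK P l v (s + t) := le_sup_right.trans le_sup_left
  have e3 : Ideal.span {l - 1} ≤ KK P l v (s + t) := le_sup_right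
  have e4 : (a3 + a4 + a2) * (b3 + b4 + b2) = a3 * (b3 + b4 + b2) + a4 * b3 + a4 * b4 +
    a4 * b2 + a2 * (b3 + b4 + b2) := by ring
  rw [e4]
  refine Ideal.add_mem _ (Ideal.add_mem _ (Ideal.add_mem _ (Ideal.add_mem _ ?_ ?_) ?_) ?_) ?_
  · exact e1 (P.mul_mem_right _ h3)
  · exact e1 (P.mul_mem_left _ g3)
  · refine e2 ?_
    rw [pow_add]
    exact Ideal.mul_mem_mul h4 g4
  · exact e3 (Ideal.mul_mem_left _ _ g2)
  · exact e3 (Ideal.mul_mem_right _ _ h2)

private theorem KK_zero {P : Ideal (Poly N)} {l : Poly N} {v : Fin (N + 1) → ℂ} :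
    KK P l v 0 = ⊤ := by
  unfold KK
  rw [pow_zero, Ideal.one_eq_top]
  simp

/-- the elements whose jets have coefficients in the ideals `KK` -/
private noncomputable def GG (P : Ideal (Poly N)) (l : Poly N) (v : Fin (N + 1) → ℂ) (s : ℕ) :
    Ideal (Poly N) where
  carrier := {a | ∀ j, (tw a).coeff j ∈ KK P l v (s - j)}
  add_mem' := by
    intro a b ha hb j
    rw [map_add, Polynomial.coeff_add]
    exact Ideal.add_mem _ (ha j) (hb j)
  zero_mem' := by
    intro j
    rw [map_zero, Polynomial.coeff_zero]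
    exact Ideal.zero_mem _
  smul_mem' := by
    intro c a ha j
    rw [smul_eq_mul, map_mul, Polynomial.coeff_mul]
    refine Ideal.sum_mem _ fun p hp => ?_
    rw [Finset.HasAntidiagonal.mem_antidiagonal] at hp
    exact KK_anti (by omega) (Ideal.mul_mem_left _ _ (ha p.2))

private theorem mem_GG {P : Ideal (Poly N)} {l : Poly N} {v : Fin (N + 1) → ℂ} {s : ℕ}
    {a : Poly N} : a ∈ GG P l v s ↔ ∀ j, (tw a).coeff j ∈ KK P l v (s - j) := Iff.rfl

private theorem pow_le_GG {P : Ideal (Poly N)} {l : Poly N} {v : Fin (N + 1) → ℂ} (s : ℕ) :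
    vecIdeal v ^ s ≤ GG P l v s := by
  induction s with
  | zero =>
    intro a _
    rw [mem_GG]
    intro j
    rw [Nat.zero_sub, KK_zero]
    exact Submodule.mem_top
  | succ s ih =>
    rw [pow_succ, Ideal.mul_le]
    intro a ha b hb
    rw [mem_GG]
    intro j
    rw [map_mul, Polynomial.coeff_mul]
    refine Ideal.sum_mem _ fun p hp => ?_
    rw [Finset.HasAntidiagonal.mem_antidiagonal] at hp
    have h1 := mem_GG.1 (ih ha) p.1
    have h2 : (tw b).coeff p.2 ∈ KK P l v (1 - p.2) := by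
      rcases Nat.eq_zero_or_pos p.2 with h0 | h0
      · rw [h0, coeff_tw_zero]
        refine (le_sup_right.trans le_sup_left : vecIdeal v ^ (1 - 0) ≤ _) ?_
        rwa [Nat.sub_zero, pow_one]
      · rw [Nat.sub_eq_zero_of_le h0, KK_zero]
        exact Submodule.mem_top
    exact KK_anti (by omega) (KK_mul h1 h2)

/-- **jets of a cone** -/
theorem le_jetDim {P : Ideal (Poly N)} (hP : Homog P) {l : Poly N} (hl : l.IsHomogeneous 1)
    {v : Fin (N + 1) → ℂ} (r : ℕ) :
    ∑ t ∈ Finset.range r, lam P l v (t + 1) ≤ jetDim P v r := by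
  have hf1 : Module.Finite ℂ (Poly N ⧸ (P ⊔ vecIdeal v ^ r)) :=
    finite_quot (v := v) (s := r) le_sup_right
  have hf2 : ∀ j : Fin r, Module.Finite ℂ (Poly N ⧸ KK P l v (r - j)) := fun j =>
    finite_quot (v := v) (s := r - j) (le_sup_right.trans le_sup_left)
  -- the map to the product
  let Φ0 : Poly N →ₗ[ℂ] (∀ j : Fin r, Poly N ⧸ KK P l v (r - j)) :=
    LinearMap.pi fun j => (Ideal.Quotient.mkₐ ℂ (KK P l v (r - j))).toLinearMap.comp
      (((Polynomial.lcoeff (Poly N) j).restrictScalars ℂ).comp tw.toLinearMap)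
  have hΦ0 : ∀ a (j : Fin r), Φ0 a j = Ideal.Quotient.mk (KK P l v (r - j)) ((tw a).coeff j) :=
    fun a j => rfl
  have hker : ∀ a ∈ P ⊔ vecIdeal v ^ r, Φ0 a = 0 := by
    intro a ha
    funext j
    rw [hΦ0, Pi.zero_apply, Ideal.Quotient.eq_zero_iff_mem]
    obtain ⟨b, hb, c, hc, rfl⟩ := Submodule.mem_sup.1 ha
    rw [map_add, Polynomial.coeff_add]
    refine Ideal.add_mem _ ?_ ?_
    · exact (le_sup_left.trans le_sup_left : P ≤ KK P l v (r - j)) (coeff_tw_mem hP hb j)
    · exact mem_GG.1 (pow_le_GG r hc) j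
  let Φ : (Poly N ⧸ (P ⊔ vecIdeal v ^ r)) →ₗ[ℂ] (∀ j : Fin r, Poly N ⧸ KK P l v (r - j)) :=
    Submodule.liftQ ((P ⊔ vecIdeal v ^ r).restrictScalars ℂ) Φ0 (by
      intro a ha
      exact hker a ha)
  have hΦ : ∀ a, Φ (Ideal.Quotient.mk _ a) = Φ0 a := fun a => rfl
  -- surjectivity
  have hone : ∀ (j : Fin r) (b : Poly N) (k : ℕ), b.IsHomogeneous k →
      Pi.single j (Ideal.Quotient.mk (KK P l v (r - j)) b) ∈ LinearMap.range Φ := by
    intro j b k hb
    -- the inverse of `(1 + T) ^ k` modulo `T ^ r`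
    have hcop : IsCoprime ((1 + Polynomial.X : Polynomial ℂ) ^ k) (Polynomial.X ^ r) := by
      refine IsCoprime.pow ⟨1, -1, by ring⟩
    obtain ⟨p, q, hpq⟩ := hcop
    set a : Poly N := (l - 1) ^ (j : ℕ) * (b * Polynomial.aeval (l - 1) p) with ha
    refine ⟨Ideal.Quotient.mk _ a, ?_⟩
    rw [hΦ]
    funext i
    rw [hΦ0]
    -- modulo `l - 1`
    let π : Poly N →+* Poly N ⧸ KK P l v (r - i) := Ideal.Quotient.mk _
    have hπ : π (l - 1) = 0 := Ideal.Quotient.eq_zero_iff_mem.2
      ((le_sup_right : Ideal.span {l - 1} ≤ _) (Ideal.mem_span_singleton_self _))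
    have h1 : (tw (l - 1)).map π = Polynomial.X := by
      rw [tw_sub_one hl, Polynomial.map_add, Polynomial.map_mul, Polynomial.map_C, hπ,
        Polynomial.map_X]
      simp
    have h2 : (tw (Polynomial.aeval (l - 1) p)).map π =
        p.map (algebraMap ℂ (Poly N ⧸ KK P l v (r - i))) := by
      have e1 : tw (Polynomial.aeval (l - 1) p) = Polynomial.aeval (tw (l - 1)) p := by
        rw [← Polynomial.aeval_algHom_apply]
      rw [e1, Polynomial.aeval_def, ← Polynomial.coe_mapRingHom, Polynomial.hom_eval₂]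
      have e2 : (Polynomial.mapRingHom π) (tw (l - 1)) = Polynomial.X := h1
      rw [e2]
      have e3 : (Polynomial.mapRingHom π).comp (algebraMap ℂ (Polynomial (Poly N))) =
          Polynomial.C.comp (algebraMap ℂ (Poly N ⧸ KK P l v (r - i))) := by
        ext c
        simp only [RingHom.comp_apply, Polynomial.coe_mapRingHom]
        have : algebraMap ℂ (Polynomial (Poly N)) c = Polynomial.C (algebraMap ℂ (Poly N) c) := rfl
        rw [this, Polynomial.map_C]
        rfl
      rw [e3, ← Polynomial.eval₂_map, Polynomial.eval₂_C_X]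
    have h3 : (tw a).map π = Polynomial.X ^ (j : ℕ) * (Polynomial.C (π b) *
        (1 - (q.map (algebraMap ℂ (Poly N ⧸ KK P l v (r - i)))) * Polynomial.X ^ r)) := by
      rw [ha, map_mul, map_pow, map_mul, tw_hom hb]
      simp only [Polynomial.map_mul, Polynomial.map_pow, h1, h2, Polynomial.map_add,
        Polynomial.map_one, Polynomial.map_X, Polynomial.map_C]
      have e4 := congrArg (Polynomial.map (algebraMap ℂ (Poly N ⧸ KK P l v (r - i)))) hpq
      simp only [Polynomial.map_mul, Polynomial.map_pow, Polynomial.map_add,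
        Polynomial.map_one, Polynomial.map_X] at e4
      rw [eq_sub_of_add_eq e4.symm.symm |> fun h => h.symm]
      ring
    have h4 : π ((tw a).coeff i) = ((tw a).map π).coeff i := (Polynomial.coeff_map π i).symm
    have h5 : Ideal.Quotient.mk (KK P l v (r - i)) ((tw a).coeff i) = π ((tw a).coeff i) := rfl
    rw [h5, h4, h3]
    have hi : (i : ℕ) < r := i.2
    have h6 : (Polynomial.X ^ (j : ℕ) * (Polynomial.C (π b) *
        (1 - (q.map (algebraMap ℂ (Poly N ⧸ KK P l v (r - i)))) * Polynomial.X ^ r))).coeff i =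
        (Polynomial.X ^ (j : ℕ) * Polynomial.C (π b)).coeff i := by
      have e5 : (Polynomial.X ^ (j : ℕ) * (Polynomial.C (π b) *
        (1 - (q.map (algebraMap ℂ (Poly N ⧸ KK P l v (r - i)))) * Polynomial.X ^ r))) =
        Polynomial.X ^ (j : ℕ) * Polynomial.C (π b) - (Polynomial.X ^ (j : ℕ) *
          Polynomial.C (π b) * (q.map (algebraMap ℂ (Poly N ⧸ KK P l v (r - i))))) *
            Polynomial.X ^ r := by ring
      rw [e5, Polynomial.coeff_sub, Polynomial.coeff_mul_X_pow', if_neg (by omega), sub_zero]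
    rw [h6, Polynomial.coeff_mul_C, Polynomial.coeff_X_pow]
    by_cases hij : i = j
    · subst hij
      rw [if_pos rfl, one_mul, Pi.single_eq_same]
    · rw [if_neg (fun h => hij (Fin.ext h)), zero_mul, Pi.single_eq_of_ne hij]
  have hsurj : LinearMap.range Φ = ⊤ := by
    rw [eq_top_iff]
    intro x _
    rw [← Finset.univ_sum_single x]
    refine Submodule.sum_mem _ fun j _ => ?_
    obtain ⟨b, hb⟩ := Ideal.Quotient.mk_surjective (x j)
    rw [← hb, ← sum_homogeneousComponent b, map_sum]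
    have h7 : Pi.single j (∑ k ∈ Finset.range (b.totalDegree + 1),
        Ideal.Quotient.mk (KK P l v (r - j)) (homogeneousComponent k b)) =
        ∑ k ∈ Finset.range (b.totalDegree + 1), Pi.single (M := fun j : Fin r =>
          Poly N ⧸ KK P l v (r - j)) j
          (Ideal.Quotient.mk (KK P l v (r - j)) (homogeneousComponent k b)) := by
      exact map_sum (AddMonoidHom.single (fun j : Fin r => Poly N ⧸ KK P l v (r - j)) j) _ _
    rw [h7]
    exact Submodule.sum_mem _ fun k _ => hone j _ k (homogeneousComponent_isHomogeneous k b)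
  have h8 := LinearMap.finrank_range_le Φ
  rw [hsurj, finrank_top, Module.finrank_pi_fintype] at h8
  refine le_trans (le_of_eq ?_) h8
  rw [← Finset.sum_range_reflect, Finset.sum_range]
  refine Finset.sum_congr rfl fun j _ => ?_
  unfold lam KK
  congr 4
  all_goals
    have := j.2
    have e9 : r - 1 - (j : ℕ) + 1 = r - j := by omega
    rw [e9]

theorem jetDim_eq {P : Ideal (Poly N)} (hP : Homog P) {l : Poly N} (hl : l.IsHomogeneous 1)
    {v : Fin (N + 1) → ℂ} (hlv : MvPolynomial.eval v l = 1) (r : ℕ) :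
    jetDim P v r = ∑ t ∈ Finset.range r, lam P l v (t + 1) :=
  le_antisymm (jetDim_le hlv r) (le_jetDim hP hl r)

end Pool.Agent.Lib.MP_ed661f_ag.S.Up
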