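import Pool.Agent.Lib.MP_ed661f_ag.S.Up.Dev
import Pool.Agent.Lib.MP_ed661f_ag.H.Krull
import Pool.Agent.Lib.MP_ed661f_ag.H.Basis
import Pool.Agent.Lib.MP_ed661f_ag.H.Growth
import Pool.Agent.Lib.MP_ed661f_ag.H.Degrees
import Pool.Agent.Lib.MP_ed661f_ag.H.BigDegree

/-!
The inequality of the devissage for homogeneous prime ideals of linear growth.
-/

set_option autoImplicit false

open MvPolynomial Filter
open scoped ENNReal Topology

namespace Pool.Agent.Lib.MP_ed661f_ag.S.Up

open Pool.Agent.Lib.MP_ed661f_ag.H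

variable {N : ℕ}

/-- the rings of jets are bounded by the Hilbert function in large degrees -/
theorem lam_le_hilb {J : Ideal (Poly N)} {l : Poly N} (hl : l.IsHomogeneous 1)
    (v : Fin (N + 1) → ℂ) (s : ℕ) : ∃ j0, ∀ j, j0 ≤ j → lam J l v s ≤ hilb J j := by
  obtain ⟨j0, h⟩ := sum_finrank_le_hilb (n := 1) (J := J)
    (K := fun _ => J ⊔ vecIdeal v ^ s ⊔ Ideal.span {l - 1}) hl
    (fun _ => (le_sup_right : Ideal.span {l - 1} ≤ _) (Ideal.mem_span_singleton_self _))
    (fun _ => le_sup_left.trans le_sup_left)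
    (fun _ => finite_quot (v := v) (s := s) (le_sup_right.trans le_sup_left))
    (fun i j hij => absurd (Subsingleton.elim i j) hij)
  refine ⟨j0, fun j hj => ?_⟩
  have h1 := h j hj
  rw [Finset.univ_unique, Finset.sum_singleton] at h1
  exact h1

theorem lam_le_of_hilb_le {J : Ideal (Poly N)} {l : Poly N} (hl : l.IsHomogeneous 1)
    (v : Fin (N + 1) → ℂ) {c : ℕ} (h : ∀ k, hilb J k ≤ c) (s : ℕ) : lam J l v s ≤ c := by
  obtain ⟨j0, h1⟩ := lam_le_hilb (J := J) hl v s
  exact (h1 j0 le_rfl).trans (h j0)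

/-- a homogeneous prime ideal of linear growth is the ideal of a curve or its rings of jets are
bounded -/
theorem curve_or_bounded {I P : Ideal (Poly N)} (hP : P.IsPrime) (hh : Homog P) (hIP : I ≤ P)
    {C : ℕ} (hC : ∀ k, hilb P k ≤ C * (k + 1)) {l : Poly N} (hl : l.IsHomogeneous 1) :
    IsCurveOn I P ∨ ∀ v, ∃ c, ∀ s, lam P l v s ≤ c := by
  obtain ⟨r, y, h1, h2, h3⟩ := exists_noether_aux hP.ne_top hh
  have h4 := ringKrullDim_eq_of_finite _ h2 h3
  rw [ringKrullDim_mvPolynomial] at h4
  have hr : r ≤ 2 := by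
    by_contra hcon
    have h5 := le_hilb h1 h2 (2 * C)
    have h6 := hC (2 * C)
    have h7 : Module.finrank ℂ (homogeneousSubmodule (Fin 3) ℂ (2 * C)) ≤
        Module.finrank ℂ (homogeneousSubmodule (Fin r) ℂ (2 * C)) := by
      rw [finrank_forms, finrank_forms]
      exact Nat.choose_le_choose _ (by omega)
    have h8 := finrank_forms_three (2 * C)
    nlinarith
  interval_cases r
  · -- a finite-dimensional quotient ring
    right
    intro v
    have h5 : ((proj P y).toRingHom.comp (MvPolynomial.C : ℂ →+* MvPolynomial (Fin 0) ℂ)).Finite :=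
      h3.comp (RingHom.Finite.of_surjective _ (C_surjective _))
    have h6 : (proj P y).toRingHom.comp (MvPolynomial.C : ℂ →+* MvPolynomial (Fin 0) ℂ) =
        algebraMap ℂ (Poly N ⧸ P) := by
      ext c
      exact (proj P y).commutes c
    rw [h6] at h5
    have h7 : Module.Finite ℂ (Poly N ⧸ P) := RingHom.finite_algebraMap.1 h5
    refine ⟨Module.finrank ℂ (Poly N ⧸ P), fun s => ?_⟩
    exact slice_finrank_anti (le_sup_left.trans le_sup_left)
  · right
    intro v
    obtain ⟨d, e, a, q, b, -, he, -, hq, hqb, hF⟩ := exists_basis hP hh h1 h2 h3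
    refine ⟨d, fun s => lam_le_of_hilb_le hl v (fun k => ?_) s⟩
    have h5 := hilb_le hP hh le_rfl h1 h2 he hq hqb hF k
    refine h5.trans (le_of_eq ?_)
    rw [Finset.sum_const, Finset.card_univ, Fintype.card_fin, finrank_forms]
    simp
  · left
    exact ⟨hP, hh, by rw [← h4]; rfl, hIP⟩

/-- the inequality for the ideal of a curve -/
theorem wd_curve {n : ℕ} {P : Ideal (Poly N)} {l : Poly N} {v : Fin n → Fin (N + 1) → ℂ} {ε : ℝ}
    (hε : 0 < ε) (hdeg : deg P ≠ ⊤)
    (hlim : ∀ i, Tendsto (fun t : ℕ => (lam P l (v i) t : ℝ≥0∞) / t) atTop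
      (𝓝 (mult P (v i))))
    (h : ENNReal.ofReal ε * ∑ i, mult P (v i) ≤ deg P) :
    WD (fun _ => ε) (fun i => lam P l (v i)) (hilb P) := by
  have hε' : ENNReal.ofReal ε ≠ 0 := by
    rw [Ne, ENNReal.ofReal_eq_zero, not_le]
    exact hε
  have hsum : ∑ i, mult P (v i) ≠ ⊤ := by
    intro htop
    rw [htop, ENNReal.mul_top hε'] at h
    exact hdeg (top_le_iff.1 h)
  have hm : ∀ i, mult P (v i) ≠ ⊤ := fun i =>
    ENNReal.sum_ne_top.1 hsum i (Finset.mem_univ i)
  set μ : Fin n → ℝ := fun i => (mult P (v i)).toReal with hμ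
  set D : ℝ := (deg P).toReal with hD
  have h1 : ε * ∑ i, μ i ≤ D := by
    have h2 := ENNReal.toReal_mono hdeg h
    rw [ENNReal.toReal_mul, ENNReal.toReal_ofReal hε.le, ENNReal.toReal_sum fun i _ => hm i] at h2
    exact h2
  intro η hη
  set a : ℝ := η / (ε * n + 1) with ha
  have hn0 : (0 : ℝ) ≤ ε * n := by positivity
  have ha0 : 0 < a := by positivity
  have ha1 : a * (ε * n + 1) = η := by
    rw [ha]
    field_simp
  -- the rings of jets
  have h2 : ∀ i, ∃ C : ℝ, ∀ s, (lam P l (v i) s : ℝ) ≤ (μ i + a) * s + C := by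
    intro i
    have h3 : mult P (v i) < ENNReal.ofReal (μ i + a) := by
      rw [← ENNReal.ofReal_toReal (hm i)]
      exact (ENNReal.ofReal_lt_ofReal_iff (by positivity)).2 (by
        show (mult P (v i)).toReal < μ i + a
        simp only [hμ]
        linarith)
    have h4 := (hlim i).eventually (gt_mem_nhds h3)
    obtain ⟨T, hT⟩ := eventually_atTop.1 h4
    refine ⟨lam P l (v i) (T + 1), fun s => ?_⟩
    have hμ0 : 0 ≤ μ i := ENNReal.toReal_nonneg
    rcases le_total (T + 1) s with hs | hs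
    · have h5 := hT s (by omega)
      have hs0 : (0 : ℝ) < s := by
        have : 0 < s := by omega
        exact_mod_cast this
      rw [cast_div_eq (by omega), ENNReal.ofReal_lt_ofReal_iff (by positivity),
        div_lt_iff₀ hs0] at h5
      have h6 : (0 : ℝ) ≤ lam P l (v i) (T + 1) := Nat.cast_nonneg _
      linarith
    · have h5 : (lam P l (v i) s : ℝ) ≤ lam P l (v i) (T + 1) := by exact_mod_cast lam_mono hs
      have h6 : 0 ≤ (μ i + a) * s := by positivity
      linarith
  choose C0 hC0 using h2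
  -- the Hilbert function
  have h3 : ∃ C : ℝ, ∀ k, (D - a) * k - C ≤ hilb P k := by
    rcases le_or_gt (D - a) 0 with hneg | hpos
    · refine ⟨0, fun k => ?_⟩
      have h5 : (0 : ℝ) ≤ hilb P k := Nat.cast_nonneg _
      have h6 : (D - a) * (k : ℝ) ≤ 0 := mul_nonpos_of_nonpos_of_nonneg hneg (Nat.cast_nonneg _)
      linarith
    · have h4 : ENNReal.ofReal (D - a) < deg P := by
        rw [← ENNReal.ofReal_toReal hdeg]
        exact (ENNReal.ofReal_lt_ofReal_iff (by rw [← hD]; linarith)).2 (by rw [← hD]; linarith)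
      have h5 := eventually_lt_of_lt_liminf h4 (by isBoundedDefault)
      obtain ⟨T, hT⟩ := eventually_atTop.1 h5
      refine ⟨(D - a) * (T + 1), fun k => ?_⟩
      rcases le_total (T + 1) k with hk | hk
      · have h6 := hT k (by omega)
        have hk0 : (0 : ℝ) < k := by
          have : 0 < k := by omega
          exact_mod_cast this
        rw [cast_div_eq (by omega)] at h6
        have h7 := (ENNReal.ofReal_lt_ofReal_iff_of_nonneg hpos.le).1 h6
        rw [lt_div_iff₀ hk0] at h7
        have h8 : 0 ≤ (D - a) * ((T : ℝ) + 1) := by positivity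
        linarith
      · have h6 : (k : ℝ) ≤ T + 1 := by exact_mod_cast hk
        have h7 : (D - a) * (k : ℝ) ≤ (D - a) * (T + 1) := mul_le_mul_of_nonneg_left h6 hpos.le
        have h8 : (0 : ℝ) ≤ hilb P k := Nat.cast_nonneg _
        linarith
  obtain ⟨C1, hC1⟩ := h3
  refine ⟨fun i => μ i + a, D - a, ∑ i, |C0 i| + |C1|, ?_, ?_, ?_⟩
  · rw [← Finset.mul_sum, Finset.sum_add_distrib, Finset.sum_const, Finset.card_univ,
      Fintype.card_fin, nsmul_eq_mul, mul_add]
    nlinarith
  · intro i s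
    have h4 := hC0 i s
    have h5 : C0 i ≤ ∑ i, |C0 i| := (le_abs_self _).trans
      (Finset.single_le_sum (f := fun i => |C0 i|) (fun _ _ => abs_nonneg _) (Finset.mem_univ i))
    have h6 := abs_nonneg C1
    linarith
  · intro k
    have h4 := hC1 k
    have h5 : 0 ≤ ∑ i, |C0 i| := Finset.sum_nonneg fun _ _ => abs_nonneg _
    have h6 := le_abs_self C1
    linarith

end Pool.Agent.Lib.MP_ed661f_ag.S.Up
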