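import Pool.Agent.Lib.MP_ed661f_ag.S.Up.Count
import Pool.Agent.Lib.MP_ed661f_ag.S.Up.Prime
import Pool.Agent.Lib.MP_ed661f_ag.S.Up.Lim
import Pool.Agent.Lib.MP_ed661f_ag.H.Main

/-!
The intersection of a surface in the projective space of dimension three with a surface of large
multiplicity at given points.
-/

set_option autoImplicit false

open MvPolynomial Filter
open scoped ENNReal Topology

namespace Pool.Agent.Lib.MP_ed661f_ag.S.Up

open Pool.Agent.Lib.MP_ed661f_ag.H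

theorem cast_forms (k : ℕ) : (Module.finrank ℂ (homogeneousSubmodule (Fin 4) ℂ k) : ℝ) =
    ((k : ℝ) + 1) * (k + 2) * (k + 3) / 6 := by
  have h : (6 * Module.finrank ℂ (homogeneousSubmodule (Fin 4) ℂ k) : ℝ) =
      ((k : ℝ) + 1) * (k + 2) * (k + 3) := by exact_mod_cast finrank_forms_four k
  linarith

section Jets

variable {l : Poly 3} (hl : l.IsHomogeneous 1) {v : Fin 4 → ℂ} (hlv : eval v l = 1) {F : Poly 3}
  {d e : ℕ} (hF : F.IsHomogeneous d) (h1 : F ∈ vecIdeal v ^ e) (h2 : F ∉ vecIdeal v ^ (e + 1))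

include hl hlv hF h1 h2

theorem lam_formula (s : ℕ) (hs : e ≤ s) : (lam (Ideal.span {F}) l v (s + 1) : ℝ) =
    ((s : ℝ) + 1) * (s + 2) * (s + 3) / 6 -
      ((s : ℝ) - e + 1) * (s - e + 2) * (s - e + 3) / 6 := by
  have h3 := lam_hypersurface hl hlv hF h1 h2 s hs
  have h4 : (lam (Ideal.span {F}) l v (s + 1) : ℝ) +
      Module.finrank ℂ (homogeneousSubmodule (Fin 4) ℂ (s - e)) =
      Module.finrank ℂ (homogeneousSubmodule (Fin 4) ℂ s) := by exact_mod_cast h3
  rw [cast_forms, cast_forms, Nat.cast_sub hs] at h4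
  linarith

theorem lam_hyp_le (w : ℕ) : (lam (Ideal.span {F}) l v w : ℝ) ≤
    e * (w : ℝ) ^ 2 / 2 + e * w + ((e : ℝ) + 2) ^ 3 := by
  have he : (0 : ℝ) ≤ e := Nat.cast_nonneg _
  have hw : (0 : ℝ) ≤ w := Nat.cast_nonneg _
  rcases Nat.eq_zero_or_pos w with rfl | hw0
  · rw [lam_zero]
    push_cast
    positivity
  · obtain ⟨s, rfl⟩ : ∃ s, w = s + 1 := ⟨w - 1, by omega⟩
    have hs0 : (0 : ℝ) ≤ s := Nat.cast_nonneg _
    rcases le_or_gt e s with hs | hs
    · rw [lam_formula hl hlv hF h1 h2 s hs]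
      push_cast
      nlinarith [mul_nonneg (mul_nonneg he he) hs0, mul_nonneg he he, mul_nonneg (mul_nonneg he he) he]
    · have h3 := lam_hypersurface_lt hl hlv hF h1 h2 s hs
      have h4 : (lam (Ideal.span {F}) l v (s + 1) : ℝ) =
        Module.finrank ℂ (homogeneousSubmodule (Fin 4) ℂ s) := by exact_mod_cast h3
      rw [h4, cast_forms]
      have h5 : (s : ℝ) + 1 ≤ e := by exact_mod_cast hs
      have h6 : ((s : ℝ) + 1) * (s + 2) * (s + 3) / 6 ≤ ((e : ℝ) + 2) ^ 3 := by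
        have h7 : ((s : ℝ) + 1) * (s + 2) * (s + 3) ≤ (e + 2) * (e + 2) * (e + 2) := by
          have a1 : (s : ℝ) + 1 ≤ e + 2 := by linarith
          have a2 : (s : ℝ) + 2 ≤ e + 2 := by linarith
          have a3 : (s : ℝ) + 3 ≤ e + 2 := by linarith
          exact mul_le_mul (mul_le_mul a1 a2 (by positivity) (by positivity)) a3 (by positivity)
            (by positivity)
        have h8 : 0 ≤ ((s : ℝ) + 1) * (s + 2) * (s + 3) := by positivity
        nlinarith
      have h9 : 0 ≤ (e : ℝ) * ((s + 1 : ℕ) : ℝ) ^ 2 / 2 + e * ((s + 1 : ℕ) : ℝ) := by positivity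
      linarith

theorem lam_inter_ge {J : Ideal (Poly 3)} {w : ℕ}
    (hJ : ∀ s, lam (Ideal.span {F}) l v s ≤ lam J l v s + lam (Ideal.span {F}) l v (s - w))
    (s : ℕ) : (e : ℝ) * w * s - e * w * (w + e + 1) ≤ lam J l v s := by
  have he : (0 : ℝ) ≤ e := Nat.cast_nonneg _
  have hw : (0 : ℝ) ≤ w := Nat.cast_nonneg _
  rcases lt_or_ge s (w + e + 1) with hs | hs
  · have h3 : (s : ℝ) ≤ w + e + 1 := by exact_mod_cast hs.le
    have h4 : (0 : ℝ) ≤ lam J l v s := Nat.cast_nonneg _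
    have h5 : (e : ℝ) * w * s ≤ e * w * (w + e + 1) := by gcongr
    linarith
  · obtain ⟨t, rfl⟩ : ∃ t, s = t + w + 1 := ⟨s - w - 1, by omega⟩
    have h3 := hJ (t + w + 1)
    have h4 : t + w + 1 - w = t + 1 := by omega
    rw [h4] at h3
    have h5 : (lam (Ideal.span {F}) l v (t + w + 1) : ℝ) ≤
      lam J l v (t + w + 1) + lam (Ideal.span {F}) l v (t + 1) := by exact_mod_cast h3
    rw [lam_formula hl hlv hF h1 h2 (t + w) (by omega),
      lam_formula hl hlv hF h1 h2 t (by omega)] at h5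
    push_cast at h5 ⊢
    have ht : (0 : ℝ) ≤ t := Nat.cast_nonneg _
    nlinarith [mul_nonneg he hw, mul_nonneg (mul_nonneg he hw) hw, mul_nonneg (mul_nonneg he he) hw]

end Jets

section Hilb

variable {F : Poly 3} {d : ℕ} (hF0 : F ≠ 0) (hF : F.IsHomogeneous d)

include hF0 hF

theorem hilb_formula (k : ℕ) : (hilb (Ideal.span {F}) (k + d) : ℝ) =
    ((k : ℝ) + d + 1) * (k + d + 2) * (k + d + 3) / 6 - ((k : ℝ) + 1) * (k + 2) * (k + 3) / 6 := by
  have h3 := hilb_span hF0 hF k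
  have h4 : (hilb (Ideal.span {F}) (k + d) : ℝ) +
      Module.finrank ℂ (homogeneousSubmodule (Fin 4) ℂ k) =
      Module.finrank ℂ (homogeneousSubmodule (Fin 4) ℂ (k + d)) := by exact_mod_cast h3
  rw [cast_forms, cast_forms] at h4
  push_cast at h4
  linarith

theorem hilb_hyp_ge (m : ℕ) (hm : d ≤ m) :
    (d : ℝ) * m ^ 2 / 2 - d ^ 2 * m / 2 - d ^ 2 ≤ hilb (Ideal.span {F}) m := by
  obtain ⟨k, rfl⟩ := Nat.exists_eq_add_of_le' hm
  rw [hilb_formula hF0 hF k]
  push_cast
  have hd : (0 : ℝ) ≤ d := Nat.cast_nonneg _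
  have hk : (0 : ℝ) ≤ k := Nat.cast_nonneg _
  nlinarith [mul_nonneg hd hk, mul_nonneg (mul_nonneg hd hd) hd, mul_nonneg hd hd]

theorem hilb_inter_le (hprime : (Ideal.span {F}).IsPrime) {G : Poly 3} {m : ℕ}
    (hG : G.IsHomogeneous m) (hGF : G ∉ Ideal.span {F}) :
    ∃ C : ℕ, ∀ k, hilb (Ideal.span {F} ⊔ Ideal.span {G}) k ≤ d * m * k + C := by
  refine ⟨2 * d * m + (m + d + 1) * (m + d + 2) * (m + d + 3), fun k => ?_⟩
  rcases lt_or_ge k (m + d) with hk | hk
  · have h1 : hilb (Ideal.span {F} ⊔ Ideal.span {G}) k ≤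
        Module.finrank ℂ (homogeneousSubmodule (Fin 4) ℂ k) := by
      have := finite_formsN (N := 3) k
      exact Submodule.finrank_map_le _ _
    have h2 := finrank_forms_four k
    have h3 : (k + 1) * (k + 2) * (k + 3) ≤ (m + d + 1) * (m + d + 2) * (m + d + 3) := by
      gcongr
    have h4 : 0 ≤ d * m * k := Nat.zero_le _
    omega
  · obtain ⟨j, rfl⟩ := Nat.exists_eq_add_of_le' hk
    have h1 := hilb_mul_le hprime hG hGF (j + d)
    have e1 : j + d + m = j + (m + d) := by ring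
    rw [e1] at h1
    have h2 : (hilb (Ideal.span {F}) (j + d) : ℝ) +
        hilb (Ideal.span {F} ⊔ Ideal.span {G}) (j + (m + d)) ≤
        hilb (Ideal.span {F}) (j + (m + d)) := by exact_mod_cast h1
    have e2 : j + (m + d) = (j + m) + d := by ring
    rw [hilb_formula hF0 hF j] at h2
    have h3 : (hilb (Ideal.span {F}) (j + (m + d)) : ℝ) =
        (((j + m : ℕ) : ℝ) + d + 1) * ((j + m : ℕ) + d + 2) * ((j + m : ℕ) + d + 3) / 6 -
          (((j + m : ℕ) : ℝ) + 1) * ((j + m : ℕ) + 2) * ((j + m : ℕ) + 3) / 6 := by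
      rw [e2]
      exact hilb_formula hF0 hF (j + m)
    rw [h3] at h2
    have hd : (0 : ℝ) ≤ d := Nat.cast_nonneg _
    have hm : (0 : ℝ) ≤ m := Nat.cast_nonneg _
    have hj : (0 : ℝ) ≤ j := Nat.cast_nonneg _
    have h4 : (hilb (Ideal.span {F} ⊔ Ideal.span {G}) (j + (m + d)) : ℝ) ≤
        d * m * (j + (m + d)) + 2 * d * m := by
      push_cast at h2
      nlinarith [mul_nonneg hd hm, mul_nonneg (mul_nonneg hd hm) hm,
        mul_nonneg (mul_nonneg hd hd) hm]
    have h5 : (hilb (Ideal.span {F} ⊔ Ideal.span {G}) (j + (m + d)) : ℝ) ≤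
        ((d * m * (j + (m + d)) + (2 * d * m + (m + d + 1) * (m + d + 2) * (m + d + 3)) : ℕ) : ℝ) := by
      push_cast
      have h6 : (0 : ℝ) ≤ ((m : ℝ) + d + 1) * (m + d + 2) * (m + d + 3) := by positivity
      linarith
    exact_mod_cast h5

end Hilb

/-- a comparison of slopes -/
theorem slope_le {a b c e : ℝ} (h : ∀ s : ℕ, a * s - b ≤ c * s + e) : a ≤ c := by
  by_contra hcon
  push Not at hcon
  have h1 : 0 < a - c := by linarith
  obtain ⟨s, hs⟩ := exists_nat_gt ((b + e) / (a - c))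
  rw [div_lt_iff₀ h1] at hs
  have := h s
  nlinarith

/-- **the key inequality** -/
theorem key {n d m w : ℕ} {F G l : Poly 3} (hF : F.IsHomogeneous d) (hirr : Irreducible F)
    (hG : G.IsHomogeneous m) (hGF : G ∉ Ideal.span {F}) (hl : l.IsHomogeneous 1)
    {v : Fin n → Fin 4 → ℂ} (hlv : ∀ i, eval (v i) l = 1) {e : Fin n → ℕ}
    (h1 : ∀ i, F ∈ vecIdeal (v i) ^ e i) (h2 : ∀ i, F ∉ vecIdeal (v i) ^ (e i + 1))
    (hGv : ∀ i, G ∈ Ideal.span {F} ⊔ vecIdeal (v i) ^ w ⊔ Ideal.span {l - 1}) {ε : ℝ} (hε : 0 < ε)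
    (H : ∀ P, IsCurveOn (Ideal.span {F}) P → (∃ i, ∀ Q ∈ P, eval (v i) Q = 0) →
      ENNReal.ofReal ε * ∑ i, mult P (v i) ≤ deg P) :
    ε * w * ∑ i, (e i : ℝ) ≤ d * m := by
  have hprime : (Ideal.span {F}).IsPrime :=
    (Ideal.span_singleton_prime hirr.ne_zero).2 hirr.prime
  set J := Ideal.span {F} ⊔ Ideal.span {G} with hJ
  have hJh : Homog J := homog_sup_single (homog_span hF) hG
  obtain ⟨C1, hC1⟩ := hilb_inter_le hirr.ne_zero hF hprime hG hGF
  -- the inequality for the prime ideals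
  have hW : WD (fun _ => ε) (fun i => lam J l (v i)) (hilb J) := by
    refine devissage (A := J) (fun P hP hh hJP => ?_) J hJh le_rfl
    have hFP : Ideal.span {F} ≤ P := le_sup_left.trans hJP
    have hC : ∀ k, hilb P k ≤ (d * m + C1) * (k + 1) := by
      intro k
      refine (hilb_anti hJP k).trans ((hC1 k).trans ?_)
      nlinarith [Nat.zero_le (d * m), Nat.zero_le (C1 * k)]
    rcases curve_or_bounded hP hh hFP hC hl with hcur | hb
    · by_cases hpt : ∃ i, ∀ Q ∈ P, eval (v i) Q = 0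
      · refine wd_curve hε (deg_curve hcur).2 (fun i => ?_) (H P hcur hpt)
        exact exists_mult hP hh hcur.dim hl (fun s => jetDim_eq hh hl (hlv i) s)
      · push Not at hpt
        refine WD.of_bounded fun i => ⟨0, fun s => ?_⟩
        obtain ⟨Q, hQP, hQ⟩ := hpt i
        have h3 : P ⊔ vecIdeal (v i) ^ s = ⊤ := by
          have hM := finDim_isMaximal (v i)
          have h4 : P ⊔ vecIdeal (v i) = ⊤ := by
            by_contra hne
            have h5 := hM.eq_of_le hne le_sup_right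
            have h6 : Q ∈ P ⊔ vecIdeal (v i) := Ideal.mem_sup_left hQP
            rw [← h5, vecIdeal, RingHom.mem_ker] at h6
            exact hQ h6
          exact Ideal.isCoprime_iff_sup_eq.1 ((Ideal.isCoprime_iff_sup_eq.2 h4).pow_right)
        unfold lam
        rw [h3, top_sup_eq]
        have : Subsingleton (Poly 3 ⧸ (⊤ : Ideal (Poly 3))) :=
          Ideal.Quotient.subsingleton_iff.2 rfl
        rw [Module.finrank_zero_of_subsingleton]
    · exact WD.of_bounded fun i => hb (v i)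
  -- conclusion
  have hw : ∀ η : ℝ, 0 < η → ε * w * ∑ i, (e i : ℝ) ≤ d * m + η := by
    intro η hη
    obtain ⟨M, D, C, a1, a2, a3⟩ := hW η hη
    have h3 : ∀ i, (e i : ℝ) * w ≤ M i := by
      intro i
      refine slope_le (b := e i * w * (w + e i + 1)) (e := C) fun s => ?_
      exact (lam_inter_ge hl (hlv i) hF (h1 i) (h2 i) (J := J)
        (fun s => lam_le_sup_add (hGv i) s) s).trans (a2 i s)
    have h4 : D ≤ d * m := by
      refine slope_le (b := C) (e := C1) fun k => ?_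
      refine (a3 k).trans ?_
      exact_mod_cast hC1 k
    have h5 : ε * w * ∑ i, (e i : ℝ) ≤ ∑ i, ε * M i := by
      rw [Finset.mul_sum]
      refine Finset.sum_le_sum fun i _ => ?_
      have := mul_le_mul_of_nonneg_left (h3 i) hε.le
      linarith
    linarith
  exact le_of_forall_pos_le_add hw

end Pool.Agent.Lib.MP_ed661f_ag.S.Up
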