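import Pool.Agent.Lib.MP_ed661f_ag.S.Up.Key
import Pool.Agent.Lib.MP_ed661f_ag.H.ExistsChart

/-!
Nonnegative classes have nonnegative square: if `∑ ρ i mult P (v i) ≤ deg P` for all curves `P` on
an irreducible surface of degree `d` in a projective space, at smooth points `v i`, then
`∑ (ρ i) ^ 2 ≤ d`.
-/

set_option autoImplicit false

open MvPolynomial Filter
open scoped ENNReal Topology

namespace Pool.Agent.Lib.MP_ed661f_ag.S.Up

open Pool.Agent.Lib.MP_ed661f_ag.H

variable {N : ℕ}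

/-- the growth of the Hilbert function of a surface -/
theorem surf_growth {I : Ideal (Poly N)} (hI : IsSurface I) : ∃ d A : ℕ, 1 ≤ d ∧ surfDeg I = d ∧
    (∀ k : ℕ, 2 * (hilb I k : ℝ) ≤ d * (k + A) ^ 2) ∧
    ∀ k : ℕ, (d : ℝ) * (k - A) ^ 2 ≤ 2 * hilb I k + d * (A : ℝ) ^ 2 ∧
      (A ≤ k → (d : ℝ) * (k - A) ^ 2 ≤ 2 * hilb I k) := by
  classical
  have hp := hI.prime
  have hh : Homog I := hI.homogeneous
  obtain ⟨y, hy, hinj, hfin⟩ := exists_noether (r := 3) hp.ne_top hh (by
    rw [hI.dim]; norm_num)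
  obtain ⟨d, e, a, q, b, hd, he, hind, hq, hqb, hF⟩ := exists_basis hp hh hy hinj hfin
  have h1 : ∀ k, hilb I k ≤ ∑ l : Fin d, Module.finrank ℂ (homogeneousSubmodule (Fin 3) ℂ (k + b)) :=
    fun k => hilb_le hp hh (by norm_num) hy hinj he hq hqb hF k
  set A : ℕ := Finset.univ.sup a with hA
  have hAl : ∀ l, a l ≤ A := fun l => Finset.le_sup (Finset.mem_univ l)
  have h2 : ∀ k, A ≤ k → (d : ℝ) * ((k : ℝ) - A) ^ 2 ≤ 2 * hilb I k := by
    intro k hk
    have h3 := sum_le_hilb hy he hind (k := k) fun l => (hAl l).trans hk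
    have h4 : d * ((k - A + 1) * (k - A + 2)) ≤ 2 * hilb I k := by
      refine le_trans ?_ (Nat.mul_le_mul_left 2 h3)
      rw [Finset.mul_sum]
      calc d * ((k - A + 1) * (k - A + 2)) = ∑ _l : Fin d, (k - A + 1) * (k - A + 2) := by simp
        _ ≤ _ := by
          refine Finset.sum_le_sum fun l _ => ?_
          rw [finrank_forms_three]
          have := hAl l
          exact Nat.mul_le_mul (by omega) (by omega)
    have h5 : ((d * ((k - A + 1) * (k - A + 2)) : ℕ) : ℝ) ≤ ((2 * hilb I k : ℕ) : ℝ) := by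
      exact_mod_cast h4
    push_cast [Nat.cast_sub hk] at h5
    have h6 : (0 : ℝ) ≤ (k : ℝ) - A := by
      have : (A : ℝ) ≤ k := by exact_mod_cast hk
      linarith
    have h7 : (0 : ℝ) ≤ d := Nat.cast_nonneg _
    nlinarith [mul_nonneg h7 h6]
  refine ⟨d, max A (b + 2), hd, le_antisymm (surfDeg_le h1) (le_surfDeg hy he hind), ?_, ?_⟩
  · intro k
    have h3 := h1 k
    rw [Finset.sum_const, Finset.card_univ, Fintype.card_fin, smul_eq_mul] at h3
    have h4 := finrank_forms_three (k + b)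
    have h5 : 2 * hilb I k ≤ d * ((k + b + 1) * (k + b + 2)) := by
      calc 2 * hilb I k ≤ 2 * (d * Module.finrank ℂ (homogeneousSubmodule (Fin 3) ℂ (k + b))) :=
            Nat.mul_le_mul_left 2 h3
        _ = d * (2 * Module.finrank ℂ (homogeneousSubmodule (Fin 3) ℂ (k + b))) := by ring
        _ = _ := by rw [h4]
    have h6 : 2 * hilb I k ≤ d * (k + max A (b + 2)) ^ 2 := by
      refine h5.trans (Nat.mul_le_mul_left d ?_)
      rw [sq]
      have := le_max_right A (b + 2)
      exact Nat.mul_le_mul (by omega) (by omega)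
    exact_mod_cast h6
  · intro k
    have hA1 : (A : ℝ) ≤ (max A (b + 2) : ℕ) := by exact_mod_cast le_max_left A (b + 2)
    have hd0 : (0 : ℝ) ≤ d := Nat.cast_nonneg _
    have h3 : max A (b + 2) ≤ k → (d : ℝ) * (k - (max A (b + 2) : ℕ)) ^ 2 ≤ 2 * hilb I k := by
      intro hk
      have hk' : ((max A (b + 2) : ℕ) : ℝ) ≤ k := by exact_mod_cast hk
      refine le_trans ?_ (h2 k ((le_max_left _ _).trans hk))
      refine mul_le_mul_of_nonneg_left ?_ hd0
      have h4 : 0 ≤ (k : ℝ) - (max A (b + 2) : ℕ) := by linarith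
      have h5 : (k : ℝ) - (max A (b + 2) : ℕ) ≤ k - A := by linarith
      exact pow_le_pow_left₀ h4 h5 2
    refine ⟨?_, h3⟩
    rcases le_total (max A (b + 2)) k with hk | hk
    · have := h3 hk
      have h4 : 0 ≤ (d : ℝ) * ((max A (b + 2) : ℕ) : ℝ) ^ 2 := by positivity
      linarith
    · have h4 : (k : ℝ) ≤ (max A (b + 2) : ℕ) := by exact_mod_cast hk
      have h5 : (0 : ℝ) ≤ k := Nat.cast_nonneg _
      have h6 : ((k : ℝ) - (max A (b + 2) : ℕ)) ^ 2 ≤ ((max A (b + 2) : ℕ) : ℝ) ^ 2 := by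
        nlinarith
      have h7 : (0 : ℝ) ≤ 2 * hilb I k := by positivity
      nlinarith

/-- the intersection of a surface with a form has linear growth, with slope at most `d m` on
average -/
theorem inter_growth {I : Ideal (Poly N)} (hI : IsSurface I) {d : ℕ} (hd : surfDeg I = d)
    {G : Poly N} {m : ℕ} (hG : G.IsHomogeneous m) (hGI : G ∉ I) :
    (∃ C : ℕ, ∀ k, hilb (I ⊔ Ideal.span {G}) k ≤ C * (k + 1)) ∧
      ∀ D C : ℝ, (∀ k : ℕ, D * k - C ≤ hilb (I ⊔ Ideal.span {G}) k) → D ≤ d * m := by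
  obtain ⟨d', A, hd1, hd', hup, hlow⟩ := surf_growth hI
  obtain rfl : d' = d := by
    rw [hd'] at hd
    exact_mod_cast hd
  have hd0 : (0 : ℝ) < d' := by exact_mod_cast hd1
  have hm0 : (0 : ℝ) ≤ m := Nat.cast_nonneg _
  have hA0 : (0 : ℝ) ≤ A := Nat.cast_nonneg _
  have hmul := hilb_mul_le hI.prime hG hGI
  constructor
  · -- a crude linear bound
    obtain ⟨C, hC⟩ := exists_nat_ge (d' * ((A : ℝ) + m + 1) * (2 * A + m + 1) + d' * (A : ℝ) ^ 2 +
      d' * ((m : ℝ) + A) ^ 2)
    refine ⟨C, fun k => ?_⟩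
    have h1 : (hilb (I ⊔ Ideal.span {G}) k : ℝ) ≤ C * (k + 1) := by
      have hk0 : (0 : ℝ) ≤ k := Nat.cast_nonneg _
      rcases lt_or_ge k m with hk | hk
      · have h2 : (hilb (I ⊔ Ideal.span {G}) k : ℝ) ≤ hilb I k := by
          exact_mod_cast hilb_anti le_sup_left k
        have h3 := hup k
        have h4 : (k : ℝ) ≤ m := by exact_mod_cast hk.le
        have h5 : (d' : ℝ) * ((k : ℝ) + A) ^ 2 ≤ d' * ((m : ℝ) + A) ^ 2 := by gcongr
        have h6 : (hilb I k : ℝ) ≤ C := by
          have h7 : (0 : ℝ) ≤ d' * ((A : ℝ) + m + 1) * (2 * A + m + 1) + d' * (A : ℝ) ^ 2 := by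
            positivity
          have h8 : (0 : ℝ) ≤ hilb I k := Nat.cast_nonneg _
          linarith
        have h9 : (0 : ℝ) ≤ C := Nat.cast_nonneg _
        nlinarith
      · obtain ⟨j, rfl⟩ := Nat.exists_eq_add_of_le' hk
        have h2 : (hilb I j : ℝ) + hilb (I ⊔ Ideal.span {G}) (j + m) ≤ hilb I (j + m) := by
          exact_mod_cast hmul j
        have h3 := hup (j + m)
        have h4 := (hlow j).1
        have hj0 : (0 : ℝ) ≤ j := Nat.cast_nonneg _
        push_cast at h3 hC ⊢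
        have h5 : 2 * (hilb (I ⊔ Ideal.span {G}) (j + m) : ℝ) ≤
            d' * ((j : ℝ) + m + A) ^ 2 - d' * ((j : ℝ) - A) ^ 2 + d' * (A : ℝ) ^ 2 := by linarith
        have h6 : (d' : ℝ) * ((j : ℝ) + m + A) ^ 2 - d' * ((j : ℝ) - A) ^ 2 =
            d' * ((m + 2 * A) * (2 * j + m)) := by ring
        rw [h6] at h5
        have h7 : (d' : ℝ) * ((m + 2 * A) * (2 * j + m)) + d' * (A : ℝ) ^ 2 ≤
            2 * ((d' * ((A : ℝ) + m + 1) * (2 * A + m + 1) + d' * (A : ℝ) ^ 2 +
              d' * ((m : ℝ) + A) ^ 2) * (j + m + 1)) := by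
          have e1 : 0 ≤ (d' : ℝ) * m := by positivity
          have e2 : 0 ≤ (d' : ℝ) * A := by positivity
          have e3 : 0 ≤ (d' : ℝ) * m * j := by positivity
          have e4 : 0 ≤ (d' : ℝ) * A * j := by positivity
          have e5 : 0 ≤ (d' : ℝ) * m * A := by positivity
          have e6 : 0 ≤ (d' : ℝ) * A ^ 2 := by positivity
          have e7 : 0 ≤ (d' : ℝ) * m ^ 2 := by positivity
          have e8 : 0 ≤ (d' : ℝ) * A ^ 2 * j := by positivity
          have e9 : 0 ≤ (d' : ℝ) * m ^ 2 * j := by positivity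
          have e10 : 0 ≤ (d' : ℝ) * m * A * j := by positivity
          have e11 : 0 ≤ (d' : ℝ) * A ^ 2 * m := by positivity
          have e12 : 0 ≤ (d' : ℝ) * m ^ 2 * m := by positivity
          have e13 : 0 ≤ (d' : ℝ) * m * A * m := by positivity
          have e14 : 0 ≤ (d' : ℝ) * j := by positivity
          nlinarith
        have h8 : (d' * ((A : ℝ) + m + 1) * (2 * A + m + 1) + d' * (A : ℝ) ^ 2 +
              d' * ((m : ℝ) + A) ^ 2) * (j + m + 1) ≤ C * (j + m + 1) := by gcongr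
        linarith
    exact_mod_cast h1
  · intro D C hDC
    -- telescoping
    have h1 : ∀ K : ℕ, ∑ k ∈ Finset.range K, hilb (I ⊔ Ideal.span {G}) (k + m) ≤
        ∑ k ∈ Finset.range m, hilb I (K + k) := by
      intro K
      have h0 : ∑ k ∈ Finset.range K, hilb (I ⊔ Ideal.span {G}) (k + m) +
          ∑ k ∈ Finset.range m, hilb I k ≤ ∑ k ∈ Finset.range m, hilb I (K + k) := by
        induction K with
        | zero => simp
        | succ K ih =>
          rw [Finset.sum_range_succ]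
          have h2 := hmul K
          have h3 : ∑ k ∈ Finset.range m, hilb I (K + 1 + k) + hilb I K =
              ∑ k ∈ Finset.range m, hilb I (K + k) + hilb I (K + m) := by
            have h4 := Finset.sum_range_succ (fun k => hilb I (K + k)) m
            have h5 := Finset.sum_range_succ' (fun k => hilb I (K + k)) m
            simp only [add_zero] at h5
            have h6 : ∀ k, K + 1 + k = K + (k + 1) := fun k => by omega
            simp only [h6]
            omega
          omega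
      omega
    by_contra hcon
    push Not at hcon
    set B1 : ℝ := D * (1 - 2 * m) + 2 * C + 2 * m * d' * (m + A) with hB1
    set B0 : ℝ := m * d' * ((m : ℝ) + A) ^ 2 with hB0
    have hB00 : 0 ≤ B0 := by positivity
    have hg : 0 < D - d' * m := by linarith
    obtain ⟨K, hK⟩ := exists_nat_gt ((|B1| + B0) / (D - d' * m) + 1)
    have hq : 0 ≤ (|B1| + B0) / (D - d' * m) := by positivity
    have hK1 : (1 : ℝ) < K := by linarith
    have hK2 : (|B1| + B0) / (D - d' * m) < K := by linarith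
    rw [div_lt_iff₀ hg] at hK2
    have h2 : ∑ k ∈ Finset.range K, (D * ((k + m : ℕ) : ℝ) - C) ≤
        ∑ k ∈ Finset.range K, (hilb (I ⊔ Ideal.span {G}) (k + m) : ℝ) :=
      Finset.sum_le_sum fun k _ => hDC (k + m)
    have h3 : (∑ k ∈ Finset.range K, (hilb (I ⊔ Ideal.span {G}) (k + m) : ℝ)) ≤
        ∑ k ∈ Finset.range m, (hilb I (K + k) : ℝ) := by exact_mod_cast h1 K
    have h4 : ∑ k ∈ Finset.range m, (hilb I (K + k) : ℝ) ≤
        m * (d' * ((K : ℝ) + m + A) ^ 2 / 2) := by
      have h5 : ∀ k ∈ Finset.range m, (hilb I (K + k) : ℝ) ≤ d' * ((K : ℝ) + m + A) ^ 2 / 2 := by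
        intro k hk
        have h6 := hup (K + k)
        have h7 : (k : ℝ) ≤ m := by exact_mod_cast (Finset.mem_range.1 hk).le
        have h8 : (d' : ℝ) * (((K + k : ℕ) : ℝ) + A) ^ 2 ≤ d' * ((K : ℝ) + m + A) ^ 2 := by
          push_cast
          gcongr
        linarith
      have h6 := Finset.sum_le_sum h5
      rwa [Finset.sum_const, Finset.card_range, nsmul_eq_mul] at h6
    have h5 : ∀ K : ℕ, 2 * ∑ k ∈ Finset.range K, (D * ((k + m : ℕ) : ℝ) - C) =
        D * ((K : ℝ) ^ 2 - K + 2 * m * K) - 2 * C * K := by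
      intro K
      induction K with
      | zero => simp
      | succ K ih =>
        rw [Finset.sum_range_succ, mul_add, ih]
        push_cast
        ring
    have h6 := h5 K
    have h7 : (D - d' * m) * (K : ℝ) ^ 2 ≤ B1 * K + B0 := by
      rw [hB1, hB0]
      nlinarith
    have h8 : B1 * (K : ℝ) ≤ |B1| * K := by
      have := le_abs_self B1
      gcongr
    have h9 : |B1| * (K : ℝ) + B0 ≤ (|B1| + B0) * K := by nlinarith
    have h10 : (|B1| + B0) * (K : ℝ) < K * (D - d' * m) * K := by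
      exact mul_lt_mul_of_pos_right hK2 (by linarith)
    nlinarith

end Pool.Agent.Lib.MP_ed661f_ag.S.Up
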