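import Pool.Agent.Lib.MP_ed661f_ag.S.Up.Nef

/-!
Nonnegative classes have nonnegative square: if `∑ ρ i mult P (v i) ≤ deg P` for all curves `P` on
an irreducible surface of degree `d` in a projective space, at points `v i` of multiplicities
`e i`, then `∑ e i (ρ i) ^ 2 ≤ d`.
-/

set_option autoImplicit false

open MvPolynomial Filter
open scoped ENNReal Topology

namespace Pool.Agent.Lib.MP_ed661f_ag.S.Up

open Pool.Agent.Lib.MP_ed661f_ag.H

variable {N : ℕ}

/-- the inequality for the ideal of a curve, with weights -/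
theorem wd_curveW {n : ℕ} {P : Ideal (Poly N)} {l : Poly N} {v : Fin n → Fin (N + 1) → ℂ}
    {ρ : Fin n → ℝ} (hρ : ∀ i, 0 ≤ ρ i) (hdeg : deg P ≠ ⊤)
    (hlim : ∀ i, ∃ e C : ℕ, mult P (v i) = e ∧ ∀ t, lam P l (v i) t ≤ e * t + C)
    (h : ∑ i, ENNReal.ofReal (ρ i) * mult P (v i) ≤ deg P) :
    WD ρ (fun i => lam P l (v i)) (hilb P) := by
  choose e C hm hC using hlim
  set D : ℝ := (deg P).toReal with hD
  have h1 : ∑ i, ρ i * e i ≤ D := by
    have h2 := ENNReal.toReal_mono hdeg h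
    rw [ENNReal.toReal_sum] at h2
    · refine le_trans (le_of_eq ?_) h2
      refine Finset.sum_congr rfl fun i _ => ?_
      rw [hm i, ENNReal.toReal_mul, ENNReal.toReal_ofReal (hρ i), ENNReal.toReal_natCast]
    · intro i _
      rw [hm i]
      exact ENNReal.mul_ne_top ENNReal.ofReal_ne_top (ENNReal.natCast_ne_top _)
  intro a ha0
  have h3 : ∃ C : ℝ, ∀ k, (D - a) * k - C ≤ hilb P k := by
    rcases le_or_gt (D - a) 0 with hneg | hpos
    · refine ⟨0, fun k => ?_⟩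
      have h5 : (0 : ℝ) ≤ hilb P k := Nat.cast_nonneg _
      have h6 : (D - a) * (k : ℝ) ≤ 0 := mul_nonpos_of_nonpos_of_nonneg hneg (Nat.cast_nonneg _)
      linarith
    · have h4 : ENNReal.ofReal (D - a) < deg P := by
        rw [← ENNReal.ofReal_toReal hdeg]
        exact (ENNReal.ofReal_lt_ofReal_iff (by rw [← hD]; linarith)).2 (by rw [← hD]; linarith)
      have h5 := eventually_lt_of_lt_liminf h4 (by isBoundedDefault)
      obtain ⟨T, hT⟩ := eventually_atTop.1 h5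
      refine ⟨(D - a) * (T + 1), fun k => ?_⟩
      rcases le_total (T + 1) k with hk | hk
      · have h6 := hT k (by omega)
        have hk0 : (0 : ℝ) < k := by
          have : 0 < k := by omega
          exact_mod_cast this
        rw [cast_div_eq (by omega)] at h6
        have h7 := (ENNReal.ofReal_lt_ofReal_iff_of_nonneg hpos.le).1 h6
        rw [lt_div_iff₀ hk0] at h7
        have h8 : 0 ≤ (D - a) * ((T : ℝ) + 1) := by positivity
        linarith
      · have h6 : (k : ℝ) ≤ T + 1 := by exact_mod_cast hk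
        have h7 : (D - a) * (k : ℝ) ≤ (D - a) * (T + 1) := mul_le_mul_of_nonneg_left h6 hpos.le
        have h8 : (0 : ℝ) ≤ hilb P k := Nat.cast_nonneg _
        linarith
  obtain ⟨C1, hC1⟩ := h3
  refine ⟨fun i => e i, D - a, ∑ i, (C i : ℝ) + |C1|, ?_, ?_, ?_⟩
  · linarith
  · intro i s
    have h4 : (lam P l (v i) s : ℝ) ≤ e i * s + C i := by exact_mod_cast hC i s
    have h5 : (C i : ℝ) ≤ ∑ i, (C i : ℝ) :=
      Finset.single_le_sum (f := fun i => (C i : ℝ)) (fun _ _ => Nat.cast_nonneg _)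
        (Finset.mem_univ i)
    have h6 := abs_nonneg C1
    linarith
  · intro k
    have h4 := hC1 k
    have h5 : (0 : ℝ) ≤ ∑ i, (C i : ℝ) := Finset.sum_nonneg fun _ _ => Nat.cast_nonneg _
    have h6 := le_abs_self C1
    linarith

/-- forms outside `J` with prescribed jets of several orders -/
theorem exists_form_jetsW {n : ℕ} {J : Ideal (Poly N)} {l : Poly N} {v : Fin n → Fin (N + 1) → ℂ}
    {w : Fin n → ℕ} {m : ℕ} (h : ∑ i, lam J l (v i) (w i) < hilb J m) :
    ∃ G : Poly N, G.IsHomogeneous m ∧ G ∉ J ∧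
      ∀ i, G ∈ J ⊔ vecIdeal (v i) ^ w i ⊔ Ideal.span {l - 1} := by
  have hfin0 := finite_formsN (N := N) m
  set W : Submodule ℂ (Poly N ⧸ J) :=
    (homogeneousSubmodule (Fin (N + 1)) ℂ m).map (Ideal.Quotient.mkₐ ℂ J).toLinearMap with hW
  have hfW : Module.Finite ℂ W := by
    rw [hW]
    infer_instance
  have hf : ∀ i, Module.Finite ℂ (Poly N ⧸ (J ⊔ vecIdeal (v i) ^ w i ⊔ Ideal.span {l - 1})) :=
    fun i => finite_quot (v := v i) (s := w i) (le_sup_right.trans le_sup_left)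
  have hle : ∀ i, J ≤ J ⊔ vecIdeal (v i) ^ w i ⊔ Ideal.span {l - 1} :=
    fun i => le_sup_left.trans le_sup_left
  let φ : W →ₗ[ℂ] (∀ i, Poly N ⧸ (J ⊔ vecIdeal (v i) ^ w i ⊔ Ideal.span {l - 1})) :=
    LinearMap.pi fun i => (Ideal.Quotient.factorₐ ℂ (hle i)).toLinearMap.comp W.subtype
  have h1 := LinearMap.finrank_range_add_finrank_ker φ
  have h2 : Module.finrank ℂ (LinearMap.range φ) ≤ ∑ i, lam J l (v i) (w i) := by
    refine (Submodule.finrank_le _).trans ?_
    rw [Module.finrank_pi_fintype]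
    rfl
  have h3 : 0 < Module.finrank ℂ (LinearMap.ker φ) := by
    have : Module.finrank ℂ W = hilb J m := rfl
    omega
  have h3' : LinearMap.ker φ ≠ ⊥ := by
    intro h
    rw [h, finrank_bot] at h3
    omega
  obtain ⟨⟨x, hx⟩, hxk, hx0⟩ := Submodule.exists_mem_ne_zero_of_ne_bot h3'
  obtain ⟨G, hG, hGx⟩ := hx
  have hGx' : Ideal.Quotient.mk J G = x := hGx
  refine ⟨G, hG, ?_, ?_⟩
  · intro hGJ
    apply hx0
    apply Subtype.ext
    show x = 0
    rw [← hGx', Ideal.Quotient.eq_zero_iff_mem]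
    exact hGJ
  · intro i
    have h4 := congrFun (LinearMap.mem_ker.1 hxk) i
    have h5 : Ideal.Quotient.factorₐ ℂ (hle i) x = 0 := h4
    rw [← hGx'] at h5
    have h6 : Ideal.Quotient.mk (J ⊔ vecIdeal (v i) ^ w i ⊔ Ideal.span {l - 1}) G = 0 := h5
    rwa [Ideal.Quotient.eq_zero_iff_mem] at h6

/-- a point of multiplicity `e` of the variety with ideal `I` -/
structure HS (I : Ideal (Poly N)) (l : Poly N) (v : Fin (N + 1) → ℂ) (e : ℕ) : Prop where
  one : eval v l = 1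
  up : ∃ C : ℝ, 0 ≤ C ∧ ∀ w : ℕ, (lam I l v w : ℝ) ≤ e * (w : ℝ) ^ 2 / 2 + C * (w + 1)
  step : ∀ w : ℕ, ∃ C : ℝ, ∀ s : ℕ, (e : ℝ) * w * s - C ≤ lam I l v s - lam I l v (s - w)

/-- smooth points have multiplicity one -/
theorem HS.of_smooth {I : Ideal (Poly N)} {l : Poly N} {v : Fin (N + 1) → ℂ}
    (hlv : eval v l = 1) (h : ∀ s, 2 * lam I l v s = s * (s + 1)) : HS I l v 1 := by
  have h' : ∀ s : ℕ, (2 * lam I l v s : ℝ) = s * (s + 1) := fun s => by exact_mod_cast h s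
  refine ⟨hlv, ⟨1, zero_le_one, fun w => ?_⟩, fun w => ⟨(w : ℝ) ^ 2, fun s => ?_⟩⟩
  · have h1 := h' w
    have h2 : (0 : ℝ) ≤ w := Nat.cast_nonneg _
    push_cast
    linarith
  · have h1 := h' s
    have h2 := h' (s - w)
    have hw : (0 : ℝ) ≤ w := Nat.cast_nonneg _
    have hs : (0 : ℝ) ≤ s := Nat.cast_nonneg _
    push_cast at h2 ⊢
    rcases le_total w s with hws | hws
    · rw [Nat.cast_sub hws] at h2
      nlinarith
    · have h3 : s - w = 0 := by omega
      rw [h3] at h2 ⊢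
      have h4 : (s : ℝ) ≤ w := by exact_mod_cast hws
      push_cast at h2
      nlinarith

/-- points of a surface in the projective space of dimension three -/
theorem HS.of_hypersurface {l : Poly 3} (hl : l.IsHomogeneous 1) {v : Fin 4 → ℂ}
    (hlv : eval v l = 1) {F : Poly 3} {d e : ℕ} (hF : F.IsHomogeneous d)
    (h1 : F ∈ vecIdeal v ^ e) (h2 : F ∉ vecIdeal v ^ (e + 1)) : HS (Ideal.span {F}) l v e := by
  have he : (0 : ℝ) ≤ e := Nat.cast_nonneg _
  refine ⟨hlv, ⟨((e : ℝ) + 2) ^ 3, by positivity, fun w => ?_⟩,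
    fun w => ⟨(e : ℝ) * w * (w + e + 1), fun s => ?_⟩⟩
  · have h3 := lam_hyp_le hl hlv hF h1 h2 w
    have hw : (0 : ℝ) ≤ w := Nat.cast_nonneg _
    have h4 : (e : ℝ) ≤ ((e : ℝ) + 2) ^ 3 := by nlinarith [mul_nonneg he he]
    have h5 : (e : ℝ) * w ≤ ((e : ℝ) + 2) ^ 3 * w := by gcongr
    linarith
  · have hw : (0 : ℝ) ≤ w := Nat.cast_nonneg _
    rcases lt_or_ge s (w + e + 1) with hs | hs
    · have h3 : (s : ℝ) ≤ w + e + 1 := by exact_mod_cast hs.le
      have h4 : (lam (Ideal.span {F}) l v (s - w) : ℝ) ≤ lam (Ideal.span {F}) l v s := by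
        exact_mod_cast lam_mono (Nat.sub_le s w)
      have h5 : (e : ℝ) * w * s ≤ e * w * (w + e + 1) := by gcongr
      linarith
    · obtain ⟨t, rfl⟩ : ∃ t, s = t + w + 1 := ⟨s - w - 1, by omega⟩
      have h4 : t + w + 1 - w = t + 1 := by omega
      rw [h4, lam_formula hl hlv hF h1 h2 (t + w) (by omega),
        lam_formula hl hlv hF h1 h2 t (by omega)]
      push_cast
      have ht : (0 : ℝ) ≤ t := Nat.cast_nonneg _
      nlinarith [mul_nonneg he hw, mul_nonneg (mul_nonneg he hw) hw,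
        mul_nonneg (mul_nonneg he he) hw]

/-- **the key inequality, with weights** -/
theorem keyW {n d m : ℕ} {I : Ideal (Poly N)} (hI : IsSurface I) (hd : surfDeg I = d)
    {G l : Poly N} (hG : G.IsHomogeneous m) (hGI : G ∉ I) (hl : l.IsHomogeneous 1)
    {v : Fin n → Fin (N + 1) → ℂ} {e : Fin n → ℕ} (hv : ∀ i, HS I l (v i) (e i)) {w : Fin n → ℕ}
    (hGv : ∀ i, G ∈ I ⊔ vecIdeal (v i) ^ w i ⊔ Ideal.span {l - 1}) {ρ : Fin n → ℝ}
    (hρ : ∀ i, 0 ≤ ρ i)
    (H : ∀ P, IsCurveOn I P → ∑ i, ENNReal.ofReal (ρ i) * mult P (v i) ≤ deg P) :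
    ∑ i, ρ i * (e i * w i) ≤ d * m := by
  set J := I ⊔ Ideal.span {G} with hJ
  have hJh : Homog J := homog_sup_single hI.homogeneous hG
  obtain ⟨⟨C1, hC1⟩, hD⟩ := inter_growth hI hd hG hGI
  have hW : WD ρ (fun i => lam J l (v i)) (hilb J) := by
    refine devissage (A := J) (fun P hP hh hJP => ?_) J hJh le_rfl
    have hFP : I ≤ P := le_sup_left.trans hJP
    have hC : ∀ k, hilb P k ≤ C1 * (k + 1) := fun k => (hilb_anti hJP k).trans (hC1 k)
    rcases curve_or_bounded hP hh hFP hC hl with hcur | hb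
    · refine wd_curveW hρ (deg_curve hcur).2 (fun i => ?_) (H P hcur)
      obtain ⟨e', C, a1, a2⟩ := exists_mult_linear hP hh hcur.dim hl
        (fun s => jetDim_eq hh hl (hv i).one s)
      exact ⟨e', C, a1, fun t => (a2 t).1⟩
    · exact WD.of_bounded fun i => hb (v i)
  refine le_of_forall_pos_le_add fun η hη => ?_
  obtain ⟨M, D, C, a1, a2, a3⟩ := hW η hη
  have h3 : ∀ i, (e i : ℝ) * w i ≤ M i := by
    intro i
    obtain ⟨C', hC'⟩ := (hv i).step (w i)
    refine slope_le (b := C') (e := C) fun s => ?_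
    have h4 : (lam I l (v i) s : ℝ) ≤ lam J l (v i) s + lam I l (v i) (s - w i) := by
      exact_mod_cast lam_le_sup_add (hGv i) s
    have h5 := hC' s
    have h6 := a2 i s
    linarith
  have h4 : D ≤ d * m := hD D C a3
  have h5 : ∑ i, ρ i * (e i * w i) ≤ ∑ i, ρ i * M i :=
    Finset.sum_le_sum fun i _ => mul_le_mul_of_nonneg_left (h3 i) (hρ i)
  linarith

/-- large numbers -/
theorem exists_large {a : ℝ} (ha : 0 < a) (b c : ℝ) : ∃ m0 : ℕ, ∀ m : ℕ, m0 ≤ m →
    b * m + c < a * (m : ℝ) ^ 2 := by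
  obtain ⟨m0, hm0⟩ := exists_nat_gt ((|b| + |c|) / a + 1)
  refine ⟨m0, fun m hm => ?_⟩
  have h1 : (m0 : ℝ) ≤ m := by exact_mod_cast hm
  have h2 : 0 ≤ (|b| + |c|) / a := by positivity
  have h3 : 1 < (m : ℝ) := by linarith
  have h4 : (|b| + |c|) / a < m := by linarith
  rw [div_lt_iff₀ ha] at h4
  have h5 : b * m ≤ |b| * m := by
    have := le_abs_self b
    gcongr
  have h6 := le_abs_self c
  have h7 : |c| ≤ |c| * m := le_mul_of_one_le_right (abs_nonneg c) h3.le
  have h8 : (|b| + |c|) * m < m * a * m := mul_lt_mul_of_pos_right h4 (by linarith)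
  nlinarith

/-- **nonnegative classes have nonnegative square**: if `∑ ρ i mult P (v i) ≤ deg P` for all
curves `P` on the surface, then `∑ e i (ρ i) ^ 2` is at most the degree of the surface -/
theorem nef_sq_le {n d : ℕ} {I : Ideal (Poly N)} (hI : IsSurface I) (hd : surfDeg I = d)
    {l : Poly N} (hl : l.IsHomogeneous 1) {v : Fin n → Fin (N + 1) → ℂ} {e : Fin n → ℕ}
    (hv : ∀ i, HS I l (v i) (e i)) {ρ : Fin n → ℝ} (hρ : ∀ i, 0 ≤ ρ i)
    (H : ∀ P, IsCurveOn I P → ∑ i, ENNReal.ofReal (ρ i) * mult P (v i) ≤ deg P) :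
    ∑ i, e i * ρ i ^ 2 ≤ d := by
  by_contra hcon
  push Not at hcon
  set Q : ℝ := ∑ i, e i * ρ i ^ 2 with hQ
  obtain ⟨d', A, hd1, hd', hup, hlow⟩ := surf_growth hI
  obtain rfl : d' = d := by
    rw [hd'] at hd
    exact_mod_cast hd
  have hd0 : (0 : ℝ) < d' := by exact_mod_cast hd1
  have hQ0 : 0 < Q := hd0.trans hcon
  -- the scaling factor
  obtain ⟨t, ht0, ht1, ht2⟩ : ∃ t : ℝ, 0 < t ∧ t ^ 2 * Q < d' ∧ d' < t * Q := by
    set r : ℝ := d' / Q with hr
    have hr0 : 0 < r := by positivity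
    have hr1 : r < 1 := (div_lt_one hQ0).2 hcon
    have hrQ : r * Q = d' := by rw [hr]; field_simp
    have h1 : r < Real.sqrt r := by
      apply Real.lt_sqrt_of_sq_lt
      nlinarith
    have h2 : Real.sqrt r ^ 2 = r := Real.sq_sqrt hr0.le
    refine ⟨(r + Real.sqrt r) / 2, by positivity, ?_, ?_⟩
    · have h3 : ((r + Real.sqrt r) / 2) ^ 2 < r := by
        nlinarith
      calc ((r + Real.sqrt r) / 2) ^ 2 * Q < r * Q := by gcongr
        _ = d' := hrQ
    · rw [← hrQ]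
      have h3 : r < (r + Real.sqrt r) / 2 := by linarith
      gcongr
  choose C hC0 hC using fun i => (hv i).up
  set R : ℝ := ∑ i, e i * ρ i with hR
  -- the numbers
  obtain ⟨m1, hm1⟩ := exists_large (a := (d' - t ^ 2 * Q) / 2) (by linarith)
    (d' * A + ∑ i, C i * (t * ρ i)) (∑ i, C i)
  obtain ⟨m2, hm2⟩ := exists_large (a := t * Q - d') (by linarith) R 0
  set m : ℕ := m1 + m2 + A + 1 with hm
  have hm0 : (0 : ℝ) < m := by
    have : 0 < m := by omega
    exact_mod_cast this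
  have h1 := hm1 m (by omega)
  have h2 := hm2 m (by omega)
  set w : Fin n → ℕ := fun i => ⌊t * ρ i * m⌋₊ with hw
  have hw1 : ∀ i, (w i : ℝ) ≤ t * ρ i * m := fun i =>
    Nat.floor_le (by have := hρ i; positivity)
  have hw2 : ∀ i, t * ρ i * m - 1 ≤ w i := fun i => by
    have := Nat.lt_floor_add_one (t * ρ i * (m : ℝ))
    show t * ρ i * m - 1 ≤ (⌊t * ρ i * m⌋₊ : ℝ)
    linarith
  -- the form
  obtain ⟨G, hG, hGI, hGv⟩ := exists_form_jetsW (J := I) (l := l) (v := v) (w := w) (m := m) (by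
    have h3 : (∑ i, lam I l (v i) (w i) : ℝ) ≤
        ∑ i, (e i * (t * ρ i * m) ^ 2 / 2 + C i * (t * ρ i * m + 1)) := by
      refine Finset.sum_le_sum fun i _ => (hC i (w i)).trans ?_
      have h4 := hw1 i
      have h5 : (0 : ℝ) ≤ w i := Nat.cast_nonneg _
      have h6 := hC0 i
      have h7 : (w i : ℝ) ^ 2 ≤ (t * ρ i * m) ^ 2 := by gcongr
      have h8 : (e i : ℝ) * (w i : ℝ) ^ 2 ≤ e i * (t * ρ i * m) ^ 2 := by gcongr
      have h9 : C i * ((w i : ℝ) + 1) ≤ C i * (t * ρ i * m + 1) := by gcongr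
      linarith
    have h4 : ∑ i, (e i * (t * ρ i * m) ^ 2 / 2 + C i * (t * ρ i * m + 1)) =
        t ^ 2 * Q / 2 * (m : ℝ) ^ 2 + (∑ i, C i * (t * ρ i)) * m + ∑ i, C i := by
      rw [hQ, Finset.mul_sum, Finset.sum_div, Finset.sum_mul, Finset.sum_mul,
        ← Finset.sum_add_distrib, ← Finset.sum_add_distrib]
      refine Finset.sum_congr rfl fun i _ => ?_
      ring
    have h5 := (hlow m).2 (by omega)
    have h6 : (∑ i, lam I l (v i) (w i) : ℝ) < hilb I m := by
      have hA0 : 0 ≤ (d' : ℝ) * (A : ℝ) ^ 2 := by positivity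
      nlinarith
    exact_mod_cast h6)
  have h3 := keyW hI hd' hG hGI hl hv hGv hρ H
  have h4 : t * Q * m - R ≤ ∑ i, ρ i * (e i * w i) := by
    rw [hQ, hR, Finset.mul_sum, Finset.sum_mul, ← Finset.sum_sub_distrib]
    refine Finset.sum_le_sum fun i _ => ?_
    have h5 := hw2 i
    have h6 := hρ i
    have h7 : (0 : ℝ) ≤ e i := Nat.cast_nonneg _
    have h8 : ρ i * (e i * (t * ρ i * m - 1)) ≤ ρ i * (e i * w i) := by gcongr
    nlinarith
  have hm1' : (1 : ℝ) ≤ m := by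
    have : 1 ≤ m := by omega
    exact_mod_cast this
  have hR0 : 0 ≤ R := Finset.sum_nonneg fun i _ => mul_nonneg (Nat.cast_nonneg _) (hρ i)
  nlinarith

end Pool.Agent.Lib.MP_ed661f_ag.S.Up
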