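import Pool.Agent.Lib.MP_ed661f_ag.S.Up.Jet
import Pool.Agent.Lib.MP_ed661f_ag.H.FormsDim

/-!
The dimensions of the rings of jets of a hypersurface at a point.
-/

set_option autoImplicit false

open MvPolynomial

namespace Pool.Agent.Lib.MP_ed661f_ag.S.Up

open Pool.Agent.Lib.MP_ed661f_ag.H

variable {N : ℕ}

/-- translation -/
noncomputable def tr (v : Fin (N + 1) → ℂ) : Poly N →ₐ[ℂ] Poly N := aeval fun i => X i + C (v i)

theorem tr_tr (v w : Fin (N + 1) → ℂ) (F : Poly N) : tr v (tr w F) = tr (v + w) F := by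
  have h : (tr v).comp (tr w) = tr (v + w) := by
    refine MvPolynomial.algHom_ext fun i => ?_
    have e1 : ∀ a : ℂ, (C a : Poly N) = algebraMap ℂ (Poly N) a := fun _ => rfl
    simp only [tr, AlgHom.comp_apply, aeval_X, map_add, Pi.add_apply]
    rw [e1 (w i), AlgHom.commutes, ← e1]
    ring
  exact DFunLike.congr_fun h F

theorem tr_zero (F : Poly N) : tr 0 F = F := by
  have h : (tr (0 : Fin (N + 1) → ℂ)) = AlgHom.id ℂ (Poly N) := by
    refine MvPolynomial.algHom_ext fun i => ?_
    simp [tr]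
  exact DFunLike.congr_fun h F

/-- translation as an isomorphism -/
noncomputable def trE (v : Fin (N + 1) → ℂ) : Poly N ≃+* Poly N where
  toFun := tr v
  invFun := tr (-v)
  left_inv := fun F => by rw [tr_tr, neg_add_cancel, tr_zero]
  right_inv := fun F => by rw [tr_tr, add_neg_cancel, tr_zero]
  map_mul' := map_mul _
  map_add' := map_add _

theorem eval_tr (v : Fin (N + 1) → ℂ) (F : Poly N) : eval 0 (tr v F) = eval v F := by
  have h : ((eval (0 : Fin (N + 1) → ℂ)).comp (tr v).toRingHom) = eval v := by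
    refine MvPolynomial.ringHom_ext ?_ ?_
    · intro a
      have e1 : (C a : Poly N) = algebraMap ℂ (Poly N) a := rfl
      simp only [RingHom.comp_apply, AlgHom.toRingHom_eq_coe, RingHom.coe_coe]
      rw [e1, AlgHom.commutes, ← e1, eval_C, eval_C]
    · intro i
      simp [tr]
  exact DFunLike.congr_fun h F

theorem vecIdeal_eq_comap (v : Fin (N + 1) → ℂ) :
    vecIdeal v = Ideal.comap (trE v) (idealOfVars (Fin (N + 1)) ℂ) := by
  ext F
  rw [Ideal.mem_comap, ← pow_one (idealOfVars (Fin (N + 1)) ℂ), mem_pow_idealOfVars_iff']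
  have h1 : trE v F = tr v F := rfl
  rw [vecIdeal, RingHom.mem_ker, h1, ← eval_tr]
  have h2 : eval (0 : Fin (N + 1) → ℂ) (tr v F) = coeff 0 (tr v F) := by
    rw [← constantCoeff_eq, ← MvPolynomial.eval_zero]
  rw [h2]
  constructor
  · intro h x hx
    have : x = 0 := by
      rw [← Finsupp.degree_eq_zero_iff]
      omega
    rw [this, h]
  · intro h
    exact h 0 (by simp)

theorem mem_pow_iff {v : Fin (N + 1) → ℂ} {F : Poly N} {s : ℕ} :
    F ∈ vecIdeal v ^ s ↔ ∀ x : Fin (N + 1) →₀ ℕ, x.degree < s → (tr v F).coeff x = 0 := by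
  rw [vecIdeal_eq_comap, ← Ideal.map_symm, ← Ideal.map_pow, Ideal.map_symm, Ideal.mem_comap,
    mem_pow_idealOfVars_iff']
  rfl

theorem mem_pow_iff_order {v : Fin (N + 1) → ℂ} {F : Poly N} {s : ℕ} :
    F ∈ vecIdeal v ^ s ↔ (s : ℕ∞) ≤ ((tr v F : Poly N) : MvPowerSeries (Fin (N + 1)) ℂ).order := by
  rw [mem_pow_iff]
  constructor
  · intro h
    refine MvPowerSeries.nat_le_order fun d hd => ?_
    rw [coeff_coe]
    exact h d hd
  · intro h x hx
    rw [← coeff_coe]
    refine MvPowerSeries.coeff_of_lt_order (lt_of_lt_of_le ?_ h)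
    exact_mod_cast hx

/-- the order of a product -/
theorem mem_pow_of_mul {v : Fin (N + 1) → ℂ} {F a : Poly N} {e r : ℕ}
    (hF : F ∉ vecIdeal v ^ (e + 1)) (h : F * a ∈ vecIdeal v ^ r) : a ∈ vecIdeal v ^ (r - e) := by
  rw [mem_pow_iff_order] at hF h ⊢
  rw [map_mul, coe_mul, MvPowerSeries.order_mul] at h
  rw [not_le] at hF
  rcases eq_or_ne ((tr v a : Poly N) : MvPowerSeries (Fin (N + 1)) ℂ).order ⊤ with h1 | h1
  · rw [h1]
    exact le_top
  · obtain ⟨p, hp⟩ := ENat.ne_top_iff_exists.1 h1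
    obtain ⟨q, hq⟩ := ENat.ne_top_iff_exists.1 (ne_top_of_lt hF)
    rw [← hp, ← hq] at h
    rw [← hq] at hF
    rw [← hp]
    have h2 : q < e + 1 := by exact_mod_cast hF
    have h3 : r ≤ q + p := by exact_mod_cast h
    have h4 : r - e ≤ p := by omega
    exact_mod_cast h4

/-- a nonzero polynomial has an order -/
theorem exists_order (v : Fin (N + 1) → ℂ) {F : Poly N} (hF : F ≠ 0) (h0 : eval v F = 0) :
    ∃ e, 1 ≤ e ∧ F ∈ vecIdeal v ^ e ∧ F ∉ vecIdeal v ^ (e + 1) := by
  have h1 : tr v F ≠ 0 := by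
    intro h
    have h2 := tr_tr (-v) v F
    rw [h, map_zero, neg_add_cancel, tr_zero] at h2
    exact hF h2.symm
  have h2 : ((tr v F : Poly N) : MvPowerSeries (Fin (N + 1)) ℂ).order ≠ ⊤ := by
    rw [Ne, MvPowerSeries.order_eq_top_iff, coe_eq_zero_iff]
    exact h1
  obtain ⟨e, he⟩ := ENat.ne_top_iff_exists.1 h2
  refine ⟨e, ?_, ?_, ?_⟩
  · have h3 : F ∈ vecIdeal v ^ 1 := by
      rw [pow_one, vecIdeal, RingHom.mem_ker]
      exact h0
    rw [mem_pow_iff_order, ← he] at h3
    exact_mod_cast h3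
  · rw [mem_pow_iff_order, ← he]
  · rw [mem_pow_iff_order, ← he, not_le]
    exact_mod_cast Nat.lt_succ_self e

/-- the dimension of the ring of jets of the affine space -/
theorem finrank_jets (v : Fin (N + 1) → ℂ) (r : ℕ) :
    Module.finrank ℂ (Poly N ⧸ vecIdeal v ^ r) =
      ∑ k ∈ Finset.range r, Module.finrank ℂ (homogeneousSubmodule (Fin (N + 1)) ℂ k) := by
  let φ : Poly N →ₗ[ℂ] (∀ k : Fin r, homogeneousSubmodule (Fin (N + 1)) ℂ k) :=
    LinearMap.pi fun k => LinearMap.codRestrict _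
      ((homogeneousComponent (k : ℕ)).comp (tr v).toLinearMap)
      fun F => homogeneousComponent_mem _ _
  have hφ : ∀ F (k : Fin r), ((φ F k : _) : Poly N) = homogeneousComponent k (tr v F) :=
    fun F k => rfl
  have hker : LinearMap.ker φ = (vecIdeal v ^ r).restrictScalars ℂ := by
    ext F
    rw [LinearMap.mem_ker, Submodule.restrictScalars_mem, mem_pow_iff]
    constructor
    · intro h x hx
      have h1 := congrArg (fun z : homogeneousSubmodule (Fin (N + 1)) ℂ x.degree => (z : Poly N))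
        (congrFun h ⟨x.degree, hx⟩)
      have h2 : homogeneousComponent x.degree (tr v F) = 0 := h1
      have h3 := coeff_homogeneousComponent x.degree (tr v F) x
      rw [h2, if_pos rfl, coeff_zero] at h3
      exact h3.symm
    · intro h
      funext k
      apply Subtype.ext
      rw [hφ]
      refine MvPolynomial.ext _ _ fun x => ?_
      rw [coeff_homogeneousComponent]
      split_ifs with hx
      · rw [h x (by rw [hx]; exact k.2)]
        exact (coeff_zero x).symm
      · exact (coeff_zero x).symm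
  have hsurj : Function.Surjective φ := by
    intro z
    refine ⟨tr (-v) (∑ k : Fin r, (z k : Poly N)), ?_⟩
    funext k
    apply Subtype.ext
    rw [hφ, tr_tr, add_neg_cancel, tr_zero, map_sum, Finset.sum_eq_single k]
    · rw [homogeneousComponent_of_mem (z k).2, if_pos rfl]
    · intro j _ hj
      rw [homogeneousComponent_of_mem (z j).2, if_neg (fun h => hj (Fin.ext h.symm))]
    · intro h
      exact absurd (Finset.mem_univ k) h
  have e1 := (LinearMap.quotKerEquivOfSurjective φ hsurj).finrank_eq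
  rw [Module.finrank_pi_fintype, ← Finset.sum_range
    (fun k => Module.finrank ℂ (homogeneousSubmodule (Fin (N + 1)) ℂ k))] at e1
  rw [← e1, hker]
  rfl

/-- the dimension of the ring of jets of the cone over a hypersurface -/
theorem jetDim_hypersurface {v : Fin (N + 1) → ℂ} {F : Poly N} {e : ℕ}
    (h1 : F ∈ vecIdeal v ^ e) (h2 : F ∉ vecIdeal v ^ (e + 1)) (r : ℕ) :
    jetDim (Ideal.span {F}) v r + Module.finrank ℂ (Poly N ⧸ vecIdeal v ^ (r - e)) =
      Module.finrank ℂ (Poly N ⧸ vecIdeal v ^ r) := by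
  unfold jetDim
  set A := vecIdeal v ^ r with hA
  set A' := Ideal.span {F} ⊔ A with hA'
  set A'' := vecIdeal v ^ (r - e) with hA''
  have hf1 : Module.Finite ℂ (Poly N ⧸ A) := finite_quot (v := v) (s := r) le_rfl
  have hf2 : Module.Finite ℂ (Poly N ⧸ A'') := finite_quot (v := v) (s := r - e) le_rfl
  have hAA' : A ≤ A' := le_sup_right
  have hmul : ∀ a ∈ A'', F * a ∈ A := by
    intro a ha
    have h3 := Ideal.mul_mem_mul h1 ha
    rw [hA'', ← pow_add] at h3
    exact Ideal.pow_le_pow_right (by omega) h3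
  let f0 : Poly N →ₗ[ℂ] (Poly N ⧸ A) :=
    (Ideal.Quotient.mkₐ ℂ A).toLinearMap.comp (LinearMap.mulLeft ℂ F)
  let f : (Poly N ⧸ A'') →ₗ[ℂ] (Poly N ⧸ A) :=
    (Submodule.liftQ (A''.restrictScalars ℂ) f0 (by
      intro a ha
      rw [LinearMap.mem_ker]
      exact Ideal.Quotient.eq_zero_iff_mem.2 (hmul a ha)))
  have hfapp : ∀ a, f (Ideal.Quotient.mk A'' a) = Ideal.Quotient.mk A (F * a) := fun a => rfl
  have hfinj : Function.Injective f := by
    rw [← LinearMap.ker_eq_bot, eq_bot_iff]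
    intro x hx
    obtain ⟨a, rfl⟩ := Ideal.Quotient.mk_surjective x
    rw [LinearMap.mem_ker, hfapp, Ideal.Quotient.eq_zero_iff_mem] at hx
    rw [Submodule.mem_bot, Ideal.Quotient.eq_zero_iff_mem]
    exact mem_pow_of_mul h2 hx
  let g : (Poly N ⧸ A) →ₗ[ℂ] (Poly N ⧸ A') := (Ideal.Quotient.factorₐ ℂ hAA').toLinearMap
  have hgapp : ∀ a, g (Ideal.Quotient.mk A a) = Ideal.Quotient.mk A' a := fun a => rfl
  have hgs : Function.Surjective g := Ideal.Quotient.factor_surjective hAA'
  have hker : LinearMap.ker g = LinearMap.range f := by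
    ext x
    obtain ⟨a, rfl⟩ := Ideal.Quotient.mk_surjective x
    rw [LinearMap.mem_ker, hgapp, Ideal.Quotient.eq_zero_iff_mem]
    constructor
    · intro hx
      obtain ⟨c, hc, b, hb, rfl⟩ := Submodule.mem_sup.1 hx
      obtain ⟨d, rfl⟩ := Ideal.mem_span_singleton'.1 hc
      refine ⟨Ideal.Quotient.mk A'' d, ?_⟩
      rw [hfapp, map_add, Ideal.Quotient.eq_zero_iff_mem.2 hb, add_zero, mul_comm]
    · rintro ⟨z, hz⟩
      obtain ⟨d, rfl⟩ := Ideal.Quotient.mk_surjective z
      rw [hfapp, Ideal.Quotient.eq] at hz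
      have h3 : F * d ∈ A' := Ideal.mul_mem_right _ _ (Ideal.mem_sup_left
        (Ideal.mem_span_singleton_self F))
      have h4 := A'.sub_mem h3 (hAA' hz)
      rwa [sub_sub_cancel] at h4
  have e1 := LinearMap.finrank_range_add_finrank_ker g
  rw [LinearMap.range_eq_top.2 hgs, finrank_top, hker, LinearMap.finrank_range_of_inj hfinj] at e1
  exact e1

theorem homog_span {F : Poly N} {d : ℕ} (hF : F.IsHomogeneous d) : Homog (Ideal.span {F}) := by
  intro a ha k
  obtain ⟨c, rfl⟩ := Ideal.mem_span_singleton'.1 ha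
  rcases lt_or_ge k d with hk | hk
  · rw [component_mul_lt hF hk]
    exact Ideal.zero_mem _
  · obtain ⟨j, rfl⟩ := Nat.exists_eq_add_of_le' hk
    rw [component_mul hF]
    exact Ideal.mul_mem_left _ _ (Ideal.mem_span_singleton_self F)

/-- **the ring of jets of a hypersurface at a point of order `e`** -/
theorem lam_hypersurface {l : Poly N} (hl : l.IsHomogeneous 1) {v : Fin (N + 1) → ℂ}
    (hlv : eval v l = 1) {F : Poly N} {d e : ℕ} (hF : F.IsHomogeneous d)
    (h1 : F ∈ vecIdeal v ^ e) (h2 : F ∉ vecIdeal v ^ (e + 1)) (s : ℕ) (hs : e ≤ s) :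
    lam (Ideal.span {F}) l v (s + 1) +
      Module.finrank ℂ (homogeneousSubmodule (Fin (N + 1)) ℂ (s - e)) =
      Module.finrank ℂ (homogeneousSubmodule (Fin (N + 1)) ℂ s) := by
  have e1 := jetDim_hypersurface h1 h2 (s + 1)
  have e2 := jetDim_hypersurface h1 h2 s
  rw [jetDim_eq (homog_span hF) hl hlv, finrank_jets, finrank_jets] at e1 e2
  have e3 : s + 1 - e = s - e + 1 := by omega
  rw [e3, Finset.sum_range_succ, Finset.sum_range_succ, Finset.sum_range_succ] at e1
  omega

theorem lam_hypersurface_lt {l : Poly N} (hl : l.IsHomogeneous 1) {v : Fin (N + 1) → ℂ}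
    (hlv : eval v l = 1) {F : Poly N} {d e : ℕ} (hF : F.IsHomogeneous d)
    (h1 : F ∈ vecIdeal v ^ e) (h2 : F ∉ vecIdeal v ^ (e + 1)) (s : ℕ) (hs : s < e) :
    lam (Ideal.span {F}) l v (s + 1) =
      Module.finrank ℂ (homogeneousSubmodule (Fin (N + 1)) ℂ s) := by
  have e1 := jetDim_hypersurface h1 h2 (s + 1)
  have e2 := jetDim_hypersurface h1 h2 s
  rw [jetDim_eq (homog_span hF) hl hlv, finrank_jets, finrank_jets] at e1 e2
  have e3 : s + 1 - e = 0 := by omega
  have e4 : s - e = 0 := by omega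
  rw [e3, Finset.sum_range_succ, Finset.sum_range_succ, Finset.range_zero, Finset.sum_empty] at e1
  rw [e4, Finset.range_zero, Finset.sum_empty] at e2
  omega

end Pool.Agent.Lib.MP_ed661f_ag.S.Up
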