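import Pool.Agent.Lib.MP_ed661f_ag.S.Up.Branch
import Pool.Agent.Lib.MP_ed661f_ag.S.Up.Upper

/-!
The upper bound for the weighted multipoint Seshadri constants of an arbitrary irreducible surface
in a projective space, at arbitrary points.
-/

set_option autoImplicit false

open MvPolynomial Filter
open scoped ENNReal Topology

namespace Pool.Agent.Lib.MP_ed661f_ag.S.Up

open Pool.Agent.Lib.MP_ed661f_ag.H

variable {N : ℕ}

/-- the multiplicity of a curve at a point outside the curve is zero -/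
theorem mult_eq_zero {P : Ideal (Poly N)} {v : Fin (N + 1) → ℂ} {Q : Poly N} (hQ : Q ∈ P)
    (hv : eval v Q ≠ 0) : mult P v = 0 := by
  have h : ∀ s, jetDim P v s = 0 := by
    intro s
    have hM := finDim_isMaximal v
    have h4 : P ⊔ vecIdeal v = ⊤ := by
      by_contra hne
      have h5 := hM.eq_of_le hne le_sup_right
      have h6 : Q ∈ P ⊔ vecIdeal v := Ideal.mem_sup_left hQ
      rw [← h5, vecIdeal, RingHom.mem_ker] at h6
      exact hv h6
    have h3 : P ⊔ vecIdeal v ^ s = ⊤ :=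
      Ideal.isCoprime_iff_sup_eq.1 ((Ideal.isCoprime_iff_sup_eq.2 h4).pow_right)
    unfold jetDim
    rw [h3]
    have : Subsingleton (Poly N ⧸ (⊤ : Ideal (Poly N))) :=
      Ideal.Quotient.subsingleton_iff.2 rfl
    rw [Module.finrank_zero_of_subsingleton]
  unfold mult
  have h1 : (fun s : ℕ => 2 * (jetDim P v s : ℝ≥0∞) / (s : ℝ≥0∞) ^ 2) = fun _ => 0 := by
    funext s
    rw [h s]
    simp
  rw [h1]
  exact liminf_const 0

/-- **nonnegative classes have nonnegative square**: for points of an irreducible surface of degree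
`d` and real numbers `ρ i ≥ 0`, if `∑ ρ i mult P (v i) ≤ deg P` for all curves `P` on the surface,
then `∑ (ρ i) ^ 2 ≤ d` -/
theorem sum_sq_le {n d : ℕ} {I : Ideal (Poly N)} (hI : IsSurface I) (hd : surfDeg I = d)
    {v : Fin n → Fin (N + 1) → ℂ} (hv0 : ∀ i, v i ≠ 0) (hv : ∀ i, ∀ F ∈ I, eval (v i) F = 0)
    {ρ : Fin n → ℝ} (hρ : ∀ i, 0 ≤ ρ i)
    (H : ∀ P, IsCurveOn I P → ∑ i, ENNReal.ofReal (ρ i) * mult P (v i) ≤ deg P) :
    ∑ i, ρ i ^ 2 ≤ d := by
  obtain ⟨l, hl, hlx⟩ := exists_linear_form v hv0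
  set c : Fin n → ℂ := fun i => (eval (v i) l)⁻¹ with hc
  have hc0 : ∀ i, c i ≠ 0 := fun i => inv_ne_zero (hlx i)
  set v' : Fin n → Fin (N + 1) → ℂ := fun i => c i • v i with hv'
  have hlv : ∀ i, eval (v' i) l = 1 := by
    intro i
    show eval (c i • v i) l = 1
    rw [eval_smul_linear hl]
    exact inv_mul_cancel₀ (hlx i)
  have hIv : ∀ i, ∀ F ∈ I, eval (v' i) F = 0 := by
    intro i F hF
    show eval (c i • v i) F = 0
    rw [← eval_scaleHom]
    exact hv i _ (scaleHom_mem hI.homogeneous (c i) hF)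
  choose e he1 he using fun i => exists_HS_pos hI hl (hlv i) (hIv i)
  have h1 := nef_sq_le hI hd hl he hρ (fun P hP => by
    have h2 : ∀ i, mult P (v' i) = mult P (v i) := fun i =>
      mult_smul hP.homogeneous _ (hc0 i)
    simp only [h2]
    exact H P hP)
  refine le_trans (Finset.sum_le_sum fun i _ => ?_) h1
  have h2 : (1 : ℝ) ≤ e i := by exact_mod_cast he1 i
  nlinarith [sq_nonneg (ρ i)]

/-- the degree of a surface is a positive integer -/
theorem exists_surfDeg {I : Ideal (Poly N)} (hI : IsSurface I) :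
    ∃ d : ℕ, 1 ≤ d ∧ surfDeg I = d := by
  obtain ⟨d, A, hd1, hd, -⟩ := surf_growth hI
  exact ⟨d, hd1, hd⟩

/-- the upper bound on a blow-up: for the class `h H - ∑ E i` on the blow-up of an irreducible
surface at points `x i` and further points `y j` -/
theorem blowup_upper {r n d h : ℕ} {I : Ideal (Poly N)} (hI : IsSurface I) (hd : surfDeg I = d)
    (hh : 1 ≤ h) {x : Fin r → Fin (N + 1) → ℂ} {y : Fin n → Fin (N + 1) → ℂ}
    (hx0 : ∀ i, x i ≠ 0) (hx : ∀ i, ∀ F ∈ I, eval (x i) F = 0)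
    (hy0 : ∀ j, y j ≠ 0) (hy : ∀ j, ∀ F ∈ I, eval (y j) F = 0) {s : ℝ} (hs : 0 ≤ s)
    (H : ∀ P, IsCurveOn I P →
      ∑ i, mult P (x i) + ENNReal.ofReal s * ∑ j, mult P (y j) ≤ h * deg P) :
    r + n * s ^ 2 ≤ h ^ 2 * d := by
  have hh0 : (0 : ℝ) < h := by exact_mod_cast hh
  have h1 := sum_sq_le hI hd (v := Fin.append x y)
    (ρ := Fin.append (fun _ => 1 / (h : ℝ)) (fun _ => s / h))
    (fun i => by
      refine Fin.addCases (fun i => ?_) (fun i => ?_) i
      · rw [Fin.append_left]; exact hx0 i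
      · rw [Fin.append_right]; exact hy0 i)
    (fun i => by
      refine Fin.addCases (fun i => ?_) (fun i => ?_) i
      · rw [Fin.append_left]; exact hx i
      · rw [Fin.append_right]; exact hy i)
    (fun i => by
      refine Fin.addCases (fun i => ?_) (fun i => ?_) i
      · rw [Fin.append_left]; positivity
      · rw [Fin.append_right]; positivity)
    (fun P hP => by
      rw [Fin.sum_univ_add]
      simp only [Fin.append_left, Fin.append_right]
      rw [← Finset.mul_sum, ← Finset.mul_sum]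
      have h2 := H P hP
      have h3 : ENNReal.ofReal (1 / (h : ℝ)) = (h : ℝ≥0∞)⁻¹ := by
        rw [one_div, ENNReal.ofReal_inv_of_pos hh0, ENNReal.ofReal_natCast]
      have h4 : ENNReal.ofReal (s / h) = (h : ℝ≥0∞)⁻¹ * ENNReal.ofReal s := by
        rw [div_eq_inv_mul, ENNReal.ofReal_mul (by positivity), ← one_div, h3]
      rw [h3, h4, mul_assoc, ← mul_add]
      have h5 : (h : ℝ≥0∞) ≠ 0 := by exact_mod_cast (by omega : h ≠ 0)
      calc (h : ℝ≥0∞)⁻¹ * (∑ i, mult P (x i) + ENNReal.ofReal s * ∑ i, mult P (y i)) ≤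
          (h : ℝ≥0∞)⁻¹ * (h * deg P) := by gcongr
        _ = deg P := by
          rw [← mul_assoc, ENNReal.inv_mul_cancel h5 (ENNReal.natCast_ne_top h), one_mul])
  rw [Fin.sum_univ_add] at h1
  simp only [Fin.append_left, Fin.append_right, Finset.sum_const, Finset.card_univ,
    Fintype.card_fin, nsmul_eq_mul] at h1
  have h2 : (r : ℝ) * (1 / (h : ℝ)) ^ 2 + n * (s / h) ^ 2 = (r + n * s ^ 2) / (h : ℝ) ^ 2 := by
    field_simp
  rw [h2, div_le_iff₀ (by positivity)] at h1
  linarith

/-- **the upper bound for an arbitrary surface** -/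
theorem eps_le_gen {n d : ℕ} (hn : 1 ≤ n) {I : Ideal (Poly N)} (hI : IsSurface I)
    (hd : surfDeg I = d) : eps I n ≤ ENNReal.ofReal (Real.sqrt (d / n)) := by
  unfold eps
  refine iSup_le fun x => iSup_le fun _ => iSup_le fun hon => ?_
  by_contra hcon
  rw [not_le] at hcon
  obtain ⟨ε', h1, h2⟩ := ENNReal.lt_iff_exists_nnreal_btwn.1 hcon
  set ε : ℝ := (ε' : ℝ) with hεdef
  have hεε : ENNReal.ofReal ε = ε' := ENNReal.ofReal_coe_nnreal
  rw [← hεε] at h1 h2
  have hs0 : 0 ≤ Real.sqrt (d / n) := Real.sqrt_nonneg _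
  have h3 : Real.sqrt (d / n) < ε := (ENNReal.ofReal_lt_ofReal_iff_of_nonneg hs0).1 h1
  have hε : 0 < ε := lt_of_le_of_lt hs0 h3
  have h4 := sum_sq_le hI hd (v := fun i => (x i).rep) (ρ := fun _ => ε)
    (fun i => (x i).rep_nonzero) (fun i => hon i) (fun _ => hε.le) (fun P hP => by
      rw [← Finset.mul_sum]
      by_cases hpt : ∃ i, OnVar P (x i)
      · have h6 : seshadri I x ≤ deg P / ∑ i, mult P (x i).rep := by
          unfold seshadri
          exact iInf_le_of_le P (iInf_le_of_le hP (iInf_le_of_le hpt le_rfl))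
        exact ENNReal.mul_le_of_le_div (h2.le.trans h6)
      · push Not at hpt
        have h6 : ∀ i, mult P (x i).rep = 0 := by
          intro i
          have h7 := hpt i
          unfold OnVar at h7
          push Not at h7
          obtain ⟨Q, hQ, hQ0⟩ := h7
          exact mult_eq_zero hQ hQ0
        simp [h6])
  rw [Finset.sum_const, Finset.card_univ, Fintype.card_fin, nsmul_eq_mul] at h4
  have hn0 : (0 : ℝ) < n := by exact_mod_cast hn
  have h5 : (d : ℝ) / n < ε ^ 2 := (Real.sqrt_lt' hε).1 h3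
  rw [div_lt_iff₀ hn0] at h5
  linarith

end Pool.Agent.Lib.MP_ed661f_ag.S.Up
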